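import Pool.Agent.Lib_helper44.G4.Defs

/-!
# Critical zeros of twists of automorphic `L`-functions of degree at most 4: weaker hypotheses
-/

namespace Pool.Agent.G5

open Complex MeasureTheory Filter Topology

open Pool.Agent.G4 (par Ix ev pairs RSB IsKer D hatw smo)

/-- An `L`-function of degree `m` whose twists by primitive Dirichlet characters have an analytic
continuation and a functional equation: Euler product of degree `m`, `∑_{n ≤ x} |a(n)|² ≤ C x`, and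
the functional equations.  No bound for the parameters `α_j(p)`, `μ_j` is assumed. -/
structure WSys (m : ℕ) where
  /-- The coefficients of the Dirichlet series `∑ a(n) n^{-s}`. -/
  a : ℕ → ℂ
  /-- The conductor. -/
  N : ℕ
  /-- The Satake parameters. -/
  α : ℕ → Fin m → ℂ
  /-- The archimedean parameters of the twists by even (`0`) and odd (`1`) Dirichlet characters:
  the Gamma factor is `∏_j Γ_ℝ(s - μ_j(δ))`. -/
  μ : Fin 2 → Fin m → ℂ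
  /-- The conductor is positive. -/
  N_pos : 0 < N
  /-- Convention for `n = 0`. -/
  a_zero : a 0 = 0
  /-- `a` is multiplicative. -/
  a_one : a 1 = 1
  /-- `a` is multiplicative. -/
  a_mul : ∀ k n : ℕ, k.Coprime n → a (k * n) = a k * a n
  /-- The Euler factors, `∑_k a(p^k) X^k = ∏_j (1 - α_j(p) X)⁻¹` (formal power series). -/
  euler : ∀ p : ℕ, p.Prime → PowerSeries.mk (fun k => a (p ^ k)) *
    ∏ j, (1 - PowerSeries.C (α p j) * PowerSeries.X) = 1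
  /-- Rankin-Selberg: `∑_{n ≤ x} |a(n)|² ≤ C x`. -/
  rs : ∃ C : ℝ, ∀ x : ℕ, ∑ n ∈ Finset.Icc 1 x, ‖a n‖ ^ 2 ≤ C * x
  /-- Every twist by a primitive character `χ` modulo `q > 1`, `(q, N) = 1`, has a completed
  `L`-function which is entire, bounded in vertical strips and satisfies a functional equation of
  conductor `N q^m`.  (The reciprocals of the Gamma functions are entire.) -/
  fe : ∀ q : ℕ, 1 < q → q.Coprime N → ∀ χ : DirichletCharacter ℂ q, χ.IsPrimitive →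
    ∃ (Λ : ℂ → ℂ) (W : ℂ), Differentiable ℂ Λ ∧ ‖W‖ = 1 ∧
      (∀ A B : ℝ, ∃ C : ℝ, ∀ s : ℂ, A ≤ s.re → s.re ≤ B → ‖Λ s‖ ≤ C) ∧
      (∀ s : ℂ, Λ s = W * starRingEnd ℂ (Λ (1 - starRingEnd ℂ s))) ∧
      ∀ s : ℂ, 1 < s.re → (∏ j, (Gammaℝ (s - μ (par χ) j))⁻¹) * Λ s =
        ((N : ℂ) * (q : ℂ) ^ m) ^ (s / 2) * LSeries (fun n => a n * χ n) s

variable {m : ℕ}

/-- `Λ` is the completed `L`-function of the twist by `χ`: it is entire, and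
`∏_j Γ_ℝ(s - μ_j)⁻¹ Λ(s) = (N q^m)^{s/2} ∑ a(n) χ(n) n^{-s}` for `Re s > 1`. -/
def IsLamW (S : WSys m) {q : ℕ} (χ : DirichletCharacter ℂ q) (Λ : ℂ → ℂ) : Prop :=
  Differentiable ℂ Λ ∧ ∀ s : ℂ, 1 < s.re → (∏ j, (Gammaℝ (s - S.μ (par χ) j))⁻¹) * Λ s =
    ((S.N : ℂ) * (q : ℂ) ^ m) ^ (s / 2) * LSeries (fun n => S.a n * χ n) s

/-! ### The internal structure -/

/-- The internal version of `WSys`, with a general Gamma factor without poles in `Re s ≥ 1/2`. -/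
structure Sys (m : ℕ) where
  a : ℕ → ℂ
  N : ℕ
  α : ℕ → Fin m → ℂ
  gam : Fin 2 → ℂ → ℂ
  /-- exceptional ordinates -/
  Z : Finset ℝ
  N_pos : 0 < N
  a_zero : a 0 = 0
  a_one : a 1 = 1
  a_mul : ∀ k n : ℕ, k.Coprime n → a (k * n) = a k * a n
  euler : ∀ p : ℕ, p.Prime → PowerSeries.mk (fun k => a (p ^ k)) *
    ∏ j, (1 - PowerSeries.C (α p j) * PowerSeries.X) = 1
  rs : ∃ C : ℝ, ∀ x : ℕ, ∑ n ∈ Finset.Icc 1 x, ‖a n‖ ^ 2 ≤ C * x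
  gam_cont : ∀ δ, ∀ η : ℝ, 0 ≤ η → Continuous fun t : ℝ => gam δ (1 / 2 + η + t * I)
  glow : ∀ α β : ℝ, (∀ t ∈ Set.Icc α β, t ∉ Z) → ∃ g : ℝ, 0 < g ∧ ∀ δ, ∀ η ∈ Set.Icc (0 : ℝ) 1,
    ∀ t ∈ Set.Icc α β, g ≤ ‖gam δ (1 / 2 + η + t * I)‖
  fe : ∀ q : ℕ, 1 < q → q.Coprime N → ∀ χ : DirichletCharacter ℂ q, χ.IsPrimitive →
    ∃ (Λ : ℂ → ℂ) (W : ℂ), Differentiable ℂ Λ ∧ ‖W‖ = 1 ∧
      (∀ A B : ℝ, ∃ (C : ℝ) (n : ℕ), ∀ s : ℂ, A ≤ s.re → s.re ≤ B → ‖Λ s‖ ≤ C * (1 + ‖s‖) ^ n) ∧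
      (∀ s : ℂ, Λ s = W * starRingEnd ℂ (Λ (1 - starRingEnd ℂ s))) ∧
      ∀ s : ℂ, 1 < s.re → Λ s = ((N : ℂ) * (q : ℂ) ^ m) ^ (s / 2) *
        gam (par χ) s * LSeries (fun n => a n * χ n) s

/-- `Λ` is the completed `L`-function of the twist by `χ` -/
def IsLam (S : Sys m) {q : ℕ} (χ : DirichletCharacter ℂ q) (Λ : ℂ → ℂ) : Prop :=
  Differentiable ℂ Λ ∧ ∀ s : ℂ, 1 < s.re → Λ s = ((S.N : ℂ) * (q : ℂ) ^ m) ^ (s / 2) *
    S.gam (par χ) s * LSeries (fun n => S.a n * χ n) s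

/-- the kernels of a system -/
structure Kers (S : Sys m) where
  κ : ℝ
  K : Fin 2 → ℝ → ℂ
  κ_pos : 0 < κ
  isKer : ∀ δ, IsKer κ (K δ)
  mellin : ∀ δ, ∀ z : ℂ, -κ < z.re → ∫ u : ℝ, K δ u * cexp (z * u) = S.gam δ (1 / 2 + z)
  decay : ∀ δ, ∀ σ : ℝ, -κ < σ → ∃ C : ℝ, ∀ t : ℝ, ‖S.gam δ (1 / 2 + σ + t * I)‖ ≤ C / (1 + t ^ 2)

/-- the density of the twist `x` of the system -/
noncomputable def Dx {S : Sys m} (k : Kers S) (x : Ix) (u : ℝ) : ℂ := D S.a (k.K (par x.2)) x u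

/-- half of the logarithm of the conductor of the twist -/
noncomputable def ell (S : Sys m) (x : Ix) : ℝ := (Real.log S.N + m * Real.log (x.1 + 2 : ℕ)) / 2

/-- half of the logarithm of the largest conductor -/
noncomputable def ellQ (S : Sys m) (Q : ℕ) : ℝ := (Real.log S.N + m * Real.log Q) / 2

/-- the Laplace transform of the density: it is `γ(1/2 + z) L(1/2 + z)` -/
noncomputable def Hf {S : Sys m} (k : Kers S) (x : Ix) (z : ℂ) : ℂ :=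
  ∫ u : ℝ, Dx k x u * cexp (z * u)

/-- finite Euler product over the primes `p ≤ P` -/
noncomputable def LP (S : Sys m) (P : ℕ) (x : Ix) (s : ℂ) : ℂ :=
  ∏ p ∈ Nat.primesBelow (P + 1), (∏ j, (1 - S.α p j * (ev x p * (p : ℂ) ^ (-s))))⁻¹

/-! ### Families of densities -/

/-- a family of densities, one for each character -/
abbrev Fm : Type := Ix → ℝ → ℂ

/-- the properties of a family of densities -/
structure Fam (N : ℕ) (E : Fm) : Prop where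
  cont : ∀ x, Continuous (E x)
  dec : ∀ x : Ix, x.q.Coprime N → x.2.IsPrimitive → ∀ A : ℝ, ∃ C : ℝ, ∀ u : ℝ,
    ‖E x u‖ ≤ C * Real.exp (-A * |u|)
  right : ∃ C : ℝ, 0 ≤ C ∧ ∀ (x : Ix) (u : ℝ), ‖E x u‖ ≤ C * Real.exp (-2 * u)
  ms : ∃ C : ℝ, 0 ≤ C ∧ ∀ Q : ℕ,
    ∑ x ∈ pairs N Q, ∫ u : ℝ, ‖E x u‖ ^ 2 / (1 + u ^ 2) ≤ C * Q ^ 2

/-- the Laplace transform -/
noncomputable def HE (E : Fm) (x : Ix) (z : ℂ) : ℂ := ∫ u : ℝ, E x u * cexp (z * u)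

/-- multiplication by `1 - c χ(p) p^{-s}`, for `a = (p, c)` -/
noncomputable def opT (a : ℕ × ℂ) (E : Fm) : Fm := fun x u =>
  E x u - a.2 * ev x a.1 * (((√(a.1 : ℝ))⁻¹ : ℝ) : ℂ) * E x (u + Real.log a.1)

/-- multiplication by `1 - conj (c χ(p)) p^{-(1-s)}`, for `a = (p, c)` -/
noncomputable def opU (a : ℕ × ℂ) (E : Fm) : Fm := fun x u =>
  E x u - starRingEnd ℂ (a.2 * ev x a.1) * (((√(a.1 : ℝ))⁻¹ : ℝ) : ℂ) * E x (u - Real.log a.1)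

noncomputable def opTs (L : List (ℕ × ℂ)) (E : Fm) : Fm := L.foldr opT E

noncomputable def opUs (L : List (ℕ × ℂ)) (E : Fm) : Fm := L.foldr opU E

/-- the effect of `opT` on the coefficients -/
noncomputable def opA (a : ℕ × ℂ) (b : ℕ → ℂ) : ℕ → ℂ := fun n =>
  b n - if a.1 ∣ n then a.2 * b (n / a.1) else 0

/-- all pairs `(p, α_j(p))`, `p ∈ B` -/
noncomputable def facs (S : Sys m) (B : Finset ℕ) : List (ℕ × ℂ) :=
  (B ×ˢ (Finset.univ : Finset (Fin m))).toList.map fun a => (a.1, S.α a.1 a.2)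

/-- the Euler polynomial of the primes in `B` -/
noncomputable def PB (S : Sys m) (B : Finset ℕ) (x : Ix) (s : ℂ) : ℂ :=
  ∏ p ∈ B, ∏ j, (1 - S.α p j * (ev x p * (p : ℂ) ^ (-s)))

/-- the coefficients at the integers prime to `B` -/
noncomputable def aB (S : Sys m) (B : Finset ℕ) (n : ℕ) : ℂ :=
  open Classical in if ∀ p ∈ B, ¬ p ∣ n then S.a n else 0

/-- the family with transform `H(z) P_B(1/2 + z)²` -/
noncomputable def EP {S : Sys m} (k : Kers S) (B : Finset ℕ) : Fm :=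
  opTs (facs S B) (opTs (facs S B) (Dx k))

/-- the family with transform `H(z) P_B(1/2 + z) conj P_B(1/2 - conj z)` -/
noncomputable def EQ {S : Sys m} (k : Kers S) (B : Finset ℕ) : Fm :=
  opUs (facs S B) (opTs (facs S B) (Dx k))

/-- small in mean square to the right of `-ell - s` -/
def SmallR (S : Sys m) (E : Fm) : Prop := ∀ s : ℝ, 0 ≤ s → ∀ ε : ℝ, 0 < ε → ∃ Q₀ : ℕ, ∀ Q : ℕ,
  Q₀ ≤ Q → ∑ x ∈ pairs S.N Q, ∫ u in Set.Ioi (0 : ℝ), ‖E x (u - ell S x - s)‖ ^ 2 / (1 + u ^ 2) ≤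
    ε * Q ^ 2

/-! ### Sums over prime powers -/

/-- sum over the prime powers `p^k`, `p ≤ P`, `1 ≤ k ≤ K` -/
noncomputable def FF (c : ℕ → ℕ → ℂ) (P K : ℕ) (x : Ix) (t : ℝ) : ℂ :=
  ∑ p ∈ Nat.primesBelow (P + 1), ∑ k ∈ Finset.Icc 1 K,
    c p k * ev x p ^ k * cexp (-((k * Real.log p * t : ℝ) : ℂ) * I)

/-- the variance -/
noncomputable def VF (c : ℕ → ℕ → ℂ) (P K : ℕ) : ℝ :=
  ∑ p ∈ Nat.primesBelow (P + 1), ∑ k ∈ Finset.Icc 1 K, ‖c p k‖ ^ 2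

/-- the hypotheses on the coefficients -/
structure MB (c : ℕ → ℕ → ℂ) (w : ℕ → ℝ) (P K : ℕ) (C₀ : ℝ) : Prop where
  w_nonneg : ∀ p, 0 ≤ w p
  c_le : ∀ p, p.Prime → ∀ k, 1 ≤ k → ‖c p k‖ ^ 2 ≤ w p / (k : ℝ) ^ 2
  w_le : ∀ p, p.Prime → w p ≤ C₀
  w_sum : ∀ k : ℕ, 1 ≤ k → ∀ y : ℝ,
    ∑ p ∈ Nat.primesBelow (P + 1), w p / (1 + (k * Real.log p - y) ^ 2) ≤ C₀
  w_V : ∀ p, p.Prime → w p ≤ C₀ * ∑ k ∈ Finset.Icc 1 K, ‖c p k‖ ^ 2

/-- the local variance `∑_{1 ≤ i ≤ m} |a(p^i)|² p^{-i(1+2η)}` -/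
noncomputable def Ap (S : Sys m) (η : ℝ) (p : ℕ) : ℝ :=
  ∑ i ∈ Finset.Icc 1 m, ‖S.a (p ^ i)‖ ^ 2 * (p : ℝ) ^ (-(i : ℝ) * (1 + 2 * η))

/-- the coefficients of the logarithm of the Euler factor on the line `1/2 + η` -/
noncomputable def cf (S : Sys m) (η : ℝ) (p k : ℕ) : ℂ :=
  (∑ j, S.α p j ^ k) / k * (p : ℂ) ^ (-((k : ℂ) * (1 / 2 + η)))

/-- constant phase on a window -/
def NoZ {S : Sys m} (k : Kers S) (α β : ℝ) (x : Ix) : Prop :=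
  ∃ θ : ℂ, ‖θ‖ = 1 ∧ ∀ t ∈ Set.Ioo α β,
    cexp (ell S x * t * I) * Hf k x (t * I) = θ * ‖Hf k x (t * I)‖

/-- the zeros of odd order on the critical line with imaginary part in a window -/
def oddZ (Λ : ℂ → ℂ) (a b : ℝ) : Set ℝ :=
  {t : ℝ | a < t ∧ t < b ∧ Odd (analyticOrderNatAt Λ (1 / 2 + t * I))}

end Pool.Agent.G5
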