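import Pool.Agent.Lib_helper50.G4.SHIFT

/-!
# Shift of the line of integration for functions of polynomial growth
-/

namespace Pool.Agent.G5

open Pool.Agent.G4

open Complex MeasureTheory Filter Topology

theorem shp_norm (δ : ℝ) (z : ℂ) : ‖cexp (δ * z ^ 2)‖ = Real.exp (δ * (z.re ^ 2 - z.im ^ 2)) := by
  rw [Complex.norm_exp]
  congr 1
  have : (δ * z ^ 2 : ℂ) = ((δ : ℝ) : ℂ) * (z ^ 2) := rfl
  rw [this, Complex.re_ofReal_mul]
  congr 1
  rw [sq, Complex.mul_re]
  ring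

/-- polynomial growth is killed by a Gaussian -/
theorem shp_bound {δ : ℝ} (hδ : 0 < δ) (σ M : ℝ) (n : ℕ) : ∃ C : ℝ, ∀ z : ℂ, |z.re| ≤ σ →
    |M| * (1 + ‖z‖) ^ n * Real.exp (δ * (z.re ^ 2 - z.im ^ 2)) ≤ C := by
  obtain ⟨C, hC⟩ : ∃ C : ℝ, ∀ t : ℝ, 0 ≤ t → (1 + σ + t) ^ n * Real.exp (-δ * t ^ 2) ≤ C := by
    have hc : Continuous fun t : ℝ => (1 + σ + t) ^ n * Real.exp (-δ * t ^ 2) := by fun_prop
    have hlim : Tendsto (fun t : ℝ => (1 + σ + t) ^ n * Real.exp (-δ * t ^ 2)) atTop (𝓝 0) := by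
      have h1 : Tendsto (fun t : ℝ => (1 + σ + t) ^ n * Real.exp (-(1 + σ + t))) atTop (𝓝 0) := by
        have := (Real.tendsto_pow_mul_exp_neg_atTop_nhds_zero n).comp
          (tendsto_atTop_add_const_left atTop (1 + σ) tendsto_id)
        exact this
      refine squeeze_zero_norm' ?_ h1
      have h2 : ∀ᶠ t : ℝ in atTop, 1 + σ + t ≤ δ * t ^ 2 := by
        have h3 : Tendsto (fun t : ℝ => δ * t - 2) atTop atTop :=
          tendsto_atTop_add_const_right _ _ (tendsto_id.const_mul_atTop hδ)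
        filter_upwards [h3.eventually_ge_atTop 1, eventually_ge_atTop (|1 + σ| + 1)] with t ht1 ht2
        have h4 := le_abs_self (1 + σ)
        have h5 := abs_nonneg (1 + σ)
        nlinarith
      filter_upwards [h2, eventually_ge_atTop (|1 + σ|)] with t ht ht2
      have h4 : 0 ≤ 1 + σ + t := by
        have := neg_abs_le (1 + σ)
        linarith
      rw [Real.norm_of_nonneg (by positivity)]
      refine mul_le_mul_of_nonneg_left (Real.exp_le_exp.2 ?_) (by positivity)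
      linarith
    obtain ⟨T, hT⟩ := eventually_atTop.1 (hlim.eventually (gt_mem_nhds (zero_lt_one)))
    obtain ⟨C', hC'⟩ := (isCompact_Icc (a := (0 : ℝ)) (b := max T 0)).exists_bound_of_continuousOn
      hc.continuousOn
    refine ⟨max C' 1, fun t ht => ?_⟩
    rcases le_or_gt t (max T 0) with h | h
    · exact (le_abs_self _).trans ((hC' t ⟨ht, h⟩).trans (le_max_left _ _))
    · exact (hT t ((le_max_left _ _).trans h.le)).le.trans (le_max_right _ _)
  refine ⟨|M| * Real.exp (δ * σ ^ 2) * C, fun z hz => ?_⟩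
  have hσ : 0 ≤ σ := (abs_nonneg _).trans hz
  have h1 : ‖z‖ ≤ σ + |z.im| := (Complex.norm_le_abs_re_add_abs_im z).trans (by linarith)
  have h2 : z.re ^ 2 ≤ σ ^ 2 := by
    rw [← sq_abs z.re]
    exact pow_le_pow_left₀ (abs_nonneg _) hz 2
  have h3 : Real.exp (δ * (z.re ^ 2 - z.im ^ 2)) ≤
      Real.exp (δ * σ ^ 2) * Real.exp (-δ * |z.im| ^ 2) := by
    rw [← Real.exp_add, sq_abs]
    apply Real.exp_le_exp.2
    nlinarith
  have h4 := hC |z.im| (abs_nonneg _)
  have h5 : 0 ≤ |z.im| := abs_nonneg _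
  have h6 : 1 + ‖z‖ ≤ 1 + σ + |z.im| := by linarith
  have h7 : (1 + ‖z‖) ^ n ≤ (1 + σ + |z.im|) ^ n :=
    pow_le_pow_left₀ (by positivity) h6 n
  calc |M| * (1 + ‖z‖) ^ n * Real.exp (δ * (z.re ^ 2 - z.im ^ 2))
      ≤ |M| * (1 + σ + |z.im|) ^ n * (Real.exp (δ * σ ^ 2) * Real.exp (-δ * |z.im| ^ 2)) := by
        gcongr
    _ = |M| * Real.exp (δ * σ ^ 2) * ((1 + σ + |z.im|) ^ n * Real.exp (-δ * |z.im| ^ 2)) := by ring
    _ ≤ _ := by gcongr

/-- SHP: shift for functions of polynomial growth -/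
theorem shift_poly {f : ℂ → ℂ} (hf : Differentiable ℂ f) {σ M : ℝ} {n : ℕ} (hσ : 0 ≤ σ)
    (hM : ∀ z : ℂ, |z.re| ≤ σ → ‖f z‖ ≤ M * (1 + ‖z‖) ^ n)
    (h1 : Integrable fun t : ℝ => f (σ + t * I))
    (h2 : Integrable fun t : ℝ => f (-σ + t * I)) :
    ∫ t : ℝ, f (σ + t * I) = ∫ t : ℝ, f (-σ + t * I) := by
  have key : ∀ δ : ℝ, 0 < δ → ∫ t : ℝ, cexp (δ * (σ + t * I) ^ 2) * f (σ + t * I) =
      ∫ t : ℝ, cexp (δ * (-σ + t * I) ^ 2) * f (-σ + t * I) := by
    intro δ hδ
    obtain ⟨C, hC⟩ := shp_bound hδ σ M n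
    have hb : ∀ (s : ℝ) (t : ℝ), |s| ≤ σ → ‖cexp (δ * (s + t * I) ^ 2)‖ ≤ Real.exp (δ * σ ^ 2) := by
      intro s t hs
      rw [shp_norm]
      apply Real.exp_le_exp.2
      have e1 : (s + t * I : ℂ).re = s := by simp
      have e2 : (s + t * I : ℂ).im = t := by simp
      rw [e1, e2]
      have : s ^ 2 ≤ σ ^ 2 := by
        rw [← sq_abs s]
        exact pow_le_pow_left₀ (abs_nonneg _) hs 2
      nlinarith [sq_nonneg t, mul_nonneg hδ.le (sq_nonneg t)]
    have hi : ∀ s : ℝ, |s| ≤ σ → (Integrable fun t : ℝ => f (s + t * I)) →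
        Integrable fun t : ℝ => cexp (δ * (s + t * I) ^ 2) * f (s + t * I) := by
      intro s hs hint
      refine hint.bdd_mul (c := Real.exp (δ * σ ^ 2)) ?_ ?_
      · exact (by fun_prop : Continuous fun t : ℝ => cexp (δ * (s + t * I) ^ 2)).aestronglyMeasurable
      · exact Eventually.of_forall fun t => hb s t hs
    have g2 := hi (-σ) (by rw [abs_neg, abs_of_nonneg hσ]) (by simpa using h2)
    refine shift_pr (f := fun z => cexp (δ * z ^ 2) * f z) ?_ hσ (M := C) (fun z hz => ?_)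
      (hi σ (by rw [abs_of_nonneg hσ]) h1) (by simpa using g2)
    · exact (by fun_prop : Differentiable ℂ fun z : ℂ => cexp (δ * z ^ 2)).mul hf
    · rw [norm_mul, shp_norm, mul_comm]
      refine le_trans ?_ (hC z hz)
      refine mul_le_mul_of_nonneg_right ((hM z hz).trans ?_) (Real.exp_pos _).le
      gcongr
      exact le_abs_self M
  have lim : ∀ s : ℝ, |s| ≤ σ → (Integrable fun t : ℝ => f (s + t * I)) →
      Tendsto (fun k : ℕ => ∫ t : ℝ, cexp (((1 / ((k : ℝ) + 1) : ℝ) : ℂ) * (s + t * I) ^ 2) *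
        f (s + t * I)) atTop (𝓝 (∫ t : ℝ, f (s + t * I))) := by
    intro s hs hint
    refine tendsto_integral_of_dominated_convergence
      (fun t => Real.exp (σ ^ 2) * ‖f (s + t * I)‖) ?_ (hint.norm.const_mul _) ?_ ?_
    · intro k
      refine AEStronglyMeasurable.mul ?_ hint.aestronglyMeasurable
      exact (by fun_prop : Continuous fun t : ℝ =>
        cexp (((1 / ((k : ℝ) + 1) : ℝ) : ℂ) * (s + t * I) ^ 2)).aestronglyMeasurable
    · intro k
      refine Eventually.of_forall fun t => ?_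
      rw [norm_mul, shp_norm]
      refine mul_le_mul_of_nonneg_right (Real.exp_le_exp.2 ?_) (norm_nonneg _)
      have e1 : (s + t * I : ℂ).re = s := by simp
      have e2 : (s + t * I : ℂ).im = t := by simp
      rw [e1, e2]
      have h3 : s ^ 2 ≤ σ ^ 2 := by
        rw [← sq_abs s]
        exact pow_le_pow_left₀ (abs_nonneg _) hs 2
      have h4 : 0 < 1 / ((k : ℝ) + 1) := by positivity
      have h5 : 1 / ((k : ℝ) + 1) ≤ 1 := by
        rw [div_le_one (by positivity)]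
        linarith [Nat.cast_nonneg (α := ℝ) k]
      nlinarith [sq_nonneg t, mul_nonneg h4.le (sq_nonneg t), sq_nonneg σ]
    · refine Eventually.of_forall fun t => ?_
      have h0 : Tendsto (fun k : ℕ => cexp (((1 / ((k : ℝ) + 1) : ℝ) : ℂ) * (s + t * I) ^ 2)) atTop
          (𝓝 (cexp (((0 : ℝ) : ℂ) * (s + t * I) ^ 2))) := by
        have h6 : Continuous fun r : ℝ => cexp ((r : ℂ) * (s + t * I) ^ 2) := by fun_prop
        exact (h6.tendsto 0).comp tendsto_one_div_add_atTop_nhds_zero_nat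
      have := h0.mul_const (f (s + t * I))
      simpa using this
  have l1 := lim σ (by rw [abs_of_nonneg hσ]) h1
  have l2 := lim (-σ) (by rw [abs_neg, abs_of_nonneg hσ]) (by simpa using h2)
  have l3 := l1.congr fun k : ℕ => key (1 / ((k : ℝ) + 1)) (by positivity)
  refine tendsto_nhds_unique l3 ?_
  simpa using l2

end Pool.Agent.G5
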