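import Pool.Agent.Lib_helper44.G5.Defs
import Pool.Agent.Lib_helper76.G4.MSF

/-! Block MSU (helper76), copied to `G5`. -/

namespace Pool.Agent.G5

open Pool.Agent.G4

open Complex MeasureTheory Filter Topology

variable {m : ℕ}

theorem msu_rs (S : Sys m) : ∃ C : ℝ, RSB S.a C := S.rs

theorem msu_exp (S : Sys m) (hm : m ≤ 4) {Q : ℕ} (hQ : 1 ≤ Q) {u : ℝ} (hu : -ellQ S Q ≤ u) :
    Real.exp (-u) ≤ √S.N * Q ^ 2 := by
  have hN : (0 : ℝ) < S.N := by exact_mod_cast S.N_pos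
  have hQ' : (1 : ℝ) ≤ Q := by exact_mod_cast hQ
  have hQ0 : (0 : ℝ) < Q := by linarith
  have h1 : Real.exp (-u) ≤ Real.exp (ellQ S Q) := Real.exp_le_exp.mpr (by linarith)
  have h2 : ellQ S Q ≤ Real.log S.N / 2 + 2 * Real.log Q := by
    unfold ellQ
    have : (m : ℝ) ≤ 4 := by exact_mod_cast hm
    have hl : 0 ≤ Real.log Q := Real.log_nonneg hQ'
    nlinarith
  have h3 : Real.exp (Real.log S.N / 2 + 2 * Real.log Q) = √S.N * Q ^ 2 := by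
    rw [Real.exp_add, two_mul, Real.exp_add, Real.exp_log hQ0]
    congr 1
    · rw [Real.sqrt_eq_rpow, Real.rpow_def_of_pos hN]
      congr 1
      ring
    · ring
  rw [← h3]
  exact h1.trans (Real.exp_le_exp.mpr h2)

theorem msu_pairs {N Q : ℕ} (hQ : Q ≤ 1) : pairs N Q = ∅ := by
  unfold pairs
  have : Q - 1 = 0 := by omega
  rw [this]
  simp

/-- MSU: this is where `m ≤ 4` is used -/
theorem msu_pr {S : Sys m} (hm : m ≤ 4) (k : Kers S) : ∃ C : ℝ, 0 ≤ C ∧ ∀ (Q : ℕ) (u : ℝ),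
    -ellQ S Q ≤ u → ∑ x ∈ pairs S.N Q, ‖Dx k x u‖ ^ 2 ≤ C * Q ^ 2 := by
  obtain ⟨Cb, hb⟩ := msu_rs S
  have h1 : ∀ δ : Fin 2, ∃ C : ℝ, 0 ≤ C ∧ ∀ (Q : ℕ) (u : ℝ), -ellQ S Q ≤ u →
      ∑ x ∈ pairs S.N Q, ‖D S.a (k.K δ) x u‖ ^ 2 ≤ C * Q ^ 2 := by
    intro δ
    obtain ⟨C0, hC0, h0⟩ := b0_bound_pr k.κ_pos (k.isKer δ) Cb
    obtain ⟨C, hC, h⟩ := msf_pr S.N k.κ_pos (k.isKer δ) Cb
    refine ⟨C0 + C * √S.N, by positivity, fun Q u hu => ?_⟩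
    rcases Nat.lt_or_ge Q 1 with hQ | hQ
    · rw [msu_pairs (by omega : Q ≤ 1)]
      simp only [Finset.sum_empty]
      positivity
    · have h2 := h S.a hb Q u
      have h3 := msu_exp S hm hQ hu
      have h4 := mul_le_mul_of_nonneg_left (h0 S.a hb u).2 (by positivity : (0 : ℝ) ≤ (Q : ℝ) ^ 2)
      have h5 := mul_le_mul_of_nonneg_left h3 hC
      nlinarith
  obtain ⟨C0, hC0, h0⟩ := h1 0
  obtain ⟨C1, hC1, h1⟩ := h1 1
  refine ⟨C0 + C1, by positivity, fun Q u hu => ?_⟩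
  have h2 : ∑ x ∈ pairs S.N Q, ‖Dx k x u‖ ^ 2 ≤ ∑ x ∈ pairs S.N Q,
      (‖D S.a (k.K 0) x u‖ ^ 2 + ‖D S.a (k.K 1) x u‖ ^ 2) := by
    refine Finset.sum_le_sum fun x _ => ?_
    unfold Dx
    have h3 : par x.2 = 0 ∨ par x.2 = 1 := by
      unfold par
      split_ifs
      · exact Or.inr rfl
      · exact Or.inl rfl
    rcases h3 with h3 | h3
    · rw [h3]
      have := sq_nonneg ‖D S.a (k.K 1) x u‖
      linarith
    · rw [h3]
      have := sq_nonneg ‖D S.a (k.K 0) x u‖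
      linarith
  rw [Finset.sum_add_distrib] at h2
  have := h0 Q u hu
  have := h1 Q u hu
  nlinarith

end Pool.Agent.G5
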