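import Pool.Agent.Lib_helper38.G4.DB
import Pool.Agent.Lib_helper44.G5.Defs
import Pool.Agent.Lib_helper44.G5.DEC
import Pool.Agent.Lib_helper44.G5.FED
import Pool.Agent.Lib_helper44.G5.MSU

/-!
# Blocks MSW, MSS, MSE of the DegreeFour theorem
-/

namespace Pool.Agent.G5

open Pool.Agent.G4

open Complex MeasureTheory Filter Topology

variable {m : ℕ}

theorem msw_mem {N Q : ℕ} {x : Ix} : x ∈ pairs N Q ↔
    x.1 + 2 ≤ Q ∧ (x.1 + 2).Coprime N ∧ x.2.IsPrimitive := by
  unfold pairs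
  simp only [Finset.mem_sigma, Finset.mem_filter, Finset.mem_range, Finset.mem_univ, true_and]
  constructor
  · rintro ⟨⟨h1, h2⟩, h3⟩
    exact ⟨by omega, h2, h3⟩
  · rintro ⟨h1, h2, h3⟩
    exact ⟨⟨by omega, h2⟩, h3⟩

theorem msw_ell_nonneg (S : Sys m) (x : Ix) : 0 ≤ ell S x := by
  unfold ell
  have h1 : 0 ≤ Real.log S.N := Real.log_nonneg (by exact_mod_cast S.N_pos)
  have h2 : 0 ≤ Real.log ((x.1 + 2 : ℕ) : ℝ) := Real.log_nonneg (by
    exact_mod_cast (by omega : 1 ≤ x.1 + 2))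
  positivity

theorem msw_ell_le (S : Sys m) {x : Ix} {Q : ℕ} (hx : x ∈ pairs S.N Q) : ell S x ≤ ellQ S Q := by
  unfold ell ellQ
  have h1 := (msw_mem.mp hx).1
  have h2 : Real.log ((x.1 + 2 : ℕ) : ℝ) ≤ Real.log (Q : ℝ) :=
    Real.log_le_log (by positivity) (by exact_mod_cast h1)
  have h3 := mul_le_mul_of_nonneg_left h2 (Nat.cast_nonneg (α := ℝ) m)
  linarith

theorem msw_cont {S : Sys m} (k : Kers S) (x : Ix) : Continuous (Dx k x) := by
  obtain ⟨C, hC⟩ := S.rs
  exact db_cont_pr k.κ_pos (k.isKer _) (b := S.a) (Cb := C) hC x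

theorem msw_refl {S : Sys m} (k : Kers S) {Q : ℕ} {x : Ix} (hx : x ∈ pairs S.N Q) (u : ℝ) :
    ‖Dx k x (-(2 * ell S x) - u)‖ = ‖Dx k x u‖ := by
  obtain ⟨_, h2, h3⟩ := msw_mem.mp hx
  obtain ⟨W, hW, hfe⟩ := fe_dens_pr k (x := x) h2 h3
  have h4 := hfe (ell S x + u)
  rw [show -ell S x - (ell S x + u) = -(2 * ell S x) - u by ring,
    show -ell S x + (ell S x + u) = u by ring] at h4
  rw [h4, norm_mul, hW, one_mul, RCLike.norm_conj]

theorem msw_exp_abs {a : ℝ} (ha : 0 < a) : Integrable (fun v : ℝ => Real.exp (-a * |v|)) ∧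
    ∫ v : ℝ, Real.exp (-a * |v|) = 2 / a := by
  have h1 : ∫ v : ℝ, Real.exp (-a * |v|) = 2 / a := by
    rw [integral_comp_abs (f := fun v => Real.exp (-a * v)), integral_exp_mul_Ioi (by linarith)]
    field_simp
    simp
  refine ⟨?_, h1⟩
  by_contra h
  rw [integral_undef h] at h1
  have : 0 < 2 / a := by positivity
  linarith

theorem msw_sq_int {S : Sys m} (k : Kers S) {Q : ℕ} {x : Ix} (hx : x ∈ pairs S.N Q) :
    Integrable (fun u : ℝ => ‖Dx k x u‖ ^ 2) := by
  obtain ⟨_, h2, h3⟩ := msw_mem.mp hx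
  obtain ⟨C, hC⟩ := dens_decay_pr k (x := x) h2 h3 1
  have hi : Integrable (fun v : ℝ => C ^ 2 * Real.exp (-2 * |v|)) :=
    (msw_exp_abs (by norm_num : (0 : ℝ) < 2)).1.const_mul _
  refine hi.mono' ((msw_cont k x).norm.pow 2).aestronglyMeasurable
    (Eventually.of_forall fun u => ?_)
  rw [Real.norm_of_nonneg (by positivity)]
  calc ‖Dx k x u‖ ^ 2 ≤ (C * Real.exp (-1 * |u|)) ^ 2 :=
        pow_le_pow_left₀ (norm_nonneg _) (hC u) 2
    _ = _ := by
        rw [mul_pow, ← Real.exp_nat_mul]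
        congr 2
        push_cast
        ring

/-- weighted square -/
theorem msw_wint {S : Sys m} (k : Kers S) {Q : ℕ} {x : Ix} (hx : x ∈ pairs S.N Q) {w : ℝ → ℝ}
    (hw : Measurable w) {B : ℝ} (hB : ∀ u, ‖w u‖ ≤ B) :
    Integrable (fun u : ℝ => w u * ‖Dx k x u‖ ^ 2) := by
  refine ((msw_sq_int k hx).norm.const_mul B).mono' ?_ (Eventually.of_forall fun u => ?_)
  · exact (hw.aestronglyMeasurable).mul ((msw_cont k x).norm.pow 2).aestronglyMeasurable
  · rw [norm_mul]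
    exact mul_le_mul_of_nonneg_right (hB u) (norm_nonneg _)

/-- the sum over the pairs to the right of `-ellQ` -/
theorem msw_right {S : Sys m} (hm : m ≤ 4) (k : Kers S) : ∃ C : ℝ, 0 ≤ C ∧ ∀ (Q : ℕ) (w : ℝ → ℝ)
    (B : ℝ), Measurable w → (∀ u, 0 ≤ w u ∧ w u ≤ B) → Integrable w →
    ∑ x ∈ pairs S.N Q, ∫ v in Set.Ici (-ellQ S Q), w v * ‖Dx k x v‖ ^ 2 ≤ C * Q ^ 2 * ∫ v, w v := by
  obtain ⟨C, hC, hmsu⟩ := msu_pr hm k
  refine ⟨C, hC, fun Q w B hw hwB hwi => ?_⟩
  have hint : ∀ x ∈ pairs S.N Q, Integrable (fun u : ℝ => w u * ‖Dx k x u‖ ^ 2) := fun x hx =>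
    msw_wint k hx hw (B := B) fun u => by
      rw [Real.norm_of_nonneg (hwB u).1]
      exact (hwB u).2
  rw [← integral_finsetSum _ fun x hx => (hint x hx).integrableOn]
  calc ∫ v in Set.Ici (-ellQ S Q), ∑ x ∈ pairs S.N Q, w v * ‖Dx k x v‖ ^ 2
      ≤ ∫ v in Set.Ici (-ellQ S Q), C * Q ^ 2 * w v := by
        refine setIntegral_mono_on ?_ (hwi.const_mul _).integrableOn measurableSet_Ici
          fun v hv => ?_
        · exact integrable_finsetSum _ fun x hx => (hint x hx).integrableOn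
        · rw [← Finset.mul_sum, mul_comm]
          exact mul_le_mul_of_nonneg_right (hmsu Q v hv) (hwB v).1
    _ ≤ ∫ v, C * Q ^ 2 * w v := by
        refine setIntegral_le_integral (hwi.const_mul _) (Eventually.of_forall fun v => ?_)
        have := (hwB v).1
        positivity
    _ = _ := integral_const_mul _ _

/-- reflection of the left part -/
theorem msw_left {S : Sys m} (k : Kers S) {Q : ℕ} {x : Ix} (hx : x ∈ pairs S.N Q) {w₁ w₂ : ℝ → ℝ}
    (h₁ : Measurable w₁) (h₂ : Measurable w₂) {B : ℝ} (hb₁ : ∀ u, 0 ≤ w₁ u ∧ w₁ u ≤ B)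
    (hb₂ : ∀ u, 0 ≤ w₂ u ∧ w₂ u ≤ B) {c : ℝ} (hc : c ≤ -ell S x)
    (hle : ∀ u, u ≤ c → w₁ u ≤ w₂ (-(2 * ell S x) - u)) :
    ∫ u in Set.Iic c, w₁ u * ‖Dx k x u‖ ^ 2 ≤
      ∫ v in Set.Ici (-ell S x), w₂ v * ‖Dx k x v‖ ^ 2 := by
  have hn : ∀ {w : ℝ → ℝ}, (∀ u, 0 ≤ w u ∧ w u ≤ B) → ∀ u, ‖w u‖ ≤ B := by
    intro w hw u
    rw [Real.norm_of_nonneg (hw u).1]
    exact (hw u).2
  have hi₁ := msw_wint k hx h₁ (hn hb₁)
  have hi₂ := msw_wint k hx h₂ (hn hb₂)
  rw [← integral_indicator measurableSet_Iic, ← integral_indicator measurableSet_Ici]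
  rw [← integral_sub_left_eq_self (fun u => (Set.Iic c).indicator
    (fun u => w₁ u * ‖Dx k x u‖ ^ 2) u) volume (-(2 * ell S x))]
  refine integral_mono ?_ (hi₂.indicator measurableSet_Ici) fun v => ?_
  · exact (hi₁.indicator measurableSet_Iic).comp_sub_left (-(2 * ell S x))
  · simp only [Set.indicator]
    split_ifs with ha hb hb
    · rw [msw_refl k hx]
      refine mul_le_mul_of_nonneg_right ?_ (by positivity)
      have h3 := hle _ ha
      rwa [show -(2 * ell S x) - (-(2 * ell S x) - v) = v by ring] at h3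
    · exfalso
      apply hb
      simp only [Set.mem_Iic, Set.mem_Ici] at ha ⊢
      linarith
    · have := (hb₂ v).1
      positivity
    · exact le_rfl

theorem msw_cauchy (c : ℝ) : Integrable (fun v : ℝ => 1 / (1 + (v + c) ^ 2)) ∧
    ∫ v : ℝ, 1 / (1 + (v + c) ^ 2) = Real.pi := by
  have h1 : Integrable (fun v : ℝ => 1 / (1 + v ^ 2)) := by
    simp_rw [one_div]
    exact integrable_inv_one_add_sq
  refine ⟨h1.comp_add_right c, ?_⟩
  rw [integral_add_right_eq_self (fun v : ℝ => 1 / (1 + v ^ 2)) c]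
  simp_rw [one_div]
  exact integral_univ_inv_one_add_sq

theorem msw_pr {S : Sys m} (hm : m ≤ 4) (k : Kers S) : ∃ C : ℝ, 0 ≤ C ∧ ∀ Q : ℕ,
    ∑ x ∈ pairs S.N Q, ∫ u : ℝ, ‖Dx k x u‖ ^ 2 / (1 + u ^ 2) ≤ C * Q ^ 2 := by
  obtain ⟨C, hC, hright⟩ := msw_right hm k
  refine ⟨2 * (C * Real.pi), by positivity, fun Q => ?_⟩
  set w : ℝ → ℝ := fun v => 1 / (1 + (v + 0) ^ 2) with hw
  have hwm : Measurable w := by
    rw [hw]
    fun_prop
  have hw0 : ∀ v, 0 ≤ w v ∧ w v ≤ 1 := by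
    intro v
    simp only [hw]
    refine ⟨by positivity, ?_⟩
    rw [div_le_one (by positivity)]
    nlinarith [sq_nonneg (v + 0)]
  have hx : ∀ x ∈ pairs S.N Q, ∫ u : ℝ, ‖Dx k x u‖ ^ 2 / (1 + u ^ 2) ≤
      2 * ∫ v in Set.Ici (-ellQ S Q), w v * ‖Dx k x v‖ ^ 2 := by
    intro x hx
    have hl0 := msw_ell_nonneg S x
    have hlQ := msw_ell_le S hx
    have hi := msw_wint k hx hwm (B := 1) fun u => by
      rw [Real.norm_of_nonneg (hw0 u).1]
      exact (hw0 u).2
    have h1 : ∫ u : ℝ, ‖Dx k x u‖ ^ 2 / (1 + u ^ 2) = ∫ u : ℝ, w u * ‖Dx k x u‖ ^ 2 := by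
      refine integral_congr_ae (Eventually.of_forall fun u => ?_)
      simp only [hw, add_zero]
      ring
    rw [h1, ← integral_add_compl (measurableSet_Iic (a := -ell S x)) hi, Set.compl_Iic]
    have h2 := msw_left k hx hwm hwm hw0 hw0 (le_refl (-ell S x)) (fun u hu => by
      simp only [hw, add_zero]
      apply one_div_le_one_div_of_le (by positivity)
      have h3 : (-(2 * ell S x) - u) ^ 2 ≤ u ^ 2 := by
        nlinarith
      linarith)
    have h3 : ∫ v in Set.Ioi (-ell S x), w v * ‖Dx k x v‖ ^ 2 ≤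
        ∫ v in Set.Ici (-ell S x), w v * ‖Dx k x v‖ ^ 2 := by
      rw [integral_Ici_eq_integral_Ioi]
    have h4 : ∫ v in Set.Ici (-ell S x), w v * ‖Dx k x v‖ ^ 2 ≤
        ∫ v in Set.Ici (-ellQ S Q), w v * ‖Dx k x v‖ ^ 2 := by
      refine setIntegral_mono_set hi.integrableOn (Eventually.of_forall fun v => ?_)
        (LE.le.eventuallyLE (Set.Ici_subset_Ici.mpr (by linarith)))
      have := (hw0 v).1
      show 0 ≤ w v * ‖Dx k x v‖ ^ 2
      positivity
    linarith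
  calc ∑ x ∈ pairs S.N Q, ∫ u : ℝ, ‖Dx k x u‖ ^ 2 / (1 + u ^ 2)
      ≤ ∑ x ∈ pairs S.N Q, 2 * ∫ v in Set.Ici (-ellQ S Q), w v * ‖Dx k x v‖ ^ 2 :=
        Finset.sum_le_sum hx
    _ = 2 * ∑ x ∈ pairs S.N Q, ∫ v in Set.Ici (-ellQ S Q), w v * ‖Dx k x v‖ ^ 2 :=
        (Finset.mul_sum _ _ _).symm
    _ ≤ 2 * (C * Q ^ 2 * ∫ v, w v) := by
        have := hright Q w 1 hwm hw0 (msw_cauchy 0).1
        linarith
    _ = 2 * (C * Real.pi) * Q ^ 2 := by
        rw [(msw_cauchy 0).2]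
        ring

theorem mss_pr {S : Sys m} (hm : m ≤ 4) (k : Kers S) : ∃ C : ℝ, 0 ≤ C ∧ ∀ Q : ℕ,
    ∑ x ∈ pairs S.N Q, ∫ u : ℝ, ‖Dx k x (u - ell S x)‖ ^ 2 / (1 + u ^ 2) ≤ C * Q ^ 2 := by
  classical
  obtain ⟨C, hC, hright⟩ := msw_right hm k
  set G : Ix → ℝ := fun x => ∫ u : ℝ, ‖Dx k x (u - ell S x)‖ ^ 2 / (1 + u ^ 2) with hG
  have hG0 : ∀ x, 0 ≤ G x := fun x => integral_nonneg fun u => by positivity
  set C' := 18 * (C * Real.pi) with hC'
  have hC'0 : 0 ≤ C' := by positivity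
  -- the dyadic block
  have hblock : ∀ Q : ℕ, ∑ x ∈ (pairs S.N Q).filter (fun x => Q < 2 * x.q), G x ≤ C' * Q ^ 2 := by
    intro Q
    set w : ℝ → ℝ := fun v => 1 / (1 + (v + ellQ S Q) ^ 2) with hw
    have hwm : Measurable w := by
      rw [hw]
      fun_prop
    have hw0 : ∀ v, 0 ≤ w v ∧ w v ≤ 1 := by
      intro v
      simp only [hw]
      refine ⟨by positivity, ?_⟩
      rw [div_le_one (by positivity)]
      nlinarith [sq_nonneg (v + ellQ S Q)]
    have hx : ∀ x ∈ (pairs S.N Q).filter (fun x => Q < 2 * x.q), G x ≤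
        18 * ∫ v in Set.Ici (-ellQ S Q), w v * ‖Dx k x v‖ ^ 2 := by
      intro x hxf
      obtain ⟨hx, hq⟩ := Finset.mem_filter.mp hxf
      have hl0 := msw_ell_nonneg S x
      have hlQ := msw_ell_le S hx
      have hQpos : 0 < Q := by
        have := (msw_mem.mp hx).1
        omega
      -- difference of the conductors
      have hdiff : ellQ S Q ≤ ell S x + 2 := by
        unfold ell ellQ
        have h1 : Real.log (Q : ℝ) ≤ Real.log 2 + Real.log ((x.1 + 2 : ℕ) : ℝ) := by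
          rw [← Real.log_mul (by norm_num) (by positivity)]
          refine Real.log_le_log (by exact_mod_cast hQpos) ?_
          have h2 : Q ≤ 2 * (x.1 + 2) := by
            have : x.q = x.1 + 2 := rfl
            omega
          exact_mod_cast h2
        have h2 : Real.log 2 ≤ 1 := by
          have := Real.log_two_lt_d9
          linarith
        have h3 : (m : ℝ) ≤ 4 := by exact_mod_cast hm
        have h4 : (m : ℝ) * Real.log Q ≤ m * (Real.log 2 + Real.log ((x.1 + 2 : ℕ) : ℝ)) :=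
          mul_le_mul_of_nonneg_left h1 (Nat.cast_nonneg m)
        have h5 : (m : ℝ) * Real.log 2 ≤ 4 * 1 :=
          mul_le_mul h3 h2 (Real.log_nonneg (by norm_num)) (by norm_num)
        linarith
      set w₁ : ℝ → ℝ := fun v => 1 / (1 + (v + ell S x) ^ 2) with hw₁
      have hwm₁ : Measurable w₁ := by
        rw [hw₁]
        fun_prop
      have hw₁0 : ∀ v, 0 ≤ w₁ v ∧ w₁ v ≤ 1 := by
        intro v
        simp only [hw₁]
        refine ⟨by positivity, ?_⟩
        rw [div_le_one (by positivity)]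
        nlinarith [sq_nonneg (v + ell S x)]
      have hi₁ := msw_wint k hx hwm₁ (B := 1) fun u => by
        rw [Real.norm_of_nonneg (hw₁0 u).1]
        exact (hw₁0 u).2
      have hi := msw_wint k hx hwm (B := 1) fun u => by
        rw [Real.norm_of_nonneg (hw0 u).1]
        exact (hw0 u).2
      have h1 : G x = ∫ v : ℝ, w₁ v * ‖Dx k x v‖ ^ 2 := by
        rw [hG]
        simp only
        rw [← integral_add_right_eq_self (fun u : ℝ => ‖Dx k x (u - ell S x)‖ ^ 2 / (1 + u ^ 2))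
          (ell S x)]
        refine integral_congr_ae (Eventually.of_forall fun v => ?_)
        simp only [hw₁, add_sub_cancel_right]
        ring
      rw [h1, ← integral_add_compl (measurableSet_Iic (a := -ell S x)) hi₁, Set.compl_Iic]
      have h2 := msw_left k hx hwm₁ hwm₁ hw₁0 hw₁0 (le_refl (-ell S x)) (fun u hu => by
        simp only [hw₁]
        apply one_div_le_one_div_of_le (by positivity)
        have h3 : (-(2 * ell S x) - u + ell S x) ^ 2 = (u + ell S x) ^ 2 := by ring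
        rw [h3])
      have h3 : ∫ v in Set.Ioi (-ell S x), w₁ v * ‖Dx k x v‖ ^ 2 ≤
          ∫ v in Set.Ici (-ell S x), w₁ v * ‖Dx k x v‖ ^ 2 := by
        rw [integral_Ici_eq_integral_Ioi]
      have h4 : ∫ v in Set.Ici (-ell S x), w₁ v * ‖Dx k x v‖ ^ 2 ≤
          9 * ∫ v in Set.Ici (-ellQ S Q), w v * ‖Dx k x v‖ ^ 2 := by
        rw [← integral_const_mul]
        calc ∫ v in Set.Ici (-ell S x), w₁ v * ‖Dx k x v‖ ^ 2
            ≤ ∫ v in Set.Ici (-ell S x), 9 * (w v * ‖Dx k x v‖ ^ 2) := by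
              refine setIntegral_mono_on hi₁.integrableOn (hi.const_mul 9).integrableOn
                measurableSet_Ici fun v _ => ?_
              rw [← mul_assoc]
              refine mul_le_mul_of_nonneg_right ?_ (by positivity)
              simp only [hw₁, hw]
              rw [← mul_div_assoc, mul_one, div_le_div_iff₀ (by positivity) (by positivity)]
              nlinarith [sq_nonneg (v + ell S x - (ellQ S Q - ell S x)),
                sq_nonneg (v + ell S x), sq_nonneg (ellQ S Q - ell S x)]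
          _ ≤ ∫ v in Set.Ici (-ellQ S Q), 9 * (w v * ‖Dx k x v‖ ^ 2) := by
              refine setIntegral_mono_set (hi.const_mul 9).integrableOn
                (Eventually.of_forall fun v => ?_)
                (LE.le.eventuallyLE (Set.Ici_subset_Ici.mpr (by linarith)))
              have := (hw0 v).1
              show 0 ≤ 9 * (w v * ‖Dx k x v‖ ^ 2)
              positivity
      linarith
    have hnn : ∀ x, 0 ≤ ∫ v in Set.Ici (-ellQ S Q), w v * ‖Dx k x v‖ ^ 2 := fun x =>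
      setIntegral_nonneg measurableSet_Ici fun v _ => by
        have := (hw0 v).1
        positivity
    calc ∑ x ∈ (pairs S.N Q).filter (fun x => Q < 2 * x.q), G x
        ≤ ∑ x ∈ (pairs S.N Q).filter (fun x => Q < 2 * x.q),
          18 * ∫ v in Set.Ici (-ellQ S Q), w v * ‖Dx k x v‖ ^ 2 := Finset.sum_le_sum hx
      _ ≤ ∑ x ∈ pairs S.N Q, 18 * ∫ v in Set.Ici (-ellQ S Q), w v * ‖Dx k x v‖ ^ 2 :=
          Finset.sum_le_sum_of_subset_of_nonneg (Finset.filter_subset _ _) fun x _ _ => by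
            have := hnn x
            positivity
      _ = 18 * ∑ x ∈ pairs S.N Q, ∫ v in Set.Ici (-ellQ S Q), w v * ‖Dx k x v‖ ^ 2 :=
          (Finset.mul_sum _ _ _).symm
      _ ≤ 18 * (C * Q ^ 2 * ∫ v, w v) := by
          have := hright Q w 1 hwm hw0 (msw_cauchy _).1
          linarith
      _ = C' * Q ^ 2 := by
          rw [(msw_cauchy _).2, hC']
          ring
  refine ⟨2 * C', by positivity, fun Q => ?_⟩
  change ∑ x ∈ pairs S.N Q, G x ≤ 2 * C' * Q ^ 2
  induction Q using Nat.strong_induction_on with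
  | _ Q ih =>
    rcases Nat.eq_zero_or_pos Q with h0 | h0
    · subst h0
      have : pairs S.N 0 = ∅ := by
        apply Finset.eq_empty_of_forall_notMem
        intro x hx
        have := (msw_mem.mp hx).1
        omega
      rw [this, Finset.sum_empty]
      simp
    · rw [← Finset.sum_filter_add_sum_filter_not (pairs S.N Q) (fun x => Q < 2 * x.q)]
      have h1 := hblock Q
      have h2 : ∑ x ∈ (pairs S.N Q).filter (fun x => ¬ Q < 2 * x.q), G x ≤
          ∑ x ∈ pairs S.N (Q / 2), G x := by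
        refine Finset.sum_le_sum_of_subset_of_nonneg (fun x hx => ?_) fun x _ _ => hG0 x
        obtain ⟨hx1, hx2⟩ := Finset.mem_filter.mp hx
        obtain ⟨h3, h4, h5⟩ := msw_mem.mp hx1
        have h6 : x.q = x.1 + 2 := rfl
        exact msw_mem.mpr ⟨by omega, h4, h5⟩
      have h3 := ih (Q / 2) (by omega)
      have h4 : ((Q / 2 : ℕ) : ℝ) ≤ (Q : ℝ) / 2 := Nat.cast_div_le
      have h5 : ((Q / 2 : ℕ) : ℝ) ^ 2 ≤ ((Q : ℝ) / 2) ^ 2 :=
        pow_le_pow_left₀ (Nat.cast_nonneg _) h4 2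
      have h6 : 2 * C' * ((Q / 2 : ℕ) : ℝ) ^ 2 ≤ 2 * C' * ((Q : ℝ) / 2) ^ 2 :=
        mul_le_mul_of_nonneg_left h5 (by positivity)
      have h7 : 0 ≤ C' * (Q : ℝ) ^ 2 := by positivity
      nlinarith

theorem mse_pr {S : Sys m} (hm1 : 1 ≤ m) (hm : m ≤ 4) (k : Kers S) {η : ℝ} (hη : 0 < η) {ε : ℝ}
    (hε : 0 < ε) : ∃ Q₀ : ℕ, ∀ Q : ℕ, Q₀ ≤ Q →
      ∑ x ∈ pairs S.N Q, ∫ u in Set.Iio (-ellQ S Q), Real.exp (η * u) * ‖Dx k x u‖ ^ 2 ≤
        ε * Q ^ 2 := by
  obtain ⟨C, hC, hright⟩ := msw_right hm k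
  -- `ellQ → ∞`
  have hlim : Tendsto (fun Q : ℕ => C * (4 / η) * Real.exp (-(η / 2) * ellQ S Q)) atTop (𝓝 0) := by
    have h1 : Tendsto (fun Q : ℕ => ellQ S Q) atTop atTop := by
      unfold ellQ
      have h2 : Tendsto (fun Q : ℕ => (m : ℝ) * Real.log (Q : ℝ)) atTop atTop := by
        refine Tendsto.const_mul_atTop (by exact_mod_cast hm1) ?_
        exact Real.tendsto_log_atTop.comp tendsto_natCast_atTop_atTop
      exact (tendsto_atTop_add_const_left _ _ h2).atTop_div_const (by norm_num)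
    have h2 : Tendsto (fun Q : ℕ => -(η / 2) * ellQ S Q) atTop atBot := by
      simp_rw [neg_mul]
      exact tendsto_neg_atTop_atBot.comp (h1.const_mul_atTop (by positivity))
    have h3 := (Real.tendsto_exp_atBot.comp h2).const_mul (C * (4 / η))
    rw [mul_zero] at h3
    exact h3
  obtain ⟨Q₀, hQ₀⟩ := (hlim.eventually (gt_mem_nhds hε)).exists_forall_of_atTop
  refine ⟨Q₀, fun Q hQ => ?_⟩
  set w₁ : ℝ → ℝ := fun u => if u ≤ -ellQ S Q then Real.exp (η * u) else 0 with hw₁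
  set w₂ : ℝ → ℝ := fun v => Real.exp (-(η / 2) * ellQ S Q) * Real.exp (-(η / 2) * |v|) with hw₂
  rcases (pairs S.N Q).eq_empty_or_nonempty with hemp | ⟨x₀, hx₀⟩
  · rw [hemp, Finset.sum_empty]
    positivity
  have hlQ0 : 0 ≤ ellQ S Q := (msw_ell_nonneg S x₀).trans (msw_ell_le S hx₀)
  have hwm₁ : Measurable w₁ := by
    rw [hw₁]
    exact Measurable.ite measurableSet_Iic (by fun_prop) measurable_const
  have hwm₂ : Measurable w₂ := by
    rw [hw₂]
    fun_prop
  have hb₁ : ∀ u, 0 ≤ w₁ u ∧ w₁ u ≤ 1 := by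
    intro u
    simp only [hw₁]
    split_ifs with hu
    · refine ⟨(Real.exp_pos _).le, Real.exp_le_one_iff.mpr ?_⟩
      exact mul_nonpos_of_nonneg_of_nonpos hη.le (by linarith)
    · exact ⟨le_rfl, zero_le_one⟩
  have hb₂ : ∀ u, 0 ≤ w₂ u ∧ w₂ u ≤ 1 := by
    intro u
    simp only [hw₂]
    refine ⟨by positivity, ?_⟩
    rw [← Real.exp_add]
    refine Real.exp_le_one_iff.mpr ?_
    have : 0 ≤ |u| := abs_nonneg u
    nlinarith [mul_nonneg hη.le hlQ0, mul_nonneg hη.le this]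
  have hx : ∀ x ∈ pairs S.N Q, ∫ u in Set.Iio (-ellQ S Q), Real.exp (η * u) * ‖Dx k x u‖ ^ 2 ≤
      ∫ v in Set.Ici (-ellQ S Q), w₂ v * ‖Dx k x v‖ ^ 2 := by
    intro x hx
    have hl0 := msw_ell_nonneg S x
    have hlQ := msw_ell_le S hx
    have hi₂ := msw_wint k hx hwm₂ (B := 1) fun u => by
      rw [Real.norm_of_nonneg (hb₂ u).1]
      exact (hb₂ u).2
    have h1 : ∫ u in Set.Iio (-ellQ S Q), Real.exp (η * u) * ‖Dx k x u‖ ^ 2 =
        ∫ u in Set.Iic (-ellQ S Q), w₁ u * ‖Dx k x u‖ ^ 2 := by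
      rw [integral_Iic_eq_integral_Iio]
      refine setIntegral_congr_fun measurableSet_Iio fun u hu => ?_
      simp only [hw₁]
      rw [if_pos (le_of_lt hu)]
    rw [h1]
    have h2 := msw_left k hx hwm₁ hwm₂ hb₁ hb₂ (c := -ellQ S Q) (by linarith) (fun u hu => by
      simp only [hw₁, hw₂]
      rw [if_pos hu, ← Real.exp_add]
      apply Real.exp_le_exp.mpr
      have h3 : |-(2 * ell S x) - u| ≤ -u := by
        rw [abs_le]
        constructor
        · linarith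
        · linarith
      have h4 := mul_le_mul_of_nonneg_left h3 hη.le
      have h5 := mul_le_mul_of_nonneg_left hu hη.le
      linarith)
    refine h2.trans ?_
    refine setIntegral_mono_set hi₂.integrableOn (Eventually.of_forall fun v => ?_)
      (LE.le.eventuallyLE (Set.Ici_subset_Ici.mpr (by linarith)))
    have := (hb₂ v).1
    show 0 ≤ w₂ v * ‖Dx k x v‖ ^ 2
    positivity
  obtain ⟨hi, hv⟩ := msw_exp_abs (a := η / 2) (by positivity)
  calc ∑ x ∈ pairs S.N Q, ∫ u in Set.Iio (-ellQ S Q), Real.exp (η * u) * ‖Dx k x u‖ ^ 2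
      ≤ ∑ x ∈ pairs S.N Q, ∫ v in Set.Ici (-ellQ S Q), w₂ v * ‖Dx k x v‖ ^ 2 :=
        Finset.sum_le_sum hx
    _ ≤ C * Q ^ 2 * ∫ v, w₂ v := hright Q w₂ 1 hwm₂ hb₂ (hi.const_mul _)
    _ = C * (4 / η) * Real.exp (-(η / 2) * ellQ S Q) * Q ^ 2 := by
        rw [hw₂]
        simp only
        rw [integral_const_mul, hv]
        field_simp
        ring
    _ ≤ ε * Q ^ 2 := mul_le_mul_of_nonneg_right (hQ₀ Q hQ).le (by positivity)

end Pool.Agent.G5
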