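import Pool.Agent.Lib_helper38.G4.DB
import Pool.Agent.Lib_helper44.G5.Defs
import Pool.Agent.Lib_helper44.G5.DEC

/-!
# The completed L-function
-/

namespace Pool.Agent.G5

open Pool.Agent.G4

open Complex MeasureTheory Filter Topology

variable {m : ℕ}

theorem lam_exp_le (u : ℝ) : Real.exp (-|u|) ≤ 2 * (1 + u ^ 2)⁻¹ := by
  have h1 := Real.quadratic_le_exp_of_nonneg (abs_nonneg u)
  rw [sq_abs] at h1
  have h2 : 0 ≤ |u| := abs_nonneg u
  rw [Real.exp_neg, ← div_eq_mul_inv, inv_eq_one_div, div_le_div_iff₀ (Real.exp_pos _) (by positivity)]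
  nlinarith

theorem lam_exp_int : Integrable fun u : ℝ => Real.exp (-|u|) := by
  refine Integrable.mono' (integrable_inv_one_add_sq.const_mul 2) ?_ ?_
  · exact (by fun_prop : Continuous fun u : ℝ => Real.exp (-|u|)).aestronglyMeasurable
  · refine Eventually.of_forall fun u => ?_
    rw [Real.norm_of_nonneg (Real.exp_pos _).le]
    exact lam_exp_le u

theorem lam_norm_exp_le (z : ℂ) (u : ℝ) : ‖cexp (z * u)‖ ≤ Real.exp (|z.re| * |u|) := by
  rw [Complex.norm_exp]
  apply Real.exp_le_exp.mpr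
  have : (z * (u : ℂ)).re = z.re * u := by simp
  rw [this, ← abs_mul]
  exact le_abs_self _

/-- the transform is entire -/
theorem lam_entire {S : Sys m} (k : Kers S) {x : Ix} (hx : x.q.Coprime S.N)
    (hp : x.2.IsPrimitive) : Differentiable ℂ (Hf k x) := by
  obtain ⟨CS, hCS⟩ := S.rs
  have hc : Continuous (Dx k x) := db_cont_pr k.κ_pos (k.isKer (par x.2)) hCS x
  intro z
  obtain ⟨C, hC⟩ := dens_decay_pr k hx hp (|z.re| + 3)
  have hC0 : 0 ≤ C := by
    have := (norm_nonneg _).trans (hC 0)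
    simpa using this
  have hI : ∀ w : ℂ, |w.re| ≤ |z.re| + 1 → ∀ u : ℝ,
      ‖Dx k x u * cexp (w * u)‖ ≤ C * Real.exp (-2 * |u|) := by
    intro w hw u
    rw [norm_mul]
    refine (mul_le_mul (hC u) (lam_norm_exp_le w u) (norm_nonneg _) (by positivity)).trans ?_
    rw [mul_assoc, ← Real.exp_add]
    refine mul_le_mul_of_nonneg_left (Real.exp_le_exp.mpr ?_) hC0
    nlinarith [mul_le_mul_of_nonneg_right hw (abs_nonneg u)]
  have h := hasDerivAt_integral_of_dominated_loc_of_deriv_le (μ := volume)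
    (F := fun (w : ℂ) (u : ℝ) => Dx k x u * cexp (w * u))
    (F' := fun (w : ℂ) (u : ℝ) => Dx k x u * (cexp (w * u) * u)) (x₀ := z)
    (s := Metric.ball z 1) (bound := fun u => C * Real.exp (-|u|))
    (Metric.ball_mem_nhds z one_pos) ?_ ?_ ?_ ?_ ?_ ?_
  · exact h.2.differentiableAt
  · exact Eventually.of_forall fun w => (hc.mul (by fun_prop)).aestronglyMeasurable
  · refine Integrable.mono' (lam_exp_int.const_mul C) (hc.mul (by fun_prop)).aestronglyMeasurable ?_
    refine Eventually.of_forall fun u => (hI z (by linarith) u).trans ?_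
    refine mul_le_mul_of_nonneg_left (Real.exp_le_exp.mpr ?_) hC0
    linarith [abs_nonneg u]
  · exact (hc.mul (by fun_prop)).aestronglyMeasurable
  · refine Eventually.of_forall fun u w hw => ?_
    have hw' : |w.re| ≤ |z.re| + 1 := by
      have h1 : |w.re - z.re| ≤ ‖w - z‖ := by
        rw [← Complex.sub_re]
        exact Complex.abs_re_le_norm _
      have h2 : ‖w - z‖ < 1 := by simpa [dist_eq_norm] using hw
      have h3 : |w.re| ≤ |w.re - z.re| + |z.re| := by
        have := abs_add_le (w.re - z.re) z.re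
        simpa using this
      linarith
    rw [← mul_assoc, norm_mul]
    have h4 : ‖(u : ℂ)‖ ≤ Real.exp |u| := by
      rw [Complex.norm_real, Real.norm_eq_abs]
      have := Real.add_one_le_exp |u|
      linarith
    refine (mul_le_mul (hI w hw' u) h4 (norm_nonneg _) (by positivity)).trans ?_
    rw [mul_assoc, ← Real.exp_add]
    refine mul_le_mul_of_nonneg_left (Real.exp_le_exp.mpr ?_) hC0
    linarith
  · exact lam_exp_int.const_mul C
  · refine Eventually.of_forall fun u w _ => ?_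
    refine HasDerivAt.const_mul (Dx k x u) ?_
    have := ((hasDerivAt_id w).mul_const (u : ℂ)).cexp
    simpa using this

theorem lam_cond (S : Sys m) (x : Ix) (z : ℂ) :
    ((S.N : ℂ) * ((x.1 + 2 : ℕ) : ℂ) ^ m) ^ (z / 2) = cexp (ell S x * z) := by
  have hN : (S.N : ℂ) ≠ 0 := by exact_mod_cast S.N_pos.ne'
  have hq : ((x.1 + 2 : ℕ) : ℂ) ≠ 0 := by exact_mod_cast (by omega : x.1 + 2 ≠ 0)
  have hp : (S.N : ℂ) * ((x.1 + 2 : ℕ) : ℂ) ^ m ≠ 0 := mul_ne_zero hN (pow_ne_zero _ hq)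
  rw [Complex.cpow_def_of_ne_zero hp]
  congr 1
  have e : (S.N : ℂ) * ((x.1 + 2 : ℕ) : ℂ) ^ m = (((S.N : ℝ) * ((x.1 + 2 : ℕ) : ℝ) ^ m : ℝ) : ℂ) := by
    push_cast
    ring
  have hN' : (0 : ℝ) < S.N := by exact_mod_cast S.N_pos
  have hq' : (0 : ℝ) < ((x.1 + 2 : ℕ) : ℝ) := by positivity
  rw [e, ← Complex.ofReal_log (by positivity), Real.log_mul hN'.ne' (by positivity), Real.log_pow]
  unfold ell
  push_cast
  ring

/-- LAM: the completed `L`-function -/
theorem exists_lam_pr {S : Sys m} (k : Kers S) {x : Ix} (hx : x.q.Coprime S.N)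
    (hp : x.2.IsPrimitive) : ∃ Λ : ℂ → ℂ, IsLam S x.2 Λ ∧
      ∀ z : ℂ, Λ (1 / 2 + z) = cexp (ell S x * (1 / 2 + z)) * Hf k x z := by
  obtain ⟨CS, hCS⟩ := S.rs
  refine ⟨fun s => cexp (ell S x * s) * Hf k x (s - 1 / 2), ⟨?_, ?_⟩, ?_⟩
  · intro s
    have h1 : DifferentiableAt ℂ (fun s : ℂ => Hf k x (s - 1 / 2)) s :=
      DifferentiableAt.comp (g := Hf k x) (f := fun s : ℂ => s - 1 / 2) s
        (lam_entire k hx hp (s - 1 / 2)) (by fun_prop)
    exact DifferentiableAt.mul (by fun_prop) h1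
  · intro s hs
    simp only
    rw [lam_cond S x s]
    have hz : 1 / 2 < (s - 1 / 2).re := by
      rw [Complex.sub_re]
      norm_num
      linarith
    have h1 := (db_mellin_pr k.κ_pos (k.isKer (par x.2)) hCS x hz).2
    unfold Hf Dx
    rw [h1, k.mellin (par x.2) (s - 1 / 2) (by linarith [k.κ_pos])]
    have e : (1 : ℂ) / 2 + (s - 1 / 2) = s := by ring
    rw [e]
    have hL : LSeries (fun n => S.a n * ev x n) s = LSeries (fun n => S.a n * x.2 n) s := rfl
    rw [hL]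
    ring
  · intro z
    simp only
    congr 2
    ring

/-- LAM: uniqueness -/
theorem lam_unique_pr {S : Sys m} {q : ℕ} {χ : DirichletCharacter ℂ q} {Λ Λ' : ℂ → ℂ}
    (h : IsLam S χ Λ) (h' : IsLam S χ Λ') : Λ = Λ' := by
  have a1 : AnalyticOnNhd ℂ Λ Set.univ := fun z _ => h.1.analyticAt z
  have a2 : AnalyticOnNhd ℂ Λ' Set.univ := fun z _ => h'.1.analyticAt z
  refine a1.eq_of_eventuallyEq a2 (z₀ := 2) ?_
  have ho : IsOpen {s : ℂ | 1 < s.re} := isOpen_lt continuous_const Complex.continuous_re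
  have hm : (2 : ℂ) ∈ {s : ℂ | 1 < s.re} := by
    simp
  filter_upwards [ho.mem_nhds hm] with s hs
  rw [h.2 s hs, h'.2 s hs]

/-- LAM: constant phase on the critical line -/
theorem lam_phase_pr {S : Sys m} {q : ℕ} (hq : 1 < q) (hN : q.Coprime S.N)
    {χ : DirichletCharacter ℂ q} (hp : χ.IsPrimitive) {Λ : ℂ → ℂ} (h : IsLam S χ Λ) :
    ∃ W : ℂ, ‖W‖ = 1 ∧ ∀ t : ℝ, Λ (1 / 2 + t * I) = W * starRingEnd ℂ (Λ (1 / 2 + t * I)) := by
  obtain ⟨Λ', W, hd, hW, _, hfe, hser⟩ := S.fe q hq hN χ hp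
  have he : Λ = Λ' := lam_unique_pr h ⟨hd, hser⟩
  refine ⟨W, hW, fun t => ?_⟩
  rw [he]
  have h1 := hfe (1 / 2 + t * I)
  have e : 1 - starRingEnd ℂ ((1 : ℂ) / 2 + t * I) = 1 / 2 + t * I := by
    simp [map_ofNat (starRingEnd ℂ) 2]
    ring
  rw [e] at h1
  exact h1

end Pool.Agent.G5
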