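import Pool.Agent.Lib_helper44.G4.Basic
import Pool.Agent.Lib_helper44.G5.Defs
import Pool.Agent.Lib_helper44.G5.LAM
import Pool.Agent.Lib_helper85.G5.EVP

/-!
# Basic facts
-/

namespace Pool.Agent.G5

open Pool.Agent.G4

open Complex MeasureTheory Filter Topology

variable {m : ℕ}

/-- a local factor in the open half plane `Re s > 1/2` -/
theorem bs5_norm_lt (S : Sys m) {p : ℕ} (hp : p.Prime) (x : Ix) {s : ℂ} (hs : 1 / 2 < s.re)
    (j : Fin m) : ‖S.α p j * (ev x p * (p : ℂ) ^ (-s))‖ < 1 := by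
  have hp0 : (0 : ℝ) < p := by exact_mod_cast hp.pos
  have hp1 : (1 : ℝ) < p := by exact_mod_cast hp.one_lt
  have h1 : ‖(p : ℂ) ^ (-s)‖ < (√(p : ℝ))⁻¹ := by
    rw [Complex.norm_natCast_cpow_of_pos hp.pos, Complex.neg_re, Real.sqrt_eq_rpow,
      ← Real.rpow_neg hp0.le]
    exact Real.rpow_lt_rpow_of_exponent_lt hp1 (by linarith)
  have h2 : 0 < √(p : ℝ) := Real.sqrt_pos.2 hp0
  have h3 := alpha_le_pr S hp j
  rw [norm_mul, norm_mul]
  calc ‖S.α p j‖ * (‖ev x p‖ * ‖(p : ℂ) ^ (-s)‖) ≤ √(p : ℝ) * (1 * ‖(p : ℂ) ^ (-s)‖) := by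
        gcongr
        exact bas_norm_ev_le x p
    _ < √(p : ℝ) * (1 * (√(p : ℝ))⁻¹) := by
        gcongr
    _ = 1 := by rw [one_mul, mul_inv_cancel₀ h2.ne']

theorem bs5_factor_ne (S : Sys m) {p : ℕ} (hp : p.Prime) (x : Ix) {s : ℂ} (hs : 1 / 2 < s.re) :
    (∏ j, (1 - S.α p j * (ev x p * (p : ℂ) ^ (-s)))) ≠ 0 := by
  rw [Finset.prod_ne_zero_iff]
  intro j _ h0
  have h1 := bs5_norm_lt S hp x hs j
  have h2 : S.α p j * (ev x p * (p : ℂ) ^ (-s)) = 1 := (sub_eq_zero.1 h0).symm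
  rw [h2, norm_one] at h1
  exact lt_irrefl _ h1

theorem bs5_LP_ne (S : Sys m) (P : ℕ) (x : Ix) {s : ℂ} (hs : 1 / 2 < s.re) : LP S P x s ≠ 0 := by
  unfold LP
  rw [Finset.prod_ne_zero_iff]
  intro p hp
  exact inv_ne_zero (bs5_factor_ne S (Nat.prime_of_mem_primesBelow hp) x hs)

theorem bs5_LP_cont (S : Sys m) (P : ℕ) (x : Ix) {η : ℝ} (hη : 0 < η) :
    Continuous fun t : ℝ => LP S P x (1 / 2 + η + t * I) := by
  unfold LP
  refine continuous_finsetProd _ fun p hp => ?_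
  have hpp := Nat.prime_of_mem_primesBelow hp
  have hp0 : (p : ℂ) ≠ 0 := by exact_mod_cast hpp.ne_zero
  refine Continuous.inv₀ ?_ fun t => ?_
  · refine continuous_finsetProd _ fun j _ => ?_
    refine continuous_const.sub (continuous_const.mul (continuous_const.mul ?_))
    exact Continuous.const_cpow (by fun_prop) (Or.inl hp0)
  · exact bs5_factor_ne S hpp x (by simp; linarith)

theorem bs5_PB_ne (S : Sys m) {B : Finset ℕ} (hB : ∀ p ∈ B, p.Prime) (x : Ix) {s : ℂ}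
    (hs : 1 / 2 < s.re) : PB S B x s ≠ 0 := by
  unfold PB
  rw [Finset.prod_ne_zero_iff]
  intro p hp
  exact bs5_factor_ne S (hB p hp) x hs

theorem bs5_PB_cont (S : Sys m) {B : Finset ℕ} (hB : ∀ p ∈ B, p.Prime) (x : Ix) (η : ℝ) :
    Continuous fun t : ℝ => PB S B x (1 / 2 + η + t * I) := by
  unfold PB
  refine continuous_finsetProd _ fun p hp => continuous_finsetProd _ fun j _ => ?_
  have hp0 : (p : ℂ) ≠ 0 := by exact_mod_cast (hB p hp).ne_zero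
  refine continuous_const.sub (continuous_const.mul (continuous_const.mul ?_))
  exact Continuous.const_cpow (by fun_prop) (Or.inl hp0)

/-- `P_B` is bounded -/
theorem bs5_PB_le (S : Sys m) {B : Finset ℕ} (hB : ∀ p ∈ B, p.Prime) (x : Ix) {s : ℂ}
    (hs : 1 / 2 < s.re) : ‖PB S B x s‖ ≤ 2 ^ (m * B.card) := by
  unfold PB
  rw [norm_prod]
  have h1 : ∀ p ∈ B, ‖∏ j, (1 - S.α p j * (ev x p * (p : ℂ) ^ (-s)))‖ ≤ 2 ^ m := by
    intro p hp
    rw [norm_prod]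
    have h2 : ∀ j ∈ (Finset.univ : Finset (Fin m)),
        ‖1 - S.α p j * (ev x p * (p : ℂ) ^ (-s))‖ ≤ 2 := by
      intro j _
      have := bs5_norm_lt S (hB p hp) x hs j
      calc _ ≤ ‖(1 : ℂ)‖ + ‖S.α p j * (ev x p * (p : ℂ) ^ (-s))‖ := norm_sub_le _ _
        _ ≤ 2 := by rw [norm_one]; linarith
    calc _ ≤ ∏ _j : Fin m, (2 : ℝ) := Finset.prod_le_prod (fun j _ => norm_nonneg _) h2
      _ = 2 ^ m := by simp
  calc _ ≤ ∏ _p ∈ B, (2 : ℝ) ^ m := Finset.prod_le_prod (fun p _ => norm_nonneg _) h1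
    _ = 2 ^ (m * B.card) := by rw [Finset.prod_const, ← pow_mul]

theorem bs5_Hf_cont {S : Sys m} (k : Kers S) {Q : ℕ} {x : Ix}
    (hx : x ∈ pairs S.N Q) : Continuous (Hf k x) := by
  obtain ⟨_, h1, h2⟩ := bas_mem_pairs.1 hx
  obtain ⟨Λ, hΛ, hL⟩ := exists_lam_pr k h1 h2
  have h3 : Hf k x = fun z => Λ (1 / 2 + z) * cexp (-(ell S x * (1 / 2 + z))) := by
    funext z
    rw [hL z, mul_comm (cexp _) (Hf k x z), mul_assoc, ← Complex.exp_add]
    simp
  rw [h3]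
  have h4 := hΛ.1.continuous
  fun_prop

end Pool.Agent.G5
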