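import Pool.Agent.Lib_helper44.G5.Defs

/-! Block ONEX (after helper76). -/

namespace Pool.Agent.G5

open Pool.Agent.G4

open Complex MeasureTheory Filter Topology

theorem onex_exp_int : Integrable fun u : ℝ => Real.exp (-1 * |u|) := by
  have h1 : IntegrableOn (fun u : ℝ => Real.exp (-1 * |u|)) (Set.Ioi 0) := by
    refine (integrableOn_exp_neg_Ioi 0).congr_fun (fun u hu => ?_) measurableSet_Ioi
    have : (0 : ℝ) < u := hu
    rw [abs_of_pos this]
    ring_nf
  have h2 : IntegrableOn (fun u : ℝ => Real.exp (-1 * |u|)) (Set.Iic 0) := by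
    refine (integrableOn_exp_Iic 0).congr_fun (fun u hu => ?_) measurableSet_Iic
    have : u ≤ (0 : ℝ) := hu
    rw [abs_of_nonpos this]
    ring_nf
  have := h2.union h1
  rwa [Set.Iic_union_Ioi, integrableOn_univ] at this

theorem onex_cs {f : ℝ → ℂ} (hf : Continuous f) {C : ℝ} (hC : ∀ u, ‖f u‖ ≤ C) :
    (∫ u : ℝ, ‖f u‖ / (1 + u ^ 2)) ^ 2 ≤ Real.pi * ∫ u : ℝ, ‖f u‖ ^ 2 / (1 + u ^ 2) := by
  have hi1 : Integrable fun u : ℝ => (1 + u ^ 2)⁻¹ := integrable_inv_one_add_sq
  have hc1 : Continuous fun u : ℝ => (1 + u ^ 2)⁻¹ :=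
    Continuous.inv₀ (by fun_prop) (fun u => by positivity)
  have hC0 : 0 ≤ C := (norm_nonneg _).trans (hC 0)
  have hi2 : Integrable fun u : ℝ => ‖f u‖ ^ 2 / (1 + u ^ 2) := by
    refine Integrable.mono' (hi1.const_mul (C ^ 2)) ?_ (Eventually.of_forall fun u => ?_)
    · exact ((hf.norm.pow 2).mul hc1).aestronglyMeasurable
    · rw [Real.norm_of_nonneg (by positivity), div_eq_mul_inv]
      exact mul_le_mul_of_nonneg_right (pow_le_pow_left₀ (norm_nonneg _) (hC u) 2) (by positivity)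
  have hi3 : Integrable fun u : ℝ => ‖f u‖ / (1 + u ^ 2) := by
    refine Integrable.mono' (hi1.const_mul C) ?_ (Eventually.of_forall fun u => ?_)
    · exact (hf.norm.mul hc1).aestronglyMeasurable
    · rw [Real.norm_of_nonneg (by positivity), div_eq_mul_inv]
      exact mul_le_mul_of_nonneg_right (hC u) (by positivity)
  set A := ∫ u : ℝ, ‖f u‖ ^ 2 / (1 + u ^ 2) with hA
  set B := ∫ u : ℝ, ‖f u‖ / (1 + u ^ 2) with hB
  have hq : ∀ s : ℝ, 0 ≤ A - 2 * s * B + s ^ 2 * Real.pi := by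
    intro s
    have h1 : A - 2 * s * B + s ^ 2 * Real.pi = ∫ u : ℝ, (‖f u‖ - s) ^ 2 / (1 + u ^ 2) := by
      have h0 : Integrable (fun u : ℝ => ‖f u‖ ^ 2 / (1 + u ^ 2) - 2 * s * (‖f u‖ / (1 + u ^ 2))) :=
        hi2.sub (hi3.const_mul _)
      rw [hA, hB, ← integral_univ_inv_one_add_sq, ← integral_const_mul, ← integral_const_mul,
        ← integral_sub hi2 (hi3.const_mul _), ← integral_add h0 (hi1.const_mul _)]
      congr 1
      ext u
      have : (1 + u ^ 2 : ℝ) ≠ 0 := by positivity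
      field_simp
      ring
    rw [h1]
    exact integral_nonneg fun u => by positivity
  have hpi := Real.pi_pos
  have h2 := hq (B / Real.pi)
  have h3 : A - 2 * (B / Real.pi) * B + (B / Real.pi) ^ 2 * Real.pi = A - B ^ 2 / Real.pi := by
    field_simp
    ring
  rw [h3] at h2
  have h4 : B ^ 2 / Real.pi ≤ A := by linarith
  rw [div_le_iff₀ hpi] at h4
  linarith

/-- ONEX -/
theorem one_gen_pr {E : ℝ → ℂ} (hE : Continuous E)
    (hd : ∀ A : ℝ, ∃ C : ℝ, ∀ u : ℝ, ‖E u‖ ≤ C * Real.exp (-A * |u|)) (l : ℝ) {w : ℝ → ℝ}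
    (hw : Continuous w) (hc : HasCompactSupport w) {C₁ : ℝ}
    (hC : ∀ u, ‖hatw w u‖ ≤ C₁ / (1 + u ^ 2)) :
    ‖∫ t : ℝ, (w t : ℂ) * (cexp (l * t * I) * ∫ u : ℝ, E u * cexp ((t * I) * u))‖ ^ 2 ≤
      C₁ ^ 2 * Real.pi * ∫ u : ℝ, ‖E (u - l)‖ ^ 2 / (1 + u ^ 2) := by
  have hpi := Real.pi_pos
  have hC1 : 0 ≤ C₁ := by
    have := (norm_nonneg _).trans (hC 0)
    simpa using this
  have hD : Integrable fun u : ℝ => E (u - l) := by
    obtain ⟨C, hC⟩ := hd 1
    have h : Integrable E := by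
      refine Integrable.mono' (onex_exp_int.const_mul C) hE.aestronglyMeasurable ?_
      exact Eventually.of_forall hC
    exact h.comp_sub_right l
  have hhf : ∀ t : ℝ, cexp (l * t * I) * ∫ u : ℝ, E u * cexp ((t * I) * u) =
      ∫ u : ℝ, E (u - l) * cexp (t * u * I) := by
    intro t
    rw [← integral_const_mul, ← integral_sub_right_eq_self _ l]
    congr 1
    ext u
    rw [mul_left_comm, ← Complex.exp_add]
    congr 2
    push_cast
    ring
  have hfub : ∫ t : ℝ, (w t : ℂ) * (cexp (l * t * I) * ∫ u : ℝ, E u * cexp ((t * I) * u)) =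
      ∫ u : ℝ, E (u - l) * hatw w u := by
    have hwi : Integrable fun t : ℝ => (w t : ℂ) := (hw.integrable_of_hasCompactSupport hc).ofReal
    have h1 : ∀ t : ℝ, (w t : ℂ) * (cexp (l * t * I) * ∫ u : ℝ, E u * cexp ((t * I) * u)) =
        ∫ u : ℝ, (w t : ℂ) * (E (u - l) * cexp (t * u * I)) := by
      intro t
      rw [hhf, integral_const_mul]
    simp_rw [h1]
    rw [integral_integral_swap]
    · congr 1
      ext u
      unfold hatw
      rw [← integral_const_mul]
      congr 1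
      ext t
      ring
    · have h2 : Integrable (fun p : ℝ × ℝ => (w p.1 : ℂ) * E (p.2 - l))
          (volume.prod volume) := hwi.mul_prod hD
      have h3 : Function.uncurry (fun t u : ℝ => (w t : ℂ) * (E (u - l) *
          cexp (t * u * I))) = fun p : ℝ × ℝ => ((w p.1 : ℂ) * E (p.2 - l)) *
            cexp (p.1 * p.2 * I) := by
        ext p
        simp only [Function.uncurry]
        ring
      rw [h3]
      refine h2.mul_bdd (c := 1) ?_ ?_
      · exact (by fun_prop : Continuous fun p : ℝ × ℝ => cexp (p.1 * p.2 * I)).aestronglyMeasurable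
      · refine Eventually.of_forall fun p => ?_
        rw [show (p.1 : ℂ) * p.2 * I = ((p.1 * p.2 : ℝ) : ℂ) * I by push_cast; ring,
          Complex.norm_exp_ofReal_mul_I]
  rw [hfub]
  obtain ⟨C', hC'⟩ := hd 0
  have hb : ∀ u : ℝ, ‖E (u - l)‖ ≤ C' := by
    intro u
    have := hC' (u - l)
    simpa using this
  have hcont : Continuous fun u : ℝ => E (u - l) :=
    hE.comp (continuous_id.sub continuous_const)
  have hC0 : 0 ≤ C' := (norm_nonneg _).trans (hb 0)
  have hi1 : Integrable fun u : ℝ => (1 + u ^ 2)⁻¹ := integrable_inv_one_add_sq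
  have hc1 : Continuous fun u : ℝ => (1 + u ^ 2)⁻¹ :=
    Continuous.inv₀ (by fun_prop) (fun u => by positivity)
  have hi3 : Integrable fun u : ℝ => C₁ * (‖E (u - l)‖ / (1 + u ^ 2)) := by
    refine Integrable.const_mul ?_ _
    refine Integrable.mono' (hi1.const_mul C') ?_ (Eventually.of_forall fun u => ?_)
    · exact (hcont.norm.mul hc1).aestronglyMeasurable
    · rw [Real.norm_of_nonneg (by positivity), div_eq_mul_inv]
      exact mul_le_mul_of_nonneg_right (hb u) (by positivity)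
  have h2 : ‖∫ u : ℝ, E (u - l) * hatw w u‖ ≤
      ∫ u : ℝ, C₁ * (‖E (u - l)‖ / (1 + u ^ 2)) := by
    refine norm_integral_le_of_norm_le hi3 (Eventually.of_forall fun u => ?_)
    rw [norm_mul]
    calc ‖E (u - l)‖ * ‖hatw w u‖
        ≤ ‖E (u - l)‖ * (C₁ / (1 + u ^ 2)) :=
          mul_le_mul_of_nonneg_left (hC u) (norm_nonneg _)
      _ = _ := by ring
  rw [integral_const_mul] at h2
  have h3 := pow_le_pow_left₀ (norm_nonneg _) h2 2
  have h4 := onex_cs hcont hb
  rw [mul_pow] at h3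
  have h5 := mul_le_mul_of_nonneg_left h4 (sq_nonneg C₁)
  linarith

end Pool.Agent.G5
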