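import Pool.Agent.Lib_helper44.G5.Defs

/-!
# Block NUMH
-/

namespace Pool.Agent.G5

open Complex MeasureTheory Filter Topology

theorem numh_pow {j l : ℕ} (hj : 1 ≤ j) (hl : 1 ≤ l) (hjl : j ≤ l) :
    1 / ((l : ℝ) * j) ≤ (l : ℝ) ^ (-(3 / 4 : ℝ)) * (j : ℝ) ^ (-(5 / 4 : ℝ)) := by
  have hj0 : (0 : ℝ) < j := by exact_mod_cast hj
  have hl0 : (0 : ℝ) < l := by exact_mod_cast hl
  have h1 : (l : ℝ)⁻¹ = (l : ℝ) ^ (-(3 / 4 : ℝ)) * (l : ℝ) ^ (-(1 / 4 : ℝ)) := by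
    rw [← Real.rpow_add hl0, ← Real.rpow_neg_one]
    norm_num
  have h2 : (j : ℝ) ^ (-(5 / 4 : ℝ)) = (j : ℝ) ^ (-(1 / 4 : ℝ)) * (j : ℝ)⁻¹ := by
    rw [← Real.rpow_neg_one, ← Real.rpow_add hj0]
    norm_num
  have h3 : (l : ℝ) ^ (-(1 / 4 : ℝ)) ≤ (j : ℝ) ^ (-(1 / 4 : ℝ)) := by
    apply Real.rpow_le_rpow_of_nonpos hj0 (by exact_mod_cast hjl) (by norm_num)
  rw [one_div, mul_inv, h1, h2, ← mul_assoc]
  gcongr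

theorem numh_pow2 {k l : ℕ} (hk : 1 ≤ k) (hl : 1 ≤ l) :
    1 / ((k : ℝ) * (k + l)) ≤ (l : ℝ) ^ (-(3 / 4 : ℝ)) * (k : ℝ) ^ (-(5 / 4 : ℝ)) := by
  have hk0 : (0 : ℝ) < k := by exact_mod_cast hk
  have hl0 : (0 : ℝ) < l := by exact_mod_cast hl
  have hs0 : (0 : ℝ) < k + l := by positivity
  have h1 : ((k : ℝ) + l)⁻¹ = ((k : ℝ) + l) ^ (-(3 / 4 : ℝ)) * ((k : ℝ) + l) ^ (-(1 / 4 : ℝ)) := by
    rw [← Real.rpow_add hs0, ← Real.rpow_neg_one]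
    norm_num
  have h2 : (k : ℝ) ^ (-(5 / 4 : ℝ)) = (k : ℝ)⁻¹ * (k : ℝ) ^ (-(1 / 4 : ℝ)) := by
    rw [← Real.rpow_neg_one, ← Real.rpow_add hk0]
    norm_num
  have h3 : ((k : ℝ) + l) ^ (-(1 / 4 : ℝ)) ≤ (k : ℝ) ^ (-(1 / 4 : ℝ)) := by
    apply Real.rpow_le_rpow_of_nonpos hk0 (by linarith) (by norm_num)
  have h4 : ((k : ℝ) + l) ^ (-(3 / 4 : ℝ)) ≤ (l : ℝ) ^ (-(3 / 4 : ℝ)) := by
    apply Real.rpow_le_rpow_of_nonpos hl0 (by linarith) (by norm_num)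
  rw [one_div, mul_inv, h1, h2]
  calc (k : ℝ)⁻¹ * (((k : ℝ) + l) ^ (-(3 / 4 : ℝ)) * ((k : ℝ) + l) ^ (-(1 / 4 : ℝ)))
      ≤ (k : ℝ)⁻¹ * ((l : ℝ) ^ (-(3 / 4 : ℝ)) * (k : ℝ) ^ (-(1 / 4 : ℝ))) := by
        gcongr
    _ = _ := by ring

theorem numh_sq (l : ℕ) (hl : 1 ≤ l) : ((l : ℝ) ^ (-(3 / 4 : ℝ))) ^ 2 = (l : ℝ) ^ (-(3 / 2 : ℝ)) := by
  rw [← Real.rpow_natCast, ← Real.rpow_mul (by positivity)]
  norm_num

theorem conv_numeric_pr : ∃ C : ℝ, 0 ≤ C ∧ ∀ K : ℕ,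
    (∑ l ∈ Finset.Icc 2 (2 * K), (∑ q ∈ (Finset.Icc 1 K ×ˢ Finset.Icc 1 K).filter
      (fun q => q.1 + q.2 = l), 1 / ((q.1 : ℝ) * q.2)) ^ 2 ≤ C) ∧
    ∑ l ∈ Finset.Icc 1 K, (∑ k ∈ Finset.Icc 1 K, 1 / ((k : ℝ) * (k + l))) ^ 2 ≤ C := by
  have hs1 : Summable fun n : ℕ => (n : ℝ) ^ (-(5 / 4 : ℝ)) :=
    Real.summable_nat_rpow.2 (by norm_num)
  have hs2 : Summable fun n : ℕ => (n : ℝ) ^ (-(3 / 2 : ℝ)) :=
    Real.summable_nat_rpow.2 (by norm_num)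
  set Z : ℝ := ∑' n : ℕ, (n : ℝ) ^ (-(5 / 4 : ℝ)) with hZ
  set Z' : ℝ := ∑' n : ℕ, (n : ℝ) ^ (-(3 / 2 : ℝ)) with hZ'
  have hZ0 : 0 ≤ Z := tsum_nonneg fun n => by positivity
  have hZ'0 : 0 ≤ Z' := tsum_nonneg fun n => by positivity
  have b1 : ∀ s : Finset ℕ, ∑ n ∈ s, (n : ℝ) ^ (-(5 / 4 : ℝ)) ≤ Z := fun s =>
    hs1.sum_le_tsum s fun n _ => by positivity
  have b2 : ∀ s : Finset ℕ, ∑ n ∈ s, (n : ℝ) ^ (-(3 / 2 : ℝ)) ≤ Z' := fun s =>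
    hs2.sum_le_tsum s fun n _ => by positivity
  refine ⟨4 * Z ^ 2 * Z', by positivity, fun K => ⟨?_, ?_⟩⟩
  · have key : ∀ l ∈ Finset.Icc 2 (2 * K), (∑ q ∈ (Finset.Icc 1 K ×ˢ Finset.Icc 1 K).filter
        (fun q => q.1 + q.2 = l), 1 / ((q.1 : ℝ) * q.2)) ^ 2 ≤
          4 * Z ^ 2 * (l : ℝ) ^ (-(3 / 2 : ℝ)) := by
      intro l hl
      have hl1 : 1 ≤ l := by have := (Finset.mem_Icc.1 hl).1; omega
      set F := (Finset.Icc 1 K ×ˢ Finset.Icc 1 K).filter (fun q : ℕ × ℕ => q.1 + q.2 = l) with hF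
      have hmem : ∀ q ∈ F, 1 ≤ q.1 ∧ 1 ≤ q.2 ∧ q.1 + q.2 = l := by
        intro q hq
        rw [hF, Finset.mem_filter, Finset.mem_product, Finset.mem_Icc, Finset.mem_Icc] at hq
        exact ⟨hq.1.1.1, hq.1.2.1, hq.2⟩
      have hle : ∑ q ∈ F, 1 / ((q.1 : ℝ) * q.2) ≤ 2 * Z * (l : ℝ) ^ (-(3 / 4 : ℝ)) := by
        have h1 : ∀ q ∈ F, 1 / ((q.1 : ℝ) * q.2) ≤ (l : ℝ) ^ (-(3 / 4 : ℝ)) *
            (q.1 : ℝ) ^ (-(5 / 4 : ℝ)) + (l : ℝ) ^ (-(3 / 4 : ℝ)) * (q.2 : ℝ) ^ (-(5 / 4 : ℝ)) := by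
          intro q hq
          obtain ⟨h1, h2, h3⟩ := hmem q hq
          have e1 := numh_pow h1 hl1 (by omega)
          have e2 := numh_pow h2 hl1 (by omega)
          have hq1 : (0 : ℝ) < q.1 := by exact_mod_cast h1
          have hq2 : (0 : ℝ) < q.2 := by exact_mod_cast h2
          have hl0 : (0 : ℝ) < l := by exact_mod_cast hl1
          have e3 : 1 / ((q.1 : ℝ) * q.2) = 1 / ((l : ℝ) * q.1) + 1 / ((l : ℝ) * q.2) := by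
            have : (l : ℝ) = q.1 + q.2 := by exact_mod_cast h3.symm
            rw [this] at hl0 ⊢
            field_simp
            ring
          linarith
        have i1 : ∑ q ∈ F, (q.1 : ℝ) ^ (-(5 / 4 : ℝ)) ≤ Z := by
          have hinj : Set.InjOn (fun q : ℕ × ℕ => q.1) F := by
            intro q hq q' hq' h
            have h3 := (hmem q hq).2.2
            have h4 := (hmem q' hq').2.2
            have h : q.1 = q'.1 := h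
            exact Prod.ext h (by omega)
          have := b1 (F.image fun q => q.1)
          rwa [Finset.sum_image hinj] at this
        have i2 : ∑ q ∈ F, (q.2 : ℝ) ^ (-(5 / 4 : ℝ)) ≤ Z := by
          have hinj : Set.InjOn (fun q : ℕ × ℕ => q.2) F := by
            intro q hq q' hq' h
            have h3 := (hmem q hq).2.2
            have h4 := (hmem q' hq').2.2
            have h : q.2 = q'.2 := h
            exact Prod.ext (by omega) h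
          have := b1 (F.image fun q => q.2)
          rwa [Finset.sum_image hinj] at this
        have hlp : 0 ≤ (l : ℝ) ^ (-(3 / 4 : ℝ)) := by positivity
        calc ∑ q ∈ F, 1 / ((q.1 : ℝ) * q.2) ≤ ∑ q ∈ F, ((l : ℝ) ^ (-(3 / 4 : ℝ)) *
            (q.1 : ℝ) ^ (-(5 / 4 : ℝ)) + (l : ℝ) ^ (-(3 / 4 : ℝ)) * (q.2 : ℝ) ^ (-(5 / 4 : ℝ))) :=
              Finset.sum_le_sum h1
          _ = (l : ℝ) ^ (-(3 / 4 : ℝ)) * ∑ q ∈ F, (q.1 : ℝ) ^ (-(5 / 4 : ℝ)) +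
              (l : ℝ) ^ (-(3 / 4 : ℝ)) * ∑ q ∈ F, (q.2 : ℝ) ^ (-(5 / 4 : ℝ)) := by
              rw [Finset.sum_add_distrib, Finset.mul_sum, Finset.mul_sum]
          _ ≤ (l : ℝ) ^ (-(3 / 4 : ℝ)) * Z + (l : ℝ) ^ (-(3 / 4 : ℝ)) * Z := by gcongr
          _ = _ := by ring
      have hnn : 0 ≤ ∑ q ∈ F, 1 / ((q.1 : ℝ) * q.2) := Finset.sum_nonneg fun q _ => by positivity
      calc _ ≤ (2 * Z * (l : ℝ) ^ (-(3 / 4 : ℝ))) ^ 2 := by gcongr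
        _ = 4 * Z ^ 2 * ((l : ℝ) ^ (-(3 / 4 : ℝ))) ^ 2 := by ring
        _ = _ := by rw [numh_sq l hl1]
    calc _ ≤ ∑ l ∈ Finset.Icc 2 (2 * K), 4 * Z ^ 2 * (l : ℝ) ^ (-(3 / 2 : ℝ)) :=
          Finset.sum_le_sum key
      _ = 4 * Z ^ 2 * ∑ l ∈ Finset.Icc 2 (2 * K), (l : ℝ) ^ (-(3 / 2 : ℝ)) := by
          rw [Finset.mul_sum]
      _ ≤ _ := by gcongr; exact b2 _
  · have key : ∀ l ∈ Finset.Icc 1 K, (∑ k ∈ Finset.Icc 1 K, 1 / ((k : ℝ) * (k + l))) ^ 2 ≤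
          4 * Z ^ 2 * (l : ℝ) ^ (-(3 / 2 : ℝ)) := by
      intro l hl
      have hl1 : 1 ≤ l := (Finset.mem_Icc.1 hl).1
      have hle : ∑ k ∈ Finset.Icc 1 K, 1 / ((k : ℝ) * (k + l)) ≤ Z * (l : ℝ) ^ (-(3 / 4 : ℝ)) := by
        calc _ ≤ ∑ k ∈ Finset.Icc 1 K, (l : ℝ) ^ (-(3 / 4 : ℝ)) * (k : ℝ) ^ (-(5 / 4 : ℝ)) :=
              Finset.sum_le_sum fun k hk => numh_pow2 (Finset.mem_Icc.1 hk).1 hl1
          _ = (l : ℝ) ^ (-(3 / 4 : ℝ)) * ∑ k ∈ Finset.Icc 1 K, (k : ℝ) ^ (-(5 / 4 : ℝ)) := by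
              rw [Finset.mul_sum]
          _ ≤ (l : ℝ) ^ (-(3 / 4 : ℝ)) * Z := by gcongr; exact b1 _
          _ = _ := by ring
      have hnn : 0 ≤ ∑ k ∈ Finset.Icc 1 K, 1 / ((k : ℝ) * (k + l)) :=
        Finset.sum_nonneg fun k _ => by positivity
      have hlp : 0 ≤ (l : ℝ) ^ (-(3 / 2 : ℝ)) := by positivity
      calc _ ≤ (Z * (l : ℝ) ^ (-(3 / 4 : ℝ))) ^ 2 := by gcongr
        _ = Z ^ 2 * ((l : ℝ) ^ (-(3 / 4 : ℝ))) ^ 2 := by ring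
        _ = Z ^ 2 * (l : ℝ) ^ (-(3 / 2 : ℝ)) := by rw [numh_sq l hl1]
        _ ≤ _ := by nlinarith [mul_nonneg (sq_nonneg Z) hlp]
    calc _ ≤ ∑ l ∈ Finset.Icc 1 K, 4 * Z ^ 2 * (l : ℝ) ^ (-(3 / 2 : ℝ)) :=
          Finset.sum_le_sum key
      _ = 4 * Z ^ 2 * ∑ l ∈ Finset.Icc 1 K, (l : ℝ) ^ (-(3 / 2 : ℝ)) := by
          rw [Finset.mul_sum]
      _ ≤ _ := by gcongr; exact b2 _

end Pool.Agent.G5
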