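import Pool.Agent.Lib_helper22.G4.DEN
import Pool.Agent.Lib_helper24.G5.FAME
import Pool.Agent.Lib_helper24.G5.MSSC
import Pool.Agent.Lib_helper29.G5.LOWC
import Pool.Agent.Lib_helper38.G4.HATC
import Pool.Agent.Lib_helper44.G5.Basic
import Pool.Agent.Lib_helper44.G5.Defs
import Pool.Agent.Lib_helper44.G5.MSW
import Pool.Agent.Lib_helper44.G5.ONEX
import Pool.Agent.Lib_helper85.G5.CCO
import Pool.Agent.Lib_helper96.G5.LOWD
import Pool.Agent.Lib_helper96.G5.TWOX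

/-!
# Block WIN: almost no character has a window of constant phase
-/

namespace Pool.Agent.G5

open Pool.Agent.G4

open Complex MeasureTheory Filter Topology

variable {m : ℕ}

theorem win_facs_empty (S : Sys m) : facs S ∅ = [] := by
  unfold facs
  simp

theorem win_EQ_empty {S : Sys m} (k : Kers S) : EQ k ∅ = Dx k := by
  unfold EQ opUs opTs
  rw [win_facs_empty]
  rfl

theorem win_PB_empty (S : Sys m) (x : Ix) (s : ℂ) : PB S ∅ x s = 1 := by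
  unfold PB
  simp

/-- the upper bound against the lower bound -/
theorem win_core {S : Sys m} (hm : m ≤ 4) (k : Kers S) {B : Finset ℕ}
    (hB : ∀ p ∈ B, p.Prime) {α β : ℝ} {φ : ℝ → ℝ} (hφ : ContDiff ℝ 2 φ) (hc : HasCompactSupport φ)
    (h0 : ∀ t, 0 ≤ φ t) (hsupp : ∀ t, t ∉ Set.Ioo α β → φ t = 0) {C₁ : ℝ}
    (hC₁ : ∀ u, ‖hatw φ u‖ ≤ C₁ / (1 + u ^ 2)) {A ε : ℝ} (hA : 0 < A) (hε : 0 < ε) {Q : ℕ}
    (hup : ∑ x ∈ pairs S.N Q, ∫ u : ℝ, ‖EQ k B x (u - ell S x)‖ ^ 2 / (1 + u ^ 2) ≤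
      ε * A ^ 2 / (C₁ ^ 2 * Real.pi + 1) * Q ^ 2)
    (hlow : ∃ G : Finset Ix, G ⊆ pairs S.N Q ∧ (G.card : ℝ) ≤ ε * Q ^ 2 ∧
      ∀ x ∈ pairs S.N Q, x ∉ G → A ≤ ∫ t : ℝ, φ t * ‖HE (EP k B) x (t * I)‖) :
    ∃ G : Finset Ix, G ⊆ pairs S.N Q ∧ (G.card : ℝ) ≤ 2 * ε * Q ^ 2 ∧
      ∀ x ∈ pairs S.N Q, x ∉ G → ¬ NoZ k α β x := by
  classical
  have hpi := Real.pi_pos
  obtain ⟨G, hGs, hGc, hG⟩ := hlow
  set f : Ix → ℝ := fun x =>
    ‖∫ t : ℝ, (φ t : ℂ) * (cexp (ell S x * t * I) * ∫ u : ℝ, EQ k B x u * cexp ((t * I) * u))‖ ^ 2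
    with hf
  have hfam := fam_EQ_pr hm k hB
  have hone : ∑ x ∈ pairs S.N Q, f x ≤ ε * A ^ 2 * Q ^ 2 := by
    have h1 : ∀ x ∈ pairs S.N Q, f x ≤
        C₁ ^ 2 * Real.pi * ∫ u : ℝ, ‖EQ k B x (u - ell S x)‖ ^ 2 / (1 + u ^ 2) := by
      intro x hx
      obtain ⟨_, hx1, hx2⟩ := bas_mem_pairs.1 hx
      exact one_gen_pr (hfam.cont x) (fun a => hfam.dec x hx1 hx2 a) (ell S x) hφ.continuous hc hC₁
    refine (Finset.sum_le_sum h1).trans ?_
    rw [← Finset.mul_sum]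
    have h2 : 0 ≤ C₁ ^ 2 * Real.pi := by positivity
    refine (mul_le_mul_of_nonneg_left hup h2).trans ?_
    have h3 : C₁ ^ 2 * Real.pi * (ε * A ^ 2 / (C₁ ^ 2 * Real.pi + 1) * (Q : ℝ) ^ 2) =
        (C₁ ^ 2 * Real.pi / (C₁ ^ 2 * Real.pi + 1)) * (ε * A ^ 2 * Q ^ 2) := by
      field_simp
    rw [h3]
    have h4 : C₁ ^ 2 * Real.pi / (C₁ ^ 2 * Real.pi + 1) ≤ 1 := by
      rw [div_le_one (by positivity)]
      linarith
    calc _ ≤ 1 * (ε * A ^ 2 * (Q : ℝ) ^ 2) := mul_le_mul_of_nonneg_right h4 (by positivity)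
      _ = _ := one_mul _
  set G₂ := (pairs S.N Q).filter (fun x => A ^ 2 ≤ f x) with hG₂
  have hc2 : (G₂.card : ℝ) ≤ ε * Q ^ 2 :=
    bas_markov f (fun x _ => sq_nonneg _) (by positivity) hone le_rfl
  refine ⟨G ∪ G₂, Finset.union_subset hGs (Finset.filter_subset _ _), ?_, fun x hx hxG hno => ?_⟩
  · have h2 : ((G ∪ G₂).card : ℝ) ≤ G.card + G₂.card := by
      exact_mod_cast Finset.card_union_le G G₂
    linarith
  · have hx1 : x ∉ G := fun h => hxG (by simp [h])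
    have hx2 : f x < A ^ 2 := by
      by_contra hcon
      exact hxG (by
        have h2 : x ∈ G₂ := Finset.mem_filter.2 ⟨hx, not_lt.1 hcon⟩
        simp [h2])
    have hlow := hG x hx hx1
    obtain ⟨_, hxN, hxp⟩ := bas_mem_pairs.1 hx
    obtain ⟨θ, hθ, hph⟩ := hno
    have hn : ∀ t : ℝ, ‖HE (EP k B) x (t * I)‖ =
        ‖PB S B x (1 / 2 + t * I)‖ ^ 2 * ‖Hf k x (t * I)‖ := by
      intro t
      rw [HE_EP_pr hm k hB hxN hxp, norm_mul, norm_pow]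
    have heq : ∀ t : ℝ, (φ t : ℂ) * (cexp (ell S x * t * I) *
        ∫ u : ℝ, EQ k B x u * cexp ((t * I) * u)) =
        θ * ((φ t * ‖HE (EP k B) x (t * I)‖ : ℝ) : ℂ) := by
      intro t
      have hE := HE_EQ_pr hm k hB hxN hxp t
      unfold HE at hE
      rw [hE, hn]
      by_cases ht : t ∈ Set.Ioo α β
      · have h3 := hph t ht
        push_cast
        linear_combination ((φ t : ℂ) * (‖PB S B x (1 / 2 + t * I)‖ : ℂ) ^ 2) * h3
      · rw [hsupp t ht]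
        simp
    have hint : ∫ t : ℝ, (φ t : ℂ) * (cexp (ell S x * t * I) *
        ∫ u : ℝ, EQ k B x u * cexp ((t * I) * u)) =
        θ * ((∫ t : ℝ, φ t * ‖HE (EP k B) x (t * I)‖ : ℝ) : ℂ) := by
      rw [integral_congr_ae (Eventually.of_forall heq), integral_const_mul]
      congr 1
      exact integral_ofReal
    have hfx : f x = (∫ t : ℝ, φ t * ‖HE (EP k B) x (t * I)‖) ^ 2 := by
      simp only [hf]
      rw [hint, norm_mul, hθ, one_mul, Complex.norm_real, Real.norm_eq_abs, sq_abs]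
    rw [hfx] at hx2
    exact absurd hx2 (not_lt.2 (pow_le_pow_left₀ hA.le hlow 2))

/-- a window without exceptional ordinates -/
theorem win_sub {α β : ℝ} (hαβ : α < β) (Z : Finset ℝ) :
    ∃ α' β' : ℝ, α < α' ∧ α' < β' ∧ β' < β ∧ ∀ t ∈ Set.Icc α' β', t ∉ Z := by
  have h1 : (Set.Ioo α β \ (Z : Set ℝ)).Nonempty := by
    have h2 : (Set.Ioo α β).Infinite := Set.Ioo_infinite hαβ
    exact (h2.sdiff Z.finite_toSet).nonempty
  obtain ⟨t₀, ht₀, ht₁⟩ := h1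
  have h3 : IsOpen (Set.Ioo α β \ (Z : Set ℝ)) := isOpen_Ioo.sdiff Z.finite_toSet.isClosed
  obtain ⟨r, hr, hball⟩ := Metric.isOpen_iff.1 h3 t₀ ⟨ht₀, ht₁⟩
  have hmem : ∀ t ∈ Set.Icc (t₀ - r / 2) (t₀ + r / 2), t ∈ Set.Ioo α β \ (Z : Set ℝ) := by
    intro t ht
    apply hball
    rw [Metric.mem_ball, Real.dist_eq, abs_lt]
    constructor
    · linarith [ht.1]
    · linarith [ht.2]
  have e1 := hmem (t₀ - r / 2) ⟨le_rfl, by linarith⟩
  have e2 := hmem (t₀ + r / 2) ⟨by linarith, le_rfl⟩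
  exact ⟨t₀ - r / 2, t₀ + r / 2, e1.1.1, by linarith, e2.1.2, fun t ht => (hmem t ht).2⟩

theorem win_mono {S : Sys m} {k : Kers S} {α β α' β' : ℝ} (h1 : α ≤ α') (h2 : β' ≤ β) {x : Ix}
    (h : NoZ k α β x) : NoZ k α' β' x := by
  obtain ⟨θ, hθ, hph⟩ := h
  exact ⟨θ, hθ, fun t ht => hph t ⟨h1.trans_lt ht.1, ht.2.trans_le h2⟩⟩

/-- WIN -/
theorem window_pr {S : Sys m} (hm1 : 1 ≤ m) (hm : m ≤ 4) (k : Kers S) {α β : ℝ} (hαβ : α < β)
    {ε : ℝ} (hε : 0 < ε) : ∃ Q₀ : ℕ, ∀ Q : ℕ, Q₀ ≤ Q → ∃ G : Finset Ix, G ⊆ pairs S.N Q ∧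
      (G.card : ℝ) ≤ ε * Q ^ 2 ∧ ∀ x ∈ pairs S.N Q, x ∉ G → ¬ NoZ k α β x := by
  classical
  have hpi := Real.pi_pos
  obtain ⟨α', β', ha, hab, hb, hZ⟩ := win_sub hαβ S.Z
  -- the weight
  set φb : ContDiffBump ((α' + β') / 2) := ⟨(β' - α') / 4, (β' - α') / 3, by linarith, by linarith⟩
    with hφb
  set φ : ℝ → ℝ := fun t => φb t with hφdef
  have hφ : ContDiff ℝ 2 φ := φb.contDiff
  have hc : HasCompactSupport φ := φb.hasCompactSupport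
  have h0 : ∀ t, 0 ≤ φ t := fun t => φb.nonneg
  have h1 : ∀ t ∈ Set.Icc ((α' + β') / 2 - (β' - α') / 4) ((α' + β') / 2 + (β' - α') / 4),
      φ t = 1 := by
    intro t ht
    refine φb.one_of_mem_closedBall ?_
    rw [Real.closedBall_eq_Icc]
    exact ht
  have hsupp : ∀ t, t ∉ Set.Ioo α β → φ t = 0 := by
    intro t ht
    refine φb.zero_of_le_dist ?_
    rw [Real.dist_eq]
    show (β' - α') / 3 ≤ |t - (α' + β') / 2|
    rw [Set.mem_Ioo, not_and_or, not_lt, not_lt] at ht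
    rcases ht with ht | ht
    · rw [abs_of_nonpos (by linarith)]
      linarith
    · rw [abs_of_nonneg (by linarith)]
      linarith
  obtain ⟨C₁, hC₁⟩ := hat_decay_pr hφ hc
  set α₂ : ℝ := (α' + β') / 2 - (β' - α') / 8 with hα₂
  set β₂ : ℝ := (α' + β') / 2 + (β' - α') / 8 with hβ₂
  have hJ : α₂ < β₂ := by rw [hα₂, hβ₂]; linarith
  obtain ⟨g, hg0, hg⟩ := S.glow α₂ β₂ (fun t ht => hZ t ⟨by
    have := ht.1
    rw [hα₂] at this
    linarith, by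
    have := ht.2
    rw [hβ₂] at this
    linarith⟩)
  set ε' : ℝ := ε / 6 with hε'
  have hε'0 : 0 < ε' := by positivity
  have hα1 : (α' + β') / 2 - (β' - α') / 4 < α₂ := by rw [hα₂]; linarith
  have hβ1 : β₂ < (α' + β') / 2 + (β' - α') / 4 := by rw [hβ₂]; linarith
  by_cases hs : Summable fun p : Nat.Primes => Ap S 0 p
  · -- the convergent case
    obtain ⟨B, hB, hBs⟩ := conv_case_pr S hs
    obtain ⟨R, hR⟩ := low_conv_pr S hs hB hJ hε'0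
    have hcpos : 0 < (β₂ - α₂) / 2 := by linarith
    obtain ⟨Q₁, hQ₁⟩ := two_gen_pr hm1 hm k hB hφ hc h0 h1 hα1 hJ hβ1 hg0 hg (R := R) hcpos hε'0
      ⟨1 / 4, by norm_num, hR⟩
    set A : ℝ := g * ((β₂ - α₂) / 2) * Real.exp R / 2 with hA
    have hA0 : 0 < A := by positivity
    obtain ⟨Q₂, hQ₂⟩ := mss_small_pr hm1 hm k hB hBs
      (ε := 3 * ε' * A ^ 2 / (C₁ ^ 2 * Real.pi + 1)) (by positivity)
    refine ⟨max Q₁ Q₂, fun Q hQ => ?_⟩
    obtain ⟨G, hG1, hG2, hG3⟩ := win_core hm k hB hφ hc h0 hsupp hC₁ hA0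
      (ε := 3 * ε') (by positivity) (hQ₂ Q ((le_max_right _ _).trans hQ))
      (hQ₁ Q ((le_max_left _ _).trans hQ))
    refine ⟨G, hG1, hG2.trans (le_of_eq ?_), hG3⟩
    rw [hε']
    ring
  · -- the divergent case
    obtain ⟨c, hc0, hlow⟩ := low_div_pr S hs hJ hε'0
    obtain ⟨C, hC, hmss⟩ := mss_pr hm k
    -- choice of A
    set A₀ : ℝ := √(C * (C₁ ^ 2 * Real.pi + 1) / (3 * ε')) + 1 with hA₀
    have hA₀0 : 0 < A₀ := by positivity
    set R : ℝ := Real.log (2 * A₀ / (g * c)) with hR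
    have hgc : 0 < g * c := by positivity
    set A : ℝ := g * c * Real.exp R / 2 with hA
    have hAA : A = A₀ := by
      rw [hA, hR, Real.exp_log (by positivity)]
      field_simp
    have hCA : C ≤ 3 * ε' * A ^ 2 / (C₁ ^ 2 * Real.pi + 1) := by
      rw [le_div_iff₀ (by positivity), hAA]
      have h4 : √(C * (C₁ ^ 2 * Real.pi + 1) / (3 * ε')) ^ 2 ≤ A₀ ^ 2 :=
        pow_le_pow_left₀ (Real.sqrt_nonneg _) (by rw [hA₀]; linarith) 2
      rw [Real.sq_sqrt (by positivity), div_le_iff₀ (by positivity)] at h4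
      linarith
    have hB : ∀ p ∈ (∅ : Finset ℕ), p.Prime := by simp
    obtain ⟨η₀, hη₀, hlow⟩ := hlow R
    obtain ⟨Q₁, hQ₁⟩ := two_gen_pr hm1 hm k hB hφ hc h0 h1 hα1 hJ hβ1 hg0 hg (R := R) hc0 hε'0
      ⟨η₀, hη₀, by
        simp only [win_PB_empty, one_pow, mul_one]
        exact hlow⟩
    refine ⟨Q₁, fun Q hQ => ?_⟩
    have hup : ∑ x ∈ pairs S.N Q, ∫ u : ℝ, ‖EQ k ∅ x (u - ell S x)‖ ^ 2 / (1 + u ^ 2) ≤
        3 * ε' * A ^ 2 / (C₁ ^ 2 * Real.pi + 1) * Q ^ 2 := by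
      rw [win_EQ_empty]
      exact (hmss Q).trans (mul_le_mul_of_nonneg_right hCA (by positivity))
    obtain ⟨G, hG1, hG2, hG3⟩ := win_core hm k hB hφ hc h0 hsupp hC₁ (A := A) (by positivity)
      (ε := 3 * ε') (by positivity) hup (hQ₁ Q hQ)
    refine ⟨G, hG1, hG2.trans (le_of_eq ?_), hG3⟩
    rw [hε']
    ring

end Pool.Agent.G5
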