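import Pool.Agent.Lib_helper22.G4.DEN
import Pool.Agent.Lib_helper31.G5.ODDT
import Pool.Agent.Lib_helper44.G5.Basic
import Pool.Agent.Lib_helper44.G5.Defs
import Pool.Agent.Lib_helper44.G5.WIN
import Pool.Agent.Lib_helper50.G5.WTOS
import Pool.Agent.Lib_helper68.GL2.ODD

/-!
# Block FIN: the end of the proof
-/

namespace Pool.Agent.G5

open Pool.Agent.G4

open Complex MeasureTheory Filter Topology

variable {m : ℕ}

theorem fin_noz {S : Sys m} (k : Kers S) {x : Ix} (hx : x.q.Coprime S.N) (hp : x.2.IsPrimitive)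
    {Λ : ℂ → ℂ} (hΛ : IsLam S x.2 Λ) {α β : ℝ} (hz : oddZ Λ α β = ∅) : NoZ k α β x := by
  obtain ⟨Λ', hΛ', hline⟩ := exists_lam_pr k hx hp
  have heq : Λ = Λ' := lam_unique_pr hΛ hΛ'
  subst heq
  obtain ⟨W, hW, hfe⟩ := lam_phase_pr (by omega : 1 < x.1 + 2) hx hp hΛ
  have e : ∀ t : ℝ, (((1 / 2 : ℝ) : ℂ) + t * I) = 1 / 2 + t * I := by
    intro t; push_cast; ring
  obtain ⟨θ, hθ, hph⟩ := GL2.phase_odd_pr hΛ.1 (1 / 2) hW (fun t => by rw [e]; exact hfe t) α β (by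
    intro t ht hodd
    have h1 : t ∈ oddZ Λ α β := ⟨ht.1, ht.2, by rw [← e]; exact hodd⟩
    rw [hz] at h1
    exact h1)
  refine ⟨θ, hθ, fun t ht => ?_⟩
  have h2 := hph t ht
  rw [e, hline] at h2
  have hE : cexp ((ell S x : ℂ) * (1 / 2 + t * I)) =
      (Real.exp (ell S x / 2) : ℂ) * cexp (ell S x * t * I) := by
    rw [Complex.ofReal_exp, ← Complex.exp_add]
    congr 1
    push_cast
    ring
  have hE1 : ‖cexp ((ell S x : ℂ) * t * I)‖ = 1 := by
    rw [show ((ell S x : ℂ) * t * I) = ((ell S x * t : ℝ) : ℂ) * I by push_cast; ring]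
    exact Complex.norm_exp_ofReal_mul_I _
  have hE0 : (Real.exp (ell S x / 2) : ℂ) ≠ 0 := by
    exact_mod_cast (Real.exp_pos _).ne'
  rw [hE, norm_mul, norm_mul, hE1, mul_one, Complex.norm_real, Real.norm_eq_abs,
    abs_of_pos (Real.exp_pos _)] at h2
  push_cast at h2
  refine mul_left_cancel₀ hE0 ?_
  push_cast
  linear_combination h2

/-- many odd zeros in all windows -/
def Good (S : Sys m) (T h : ℝ) (K : ℕ) {q : ℕ} (χ : DirichletCharacter ℂ q) : Prop :=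
  ∃ Λ : ℂ → ℂ, IsLam S χ Λ ∧ ∀ x : ℝ, -T ≤ x → x + h ≤ T → (K : ℕ∞) ≤ (oddZ Λ x (x + h)).encard

/-- a bad character has a window of constant phase -/
theorem fin_bad {S : Sys m} (k : Kers S) {T h : ℝ} (hh : 0 < h) {K : ℕ} {x : Ix}
    (hx : x.q.Coprime S.N) (hp : x.2.IsPrimitive) (hb : ¬ Good S T h K x.2) :
    ∃ j ∈ Finset.range (⌈2 * T / (h / (K + 1))⌉₊ + K + 1),
      NoZ k (-T + j * (h / (K + 1))) (-T + j * (h / (K + 1)) + h / (K + 1)) x := by
  obtain ⟨Λ, hΛ, _⟩ := exists_lam_pr k hx hp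
  unfold Good at hb
  push Not at hb
  obtain ⟨y, hx1, hx2, hlt⟩ := hb Λ hΛ
  set g : ℝ := h / (K + 1) with hg
  have hg0 : 0 < g := by positivity
  have hgh : (K + 1) * g = h := by rw [hg]; field_simp
  set j₀ : ℕ := ⌈(y + T) / g⌉₊ with hj₀
  have h1 : y ≤ -T + j₀ * g := by
    have := Nat.le_ceil ((y + T) / g)
    rw [div_le_iff₀ hg0] at this
    linarith
  have h2 : -T + j₀ * g < y + g := by
    have := Nat.ceil_lt_add_one (a := (y + T) / g) (div_nonneg (by linarith) hg0.le)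
    have h3 := mul_lt_mul_of_pos_right this hg0
    have h4 : ((y + T) / g + 1) * g = y + T + g := by field_simp
    rw [h4] at h3
    linarith
  by_contra hcon
  push Not at hcon
  have hex : ∀ i ∈ Finset.range K, ∃ t : ℝ, t ∈ oddZ Λ (-T + (j₀ + i : ℕ) * g)
      (-T + (j₀ + i : ℕ) * g + g) := by
    intro i hi
    by_contra hno
    refine hcon (j₀ + i) ?_ (fin_noz k hx hp hΛ ?_)
    · rw [Finset.mem_range]
      have h5 : j₀ ≤ ⌈2 * T / g⌉₊ := Nat.ceil_mono (by gcongr; linarith)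
      have := Finset.mem_range.1 hi
      omega
    · exact Set.eq_empty_of_forall_notMem fun t ht => hno ⟨t, ht⟩
  choose! t ht using hex
  have hmono : ∀ i ∈ Finset.range K, ∀ j ∈ Finset.range K, i < j → t i < t j := by
    intro i hi j hj hij
    have h5 := (ht i hi).2.1
    have h6 := (ht j hj).1
    have h7 : ((j₀ + i : ℕ) : ℝ) * g + g ≤ (j₀ + j : ℕ) * g := by
      have h8 : ((j₀ + i : ℕ) : ℝ) + 1 ≤ (j₀ + j : ℕ) := by exact_mod_cast (by omega)
      nlinarith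
    linarith
  have hinj : Set.InjOn t (Finset.range K : Set ℕ) := by
    intro i hi j hj hij
    rcases lt_trichotomy i j with h5 | h5 | h5
    · exact absurd hij (hmono i hi j hj h5).ne
    · exact h5
    · exact absurd hij (hmono j hj i hi h5).ne'
  have hsub : t '' (Finset.range K : Set ℕ) ⊆ oddZ Λ y (y + h) := by
    rintro _ ⟨i, hi, rfl⟩
    obtain ⟨h5, h6, h7⟩ := ht i hi
    have hi' : (i : ℝ) + 1 ≤ K := by
      have := Finset.mem_range.1 (Finset.mem_coe.1 hi)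
      exact_mod_cast this
    refine ⟨?_, ?_, h7⟩
    · push_cast at h5
      have : (0 : ℝ) ≤ i * g := by positivity
      linarith
    · push_cast at h6
      nlinarith
  have hcard : (K : ℕ∞) ≤ (oddZ Λ y (y + h)).encard := by
    have h5 := Set.encard_le_encard hsub
    rw [hinj.encard_image, Set.encard_coe_eq_coe_finsetCard, Finset.card_range] at h5
    exact h5
  exact absurd hlt (not_lt.2 hcard)

/-- summation over the characters of the pairs -/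
theorem fin_sum (N Q : ℕ) (B : ∀ {q : ℕ}, DirichletCharacter ℂ q → Prop) :
    ∑ q ∈ Finset.Icc 2 Q,
      Nat.card {χ : DirichletCharacter ℂ q // q.Coprime N ∧ χ.IsPrimitive ∧ B χ} =
    (open Classical in ((pairs N Q).filter (fun x => B x.2)).card) := by
  classical
  have h1 : Finset.Icc 2 Q = Finset.Ico 2 (Q + 1) := by
    ext; simp
  rw [h1, Finset.sum_Ico_eq_sum_range, Finset.card_filter, pairs, Finset.sum_sigma,
    Finset.sum_filter, show Q + 1 - 2 = Q - 1 by omega]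
  refine Finset.sum_congr rfl fun k _ => ?_
  rw [show 2 + k = k + 2 by ring]
  split_ifs with hk
  · rw [Nat.card_eq_fintype_card, Fintype.card_subtype, Finset.sum_filter, Finset.card_filter]
    refine Finset.sum_congr rfl fun χ _ => ?_
    by_cases h2 : χ.IsPrimitive <;> by_cases h3 : B χ <;> simp [h2, h3, hk]
  · have : IsEmpty {χ : DirichletCharacter ℂ (k + 2) // (k + 2).Coprime N ∧ χ.IsPrimitive ∧ B χ} :=
      ⟨fun χ => hk χ.2.1⟩
    simp

theorem final_sys {S : Sys m} (k : Kers S) (hm1 : 1 ≤ m) (hm : m ≤ 4) (T h : ℝ) (hh : 0 < h) (K : ℕ) {ε : ℝ}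
    (hε : 0 < ε) : ∃ Q₀ : ℕ, ∀ Q : ℕ, Q₀ ≤ Q →
      ∑ q ∈ Finset.Icc 2 Q, (Nat.card {χ : DirichletCharacter ℂ q //
        q.Coprime S.N ∧ χ.IsPrimitive ∧ ¬ Good S T h K χ} : ℝ) ≤
      ε * ∑ q ∈ Finset.Icc 2 Q, (Nat.card {χ : DirichletCharacter ℂ q //
        q.Coprime S.N ∧ χ.IsPrimitive} : ℝ) := by
  classical
  obtain ⟨c, hc, Q₁, hmany⟩ := many_pairs_pr S.N_pos
  set g : ℝ := h / (K + 1) with hg
  have hg0 : 0 < g := by positivity
  set J : ℕ := ⌈2 * T / g⌉₊ + K + 1 with hJ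
  have hJ0 : (0 : ℝ) < J := by rw [hJ]; positivity
  have hwin : ∀ j : ℕ, ∃ Q₀ : ℕ, ∀ Q : ℕ, Q₀ ≤ Q → ∃ G : Finset Ix, G ⊆ pairs S.N Q ∧
      (G.card : ℝ) ≤ (ε * c / J) * Q ^ 2 ∧ ∀ x ∈ pairs S.N Q, x ∉ G →
        ¬ NoZ k (-T + j * g) (-T + j * g + g) x :=
    fun j => window_pr hm1 hm k (by linarith) (by positivity)
  choose Q₀ hQ₀ using hwin
  refine ⟨Q₁ + ∑ j ∈ Finset.range J, Q₀ j, fun Q hQ => ?_⟩
  have htot : ∑ q ∈ Finset.Icc 2 Q, (Nat.card {χ : DirichletCharacter ℂ q //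
        q.Coprime S.N ∧ χ.IsPrimitive} : ℝ) = (pairs S.N Q).card := by
    have h1 := fin_sum S.N Q (fun _ => True)
    simp only [and_true, Finset.filter_true] at h1
    exact_mod_cast h1
  have hbad : ∑ q ∈ Finset.Icc 2 Q, (Nat.card {χ : DirichletCharacter ℂ q //
        q.Coprime S.N ∧ χ.IsPrimitive ∧ ¬ Good S T h K χ} : ℝ) =
      ((pairs S.N Q).filter (fun x => ¬ Good S T h K x.2)).card := by
    have h1 := fin_sum S.N Q (fun χ => ¬ Good S T h K χ)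
    rw [← Nat.cast_sum, h1]
    congr!
  rw [htot, hbad]
  have hex : ∀ j ∈ Finset.range J, ∃ G : Finset Ix, G ⊆ pairs S.N Q ∧
      (G.card : ℝ) ≤ (ε * c / J) * Q ^ 2 ∧ ∀ x ∈ pairs S.N Q, x ∉ G →
        ¬ NoZ k (-T + j * g) (-T + j * g + g) x := by
    intro j hj
    refine hQ₀ j Q ?_
    have := Finset.single_le_sum (f := Q₀) (fun _ _ => Nat.zero_le _) hj
    omega
  choose! G hG1 hG2 hG3 using hex
  have hcover : (pairs S.N Q).filter (fun x => ¬ Good S T h K x.2) ⊆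
      (Finset.range J).biUnion G := by
    intro x hx
    obtain ⟨hx1, hx2⟩ := Finset.mem_filter.1 hx
    obtain ⟨_, hx3, hx4⟩ := bas_mem_pairs.1 hx1
    obtain ⟨j, hj, hjz⟩ := fin_bad k hh hx3 hx4 hx2
    refine Finset.mem_biUnion.2 ⟨j, hj, ?_⟩
    by_contra hcon
    exact hG3 j hj x hx1 hcon hjz
  have h1 : (((pairs S.N Q).filter (fun x => ¬ Good S T h K x.2)).card : ℝ) ≤
      ∑ j ∈ Finset.range J, ((G j).card : ℝ) := by
    exact_mod_cast (Finset.card_le_card hcover).trans Finset.card_biUnion_le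
  have h2 : ∑ j ∈ Finset.range J, ((G j).card : ℝ) ≤ ε * (c * Q ^ 2) := by
    refine (Finset.sum_le_sum hG2).trans (le_of_eq ?_)
    rw [Finset.sum_const, Finset.card_range, nsmul_eq_mul]
    field_simp
  have h3 := hmany Q (by omega)
  calc _ ≤ ε * (c * Q ^ 2) := h1.trans h2
    _ ≤ _ := mul_le_mul_of_nonneg_left h3 hε.le

/-- many odd zeros in all windows -/
def GoodW (W : WSys m) (T h : ℝ) (K : ℕ) {q : ℕ} (χ : DirichletCharacter ℂ q) : Prop :=
  ∃ Λ : ℂ → ℂ, IsLamW W χ Λ ∧ ∀ x : ℝ, -T ≤ x → x + h ≤ T → (K : ℕ∞) ≤ (oddZ Λ x (x + h)).encard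

/-- the main theorem for `WSys` -/
theorem final_w (W : WSys m) (hm1 : 1 ≤ m) (hm : m ≤ 4) (T h : ℝ) (hh : 0 < h) (K : ℕ) {ε : ℝ}
    (hε : 0 < ε) : ∃ Q₀ : ℕ, ∀ Q : ℕ, Q₀ ≤ Q →
      ∑ q ∈ Finset.Icc 2 Q, (Nat.card {χ : DirichletCharacter ℂ q //
        q.Coprime W.N ∧ χ.IsPrimitive ∧ ¬ GoodW W T h K χ} : ℝ) ≤
      ε * ∑ q ∈ Finset.Icc 2 Q, (Nat.card {χ : DirichletCharacter ℂ q //
        q.Coprime W.N ∧ χ.IsPrimitive} : ℝ) := by
  classical
  obtain ⟨S, R, ⟨k⟩, hSa, hSN, hR, hRe, hRL⟩ := wsys_sys_pr W hm1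
  obtain ⟨Q₀, hQ₀⟩ := final_sys k hm1 hm T h hh K hε
  have himp : ∀ (q : ℕ) (χ : DirichletCharacter ℂ q), 1 < q → q.Coprime W.N → χ.IsPrimitive →
      Good S T h K χ → GoodW W T h K χ := by
    intro q χ hq hqN hp hG
    obtain ⟨Λ', hΛ', hz⟩ := hG
    obtain ⟨Λ, _, hd, _, _, _, hser⟩ := W.fe q hq hqN χ hp
    have hΛ : IsLamW W χ Λ := ⟨hd, hser⟩
    have h1 := hRL q χ Λ hΛ
    have h2 : Λ' = fun s => R (par χ) s * Λ s := lam_unique_pr hΛ' h1
    refine ⟨Λ, hΛ, fun x hx1 hx2 => ?_⟩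
    have h3 := hz x hx1 hx2
    rw [h2, oddZ_mul_pr (hR _) hd (hRe _)] at h3
    exact h3
  refine ⟨Q₀, fun Q hQ => ?_⟩
  have h1 := hQ₀ Q hQ
  rw [hSN] at h1
  refine le_trans (Finset.sum_le_sum fun q hq => ?_) h1
  have hq2 := (Finset.mem_Icc.1 hq).1
  have hfin : Finite {χ : DirichletCharacter ℂ q //
      q.Coprime W.N ∧ χ.IsPrimitive ∧ ¬ Good S T h K χ} := by
    have : NeZero q := ⟨by omega⟩
    infer_instance
  have h3 : Nat.card {χ : DirichletCharacter ℂ q //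
      q.Coprime W.N ∧ χ.IsPrimitive ∧ ¬ GoodW W T h K χ} ≤ Nat.card {χ : DirichletCharacter ℂ q //
      q.Coprime W.N ∧ χ.IsPrimitive ∧ ¬ Good S T h K χ} := by
    refine Nat.card_le_card_of_injective (fun χ => ⟨χ.1, χ.2.1, χ.2.2.1, fun hG =>
      χ.2.2.2 (himp q χ.1 (by omega) χ.2.1 χ.2.2.1 hG)⟩) ?_
    intro χ χ' h
    have h5 := congrArg Subtype.val h
    exact Subtype.ext h5
  exact_mod_cast h3

end Pool.Agent.G5
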