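import Pool.Agent.Lib_helper44.G5.Defs
import Pool.Agent.Lib_helper44.G5.LAM
import Pool.Agent.Lib_helper44.G5Z.Defs
import Pool.Agent.Lib_helper5.G5.ZG

/-!
# Block ZL: the `L`-function
-/

namespace Pool.Agent.G5

open Pool.Agent.G4

open Complex MeasureTheory Filter Topology

variable {m : ℕ}

theorem lw_rel_pr {W : WSys m} {S : Sys m} (k : Kers S) {R : Fin 2 → ℂ → ℂ} (ha : S.a = W.a)
    (hN : S.N = W.N) (hR : ∀ δ, Differentiable ℂ (R δ))
    (hRL : ∀ (q : ℕ) (χ : DirichletCharacter ℂ q) (Λ : ℂ → ℂ), IsLamW W χ Λ →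
      IsLam S χ (fun s => R (par χ) s * Λ s))
    {x : Ix} (hx : x.q.Coprime S.N) (hp : x.2.IsPrimitive) {Λ : ℂ → ℂ} (hΛ : IsLamW W x.2 Λ) :
    ∃ L : ℂ → ℂ, Differentiable ℂ L ∧ (∀ s : ℂ, Λ s = 0 → L s = 0) ∧
      (∀ s : ℂ, 1 < s.re → L s = LSeries (fun n => W.a n * x.2 n) s) ∧
      ∀ z : ℂ, 0 < z.re → Hf k x z = S.gam (par x.2) (1 / 2 + z) * L (1 / 2 + z) := by
  have hG : Differentiable ℂ fun s : ℂ => ∏ j, (Gammaℝ (s - W.μ (par x.2) j))⁻¹ := by
    refine Differentiable.fun_finsetProd fun j _ => ?_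
    exact Complex.differentiable_Gammaℝ_inv.comp (differentiable_id.sub (differentiable_const _))
  have hE : Differentiable ℂ fun s : ℂ => cexp (-(ell S x * s)) := by fun_prop
  set L : ℂ → ℂ := fun s => (∏ j, (Gammaℝ (s - W.μ (par x.2) j))⁻¹) * cexp (-(ell S x * s)) * Λ s
    with hL
  have hLd : Differentiable ℂ L := (hG.mul hE).mul hΛ.1
  have hL1 : ∀ s : ℂ, 1 < s.re → L s = LSeries (fun n => W.a n * x.2 n) s := by
    intro s hs
    have h1 := hΛ.2 s hs
    rw [← hN] at h1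
    have h2 := lam_cond S x s
    rw [h2] at h1
    have h3 : cexp (-(ell S x * s)) * cexp (ell S x * s) = 1 := by
      rw [← Complex.exp_add]; simp
    calc L s = cexp (-(ell S x * s)) * ((∏ j, (Gammaℝ (s - W.μ (par x.2) j))⁻¹) * Λ s) := by
          rw [hL]; ring
      _ = _ := by rw [h1, ← mul_assoc, h3, one_mul]
  refine ⟨L, hLd, fun s hs => by rw [hL]; simp [hs], hL1, ?_⟩
  obtain ⟨Λ', hΛ', hline⟩ := exists_lam_pr k hx hp
  have hga := (gam_analytic_pr k (par x.2)).1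
  have hopen : IsOpen {s : ℂ | 1 / 2 < s.re} := isOpen_lt continuous_const Complex.continuous_re
  have hpre : IsPreconnected {s : ℂ | 1 / 2 < s.re} := (convex_halfSpace_re_gt _).isPreconnected
  have hH : AnalyticOnNhd ℂ (fun s : ℂ => Hf k x (s - 1 / 2)) {s : ℂ | 1 / 2 < s.re} := by
    intro s _
    have h1 : Differentiable ℂ (fun s : ℂ => Hf k x (s - 1 / 2)) :=
      (lam_entire k hx hp).comp (differentiable_id.sub (differentiable_const _))
    exact h1.analyticAt s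
  have hGL : AnalyticOnNhd ℂ (fun s : ℂ => S.gam (par x.2) s * L s) {s : ℂ | 1 / 2 < s.re} :=
    fun s hs => (hga s hs).mul (hLd.analyticAt s)
  have heq : Set.EqOn (fun s : ℂ => Hf k x (s - 1 / 2)) (fun s : ℂ => S.gam (par x.2) s * L s)
      {s : ℂ | 1 / 2 < s.re} := by
    refine hH.eqOn_of_preconnected_of_eventuallyEq hGL hpre (z₀ := 2) (by norm_num) ?_
    have ho : IsOpen {s : ℂ | 1 < s.re} := isOpen_lt continuous_const Complex.continuous_re
    filter_upwards [ho.mem_nhds (by norm_num : (2 : ℂ) ∈ {s : ℂ | 1 < s.re})] with s hs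
    have h1 := hline (s - 1 / 2)
    have e : (1 : ℂ) / 2 + (s - 1 / 2) = s := by ring
    rw [e] at h1
    have h2 := hΛ'.2 s hs
    rw [lam_cond S x s] at h2
    rw [h2] at h1
    have h4 : cexp (ell S x * s) ≠ 0 := Complex.exp_ne_zero _
    have h5 : S.gam (par x.2) s * LSeries (fun n => S.a n * x.2 n) s = Hf k x (s - 1 / 2) := by
      refine mul_left_cancel₀ h4 ?_
      rw [← h1]; ring
    rw [← h5, hL1 s hs, ha]
  intro z hz
  have h1 := heq (x := 1 / 2 + z) (by
    rw [Set.mem_setOf_eq, Complex.add_re]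
    norm_num
    exact hz)
  have e : (1 : ℂ) / 2 + z - 1 / 2 = z := by ring
  simp only [e] at h1
  exact h1

end Pool.Agent.G5
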