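import Pool.Agent.Lib_helper24.G5.UNI
import Pool.Agent.Lib_helper24.G5.ZP
import Pool.Agent.Lib_helper31.G5.FAMD
import Pool.Agent.Lib_helper38.G5.SIV
import Pool.Agent.Lib_helper44.G4.Basic
import Pool.Agent.Lib_helper44.G5.Defs
import Pool.Agent.Lib_helper44.G5Z.Defs
import Pool.Agent.Lib_helper89.G4.APPR

/-!
# Block ZW: the mean square of `L P_B - 1` to the right of the critical line
-/

namespace Pool.Agent.G5

open Pool.Agent.G4

open Complex MeasureTheory Filter Topology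

variable {m : ℕ}

/-- the weight -/
noncomputable def zwt (σ : ℝ) (u : ℝ) : ℝ := (1 + u ^ 2) * Real.exp (2 * σ * u)

theorem zwt_nonneg (σ u : ℝ) : 0 ≤ zwt σ u := by unfold zwt; positivity

theorem zwt_cont (σ : ℝ) : Continuous (zwt σ) := by unfold zwt; fun_prop

theorem zw_sq (u : ℝ) {δ : ℝ} (hδ : 0 < δ) : 1 + u ^ 2 ≤ (1 + 2 / δ ^ 2) * Real.exp (δ * |u|) := by
  have h0 : 0 ≤ δ * |u| := by positivity
  have h1 := Real.quadratic_le_exp_of_nonneg h0
  have h2 : (1 : ℝ) ≤ Real.exp (δ * |u|) := Real.one_le_exp h0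
  have h3 : u ^ 2 = 2 / δ ^ 2 * ((δ * |u|) ^ 2 / 2) := by
    rw [mul_pow, sq_abs]; field_simp
  have h4 : (δ * |u|) ^ 2 / 2 ≤ Real.exp (δ * |u|) := by nlinarith
  have h5 : (0 : ℝ) ≤ 2 / δ ^ 2 := by positivity
  calc 1 + u ^ 2 = 1 + 2 / δ ^ 2 * ((δ * |u|) ^ 2 / 2) := by rw [← h3]
    _ ≤ Real.exp (δ * |u|) + 2 / δ ^ 2 * Real.exp (δ * |u|) :=
        add_le_add h2 (mul_le_mul_of_nonneg_left h4 h5)
    _ = _ := by ring

/-- the weight to the left decays -/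
theorem zw_left {σ : ℝ} (hσ : 0 < σ) : ∃ C : ℝ, 0 < C ∧ ∀ u : ℝ, u ≤ 0 →
    zwt σ u ≤ C * Real.exp (σ * u) ∧ (1 + u ^ 2) * zwt σ u ≤ C * Real.exp (σ * u) := by
  have hδ : 0 < σ / 2 := by positivity
  set c : ℝ := 1 + 2 / (σ / 2) ^ 2 with hc
  have hc1 : 1 ≤ c := by rw [hc]; have : 0 ≤ 2 / (σ / 2) ^ 2 := by positivity
                         linarith
  refine ⟨c ^ 2, by positivity, fun u hu => ?_⟩
  have h1 := zw_sq u hδ
  rw [abs_of_nonpos hu, ← hc] at h1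
  have h0 : (0 : ℝ) ≤ 1 + u ^ 2 := by positivity
  have h2 : (1 + u ^ 2) * (1 + u ^ 2) ≤ c ^ 2 * Real.exp (-(σ * u)) := by
    calc (1 + u ^ 2) * (1 + u ^ 2) ≤ (c * Real.exp (σ / 2 * -u)) * (c * Real.exp (σ / 2 * -u)) := by
          gcongr
      _ = c ^ 2 * (Real.exp (σ / 2 * -u) * Real.exp (σ / 2 * -u)) := by ring
      _ = _ := by rw [← Real.exp_add]; congr 2; ring
  have h3 : (1 + u ^ 2) * zwt σ u ≤ c ^ 2 * Real.exp (σ * u) := by
    unfold zwt
    calc (1 + u ^ 2) * ((1 + u ^ 2) * Real.exp (2 * σ * u)) =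
        ((1 + u ^ 2) * (1 + u ^ 2)) * Real.exp (2 * σ * u) := by ring
      _ ≤ (c ^ 2 * Real.exp (-(σ * u))) * Real.exp (2 * σ * u) := by gcongr
      _ = c ^ 2 * (Real.exp (-(σ * u)) * Real.exp (2 * σ * u)) := by ring
      _ = _ := by rw [← Real.exp_add]; congr 2; ring
  refine ⟨?_, h3⟩
  have h4 : zwt σ u ≤ (1 + u ^ 2) * zwt σ u := by
    have := zwt_nonneg σ u
    nlinarith [sq_nonneg u, mul_nonneg (sq_nonneg u) this]
  exact h4.trans h3

theorem zw_iio {η : ℝ} (hη : 0 < η) (c : ℝ) :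
    IntegrableOn (fun u : ℝ => Real.exp (η * u)) (Set.Iio c) ∧
      ∫ u in Set.Iio c, Real.exp (η * u) = Real.exp (η * c) / η :=
  ⟨(integrableOn_exp_mul_Iic hη c).mono_set Set.Iio_subset_Iic_self, by
    rw [← integral_Iic_eq_integral_Iio, integral_exp_mul_Iic hη c]⟩

/-- the coefficients without `n = 1` -/
noncomputable def zwb (S : Sys m) (B : Finset ℕ) (n : ℕ) : ℂ := if n = 1 then 0 else aB S B n

theorem zwb_norm (S : Sys m) (B : Finset ℕ) (n : ℕ) : ‖zwb S B n‖ ≤ ‖S.a n‖ := by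
  unfold zwb aB
  split_ifs <;> simp

theorem zwb_zero (S : Sys m) {P n : ℕ} (hn : n ≤ P) : zwb S (Nat.primesBelow (P + 1)) n = 0 := by
  unfold zwb aB
  split_ifs with h1 h2
  · rfl
  · rcases Nat.eq_zero_or_pos n with h0 | h0
    · rw [h0, S.a_zero]
    · obtain ⟨p, hp, hpn⟩ := Nat.exists_prime_and_dvd h1
      have : p ≤ n := Nat.le_of_dvd h0 hpn
      exact absurd hpn (h2 p (Nat.mem_primesBelow.2 ⟨by omega, hp⟩))
  · rfl

theorem zw_rsb {S : Sys m} {Cb : ℝ} (h : RSB S.a Cb) {b : ℕ → ℂ} (hb : ∀ n, ‖b n‖ ≤ ‖S.a n‖) :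
    RSB b Cb := by
  intro x
  refine (Finset.sum_le_sum fun n _ => ?_).trans (h x)
  exact pow_le_pow_left₀ (norm_nonneg _) (hb n) 2

/-- Dirichlet series -/
theorem zw_ser (S : Sys m) {σ : ℝ} (hσ : 1 < σ) :
    Summable fun n : ℕ => ‖S.a n‖ * (n : ℝ) ^ (-σ) := by
  obtain ⟨C, hC⟩ := S.rs
  have h1 : LSeriesSummable S.a σ := by
    apply LSeriesSummable_of_sum_norm_bigO (r := 1) _ zero_le_one (by simpa using hσ)
    apply Asymptotics.IsBigO.of_bound (1 + C)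
    filter_upwards with x
    have h1 : ∑ k ∈ Finset.Icc 1 x, ‖S.a k‖ ≤ ∑ k ∈ Finset.Icc 1 x, (1 + ‖S.a k‖ ^ 2) := by
      apply Finset.sum_le_sum
      intro k _
      nlinarith [sq_nonneg (‖S.a k‖ - 1), norm_nonneg (S.a k)]
    rw [Finset.sum_add_distrib] at h1
    simp only [Finset.sum_const, Nat.card_Icc, Nat.add_sub_cancel, nsmul_eq_mul, mul_one] at h1
    have h2 := hC x
    rw [Real.norm_of_nonneg (Finset.sum_nonneg fun k _ => norm_nonneg _), Real.rpow_one,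
      Real.norm_of_nonneg (Nat.cast_nonneg x)]
    linarith
  refine h1.norm.congr fun n => ?_
  rw [LSeries.norm_term_eq]
  rcases Nat.eq_zero_or_pos n with h0 | h0
  · rw [if_pos h0, h0, S.a_zero]
    simp
  · rw [if_neg h0.ne', Real.rpow_neg (Nat.cast_nonneg n), ← div_eq_mul_inv]
    simp

/-- the coefficient sequence of `EZ` -/
theorem zw_EZ {S : Sys m} (k : Kers S) {B : Finset ℕ} (hB : ∀ p ∈ B, p.Prime) (x : Ix) (u : ℝ) :
    EZ k B x u = D (zwb S B) (k.K (par x.2)) x u := by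
  classical
  obtain ⟨Cb, hCb⟩ := S.rs
  have h1 := appr_summable k.κ_pos (k.isKer (par x.2)) (zw_rsb hCb (zwb_norm S B)) x u
  unfold EZ
  rw [opTs_D_pr k hB x u]
  have hone : aB S B 1 = 1 := by
    unfold aB
    rw [if_pos (fun p hp hd => (hB p hp).one_lt.ne' (Nat.dvd_one.1 hd)), S.a_one]
  set g : ℕ → ℂ := fun n => (if n = 1 then (1 : ℂ) else 0) * ev x n *
    (((√(n : ℝ))⁻¹ : ℝ) : ℂ) * k.K (par x.2) (u + Real.log n) with hg
  have hg1 : ∀ n : ℕ, n ≠ 1 → g n = 0 := by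
    intro n hn
    rw [hg]
    simp [hn]
  have hgs : Summable g := (hasSum_single 1 hg1).summable
  have hgv : ∑' n, g n = k.K (par x.2) u := by
    rw [tsum_eq_single 1 hg1, hg]
    have h2 : ev x 1 = 1 := by
      unfold ev
      simp
    simp [h2]
  have h3 : D (aB S B) (k.K (par x.2)) x u = D (zwb S B) (k.K (par x.2)) x u + ∑' n, g n := by
    unfold D
    rw [← h1.tsum_add hgs]
    refine tsum_congr fun n => ?_
    rw [hg]
    by_cases hn : n = 1
    · subst hn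
      simp [zwb, hone]
    · simp [zwb, hn]
  rw [h3, hgv]
  ring

theorem zw_c0 {c : ℝ} {K : ℝ → ℂ} {A : ℝ} (h : ∀ u : ℝ, ‖K u‖ ≤ c * Real.exp (-A * u)) : 0 ≤ c := by
  have := (norm_nonneg _).trans (h 0)
  simpa using this

/-- pointwise bound -/
theorem zw_point {S : Sys m} (k : Kers S) {A : ℝ} (hA : 2 ≤ A) : ∃ C : ℝ, 0 ≤ C ∧ ∀ P : ℕ, 1 ≤ P →
    ∀ (x : Ix) (u : ℝ), ‖D (zwb S (Nat.primesBelow (P + 1))) (k.K (par x.2)) x u‖ ≤
      C / P * Real.exp (-A * u) := by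
  obtain ⟨c0, h0⟩ := (k.isKer 0).le A (by linarith [k.κ_pos])
  obtain ⟨c1, h1⟩ := (k.isKer 1).le A (by linarith [k.κ_pos])
  have hc0 := zw_c0 h0
  have hc1 := zw_c0 h1
  have hK : ∀ (δ : Fin 2) (u : ℝ), ‖k.K δ u‖ ≤ (c0 + c1) * Real.exp (-A * u) := by
    intro δ u
    have e := Real.exp_pos (-A * u)
    fin_cases δ
    · refine (h0 u).trans ?_
      nlinarith
    · refine (h1 u).trans ?_
      nlinarith
  have hs := zw_ser S (σ := 3 / 2) (by norm_num)
  set Z : ℝ := ∑' n : ℕ, ‖S.a n‖ * (n : ℝ) ^ (-(3 / 2 : ℝ)) with hZ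
  have hZ0 : 0 ≤ Z := tsum_nonneg fun n => by positivity
  refine ⟨(c0 + c1) * Z, by positivity, fun P hP x u => ?_⟩
  have hP0 : (0 : ℝ) < P := by exact_mod_cast hP
  set b := zwb S (Nat.primesBelow (P + 1)) with hb
  have hterm : ∀ n : ℕ, ‖b n * ev x n * (((√(n : ℝ))⁻¹ : ℝ) : ℂ) *
      k.K (par x.2) (u + Real.log n)‖ ≤
        (c0 + c1) / P * Real.exp (-A * u) * (‖S.a n‖ * (n : ℝ) ^ (-(3 / 2 : ℝ))) := by
    intro n
    rcases le_or_gt n P with hn | hn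
    · rw [hb, zwb_zero S hn]
      simp only [zero_mul, norm_zero]
      positivity
    · have hn0 : (0 : ℝ) < n := by
        have : 0 < n := by omega
        exact_mod_cast this
      have hn1 : (1 : ℝ) ≤ n := by
        have : 1 ≤ n := by omega
        exact_mod_cast this
      rw [norm_mul, norm_mul, norm_mul, Complex.norm_real, Real.norm_eq_abs,
        abs_of_nonneg (inv_nonneg.2 (Real.sqrt_nonneg _))]
      have e1 : ‖b n‖ ≤ ‖S.a n‖ := zwb_norm S _ n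
      have e2 := bas_norm_ev_le x n
      have e3 := hK (par x.2) (u + Real.log n)
      have e4 : Real.exp (-A * (u + Real.log n)) = Real.exp (-A * u) * (n : ℝ) ^ (-A) := by
        rw [Real.rpow_def_of_pos hn0, ← Real.exp_add]
        congr 1
        ring
      have e5 : (√(n : ℝ))⁻¹ = (n : ℝ) ^ (-(1 / 2 : ℝ)) := by
        rw [Real.sqrt_eq_rpow, ← Real.rpow_neg hn0.le]
      have e6 : (n : ℝ) ^ (-(1 / 2 : ℝ)) * (n : ℝ) ^ (-A) ≤ (P : ℝ)⁻¹ * (n : ℝ) ^ (-(3 / 2 : ℝ)) := by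
        have h7 : (n : ℝ) ^ (-(1 / 2 : ℝ)) * (n : ℝ) ^ (-A) =
            (n : ℝ) ^ (-(1 : ℝ)) * (n : ℝ) ^ (1 / 2 - A) := by
          rw [← Real.rpow_add hn0, ← Real.rpow_add hn0]
          congr 1
          ring
        have h8 : (n : ℝ) ^ (-(1 : ℝ)) ≤ (P : ℝ)⁻¹ := by
          rw [Real.rpow_neg_one]
          exact inv_anti₀ hP0 (by exact_mod_cast hn.le)
        have h9 : (n : ℝ) ^ (1 / 2 - A) ≤ (n : ℝ) ^ (-(3 / 2 : ℝ)) :=
          Real.rpow_le_rpow_of_exponent_le hn1 (by linarith)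
        rw [h7]
        gcongr
      calc ‖b n‖ * ‖ev x n‖ * (√(n : ℝ))⁻¹ * ‖k.K (par x.2) (u + Real.log n)‖
          ≤ ‖S.a n‖ * 1 * (√(n : ℝ))⁻¹ * ((c0 + c1) * Real.exp (-A * (u + Real.log n))) := by
            gcongr
        _ = (c0 + c1) * Real.exp (-A * u) * ‖S.a n‖ *
            ((n : ℝ) ^ (-(1 / 2 : ℝ)) * (n : ℝ) ^ (-A)) := by
            rw [e4, e5]; ring
        _ ≤ (c0 + c1) * Real.exp (-A * u) * ‖S.a n‖ *
            ((P : ℝ)⁻¹ * (n : ℝ) ^ (-(3 / 2 : ℝ))) := by gcongr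
        _ = _ := by rw [div_eq_mul_inv]; ring
  have hsum := (hs.mul_left ((c0 + c1) / P * Real.exp (-A * u)))
  unfold D
  calc _ ≤ ∑' n : ℕ, (c0 + c1) / P * Real.exp (-A * u) * (‖S.a n‖ * (n : ℝ) ^ (-(3 / 2 : ℝ))) :=
        tsum_of_norm_bounded hsum.hasSum hterm
    _ = (c0 + c1) / P * Real.exp (-A * u) * Z := by rw [tsum_mul_left]
    _ = _ := by ring

/-- the weighted square -/
noncomputable def zwG {S : Sys m} (k : Kers S) (B : Finset ℕ) (σ : ℝ) (x : Ix) (u : ℝ) : ℝ :=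
  ‖EZ k B x u‖ ^ 2 * zwt σ u

theorem zwG_nonneg {S : Sys m} (k : Kers S) (B : Finset ℕ) (σ : ℝ) (x : Ix) (u : ℝ) :
    0 ≤ zwG k B σ x u := by
  unfold zwG
  exact mul_nonneg (by positivity) (zwt_nonneg _ _)

theorem zw_fam {S : Sys m} (hm : m ≤ 4) (k : Kers S) {B : Finset ℕ} (hB : ∀ p ∈ B, p.Prime) :
    Fam S.N (opTs (facs S B) (Dx k)) := zp_famT _ (zp_mem hB) (fam_D_pr hm k)

theorem zwG_int {S : Sys m} (hm : m ≤ 4) (k : Kers S) {B : Finset ℕ} (hB : ∀ p ∈ B, p.Prime)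
    {σ : ℝ} (hσ : 0 < σ) {x : Ix} (hx : x.q.Coprime S.N) (hp : x.2.IsPrimitive) :
    Integrable (zwG k B σ x) := by
  have hF := zw_fam hm k hB
  have hTc : Continuous (opTs (facs S B) (Dx k) x) := hF.cont x
  have hKc : Continuous (k.K (par x.2)) := (k.isKer _).cont
  set δ : ℝ := min 1 (σ / 2) with hδ
  have hδ0 : 0 < δ := lt_min one_pos (by positivity)
  obtain ⟨C1, hC1, h1⟩ := zp_ker k.κ_pos (k.isKer (par x.2)) hσ (min_le_left 1 (σ / 2))
    (min_le_right 1 (σ / 2))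
  obtain ⟨C2, hC2, h2⟩ := zp_fam (hF.dec x hx hp) hσ (min_le_left 1 (σ / 2))
  rw [← hδ] at h1 h2
  have hE : ∀ u : ℝ, ‖EZ k B x u‖ * Real.exp (σ * u) ≤ (C1 + C2) * Real.exp (-δ * |u|) := by
    intro u
    have := norm_sub_le (opTs (facs S B) (Dx k) x u) (k.K (par x.2) u)
    have e := Real.exp_pos (σ * u)
    unfold EZ
    have h3 := h1 u
    have h4 := h2 u
    nlinarith
  refine Integrable.mono' ((zp_exp_abs hδ0).const_mul ((C1 + C2) ^ 2 * (1 + 2 / δ ^ 2))) ?_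
    (Eventually.of_forall fun u => ?_)
  · have hc : Continuous (zwG k B σ x) := by
      unfold zwG EZ
      exact ((hTc.sub hKc).norm.pow 2).mul (zwt_cont σ)
    exact hc.aestronglyMeasurable
  · rw [Real.norm_of_nonneg (zwG_nonneg _ _ _ _ _)]
    have h5 := hE u
    have h6 := zp_sq_exp hδ0 u
    have h7 : zwG k B σ x u = (‖EZ k B x u‖ * Real.exp (σ * u)) ^ 2 * (1 + u ^ 2) := by
      unfold zwG zwt
      have : Real.exp (2 * σ * u) = Real.exp (σ * u) ^ 2 := by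
        rw [← Real.exp_nat_mul]; congr 1; push_cast; ring
      rw [this]; ring
    rw [h7]
    have h8 : 0 ≤ ‖EZ k B x u‖ * Real.exp (σ * u) := by positivity
    calc (‖EZ k B x u‖ * Real.exp (σ * u)) ^ 2 * (1 + u ^ 2)
        ≤ ((C1 + C2) * Real.exp (-δ * |u|)) ^ 2 * (1 + u ^ 2) := by gcongr
      _ = (C1 + C2) ^ 2 * ((1 + u ^ 2) * Real.exp (-δ * |u|)) * Real.exp (-δ * |u|) := by ring
      _ ≤ (C1 + C2) ^ 2 * (1 + 2 / δ ^ 2) * Real.exp (-δ * |u|) := by gcongr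

/-- region `u ≥ -U` -/
theorem zw_r1 (σ U : ℝ) : IntegrableOn (fun u : ℝ => Real.exp (-2 * (σ + 2) * u) * zwt σ u)
    (Set.Ici (-U)) := by
  have h1 : IntegrableOn (fun u : ℝ => Real.exp (-3 * u)) (Set.Ici (-U)) := by
    rw [integrableOn_Ici_iff_integrableOn_Ioi]
    exact integrableOn_exp_mul_Ioi (by norm_num) _
  refine Integrable.mono' (h1.const_mul (3 * Real.exp (2 * |U|))) ?_ ?_
  · have hc : Continuous fun u : ℝ => Real.exp (-2 * (σ + 2) * u) * zwt σ u :=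
      (by fun_prop : Continuous fun u : ℝ => Real.exp (-2 * (σ + 2) * u)).mul (zwt_cont σ)
    exact hc.aestronglyMeasurable
  · refine (ae_restrict_mem measurableSet_Ici).mono fun u hu => ?_
    have hu' : -U ≤ u := hu
    rw [Real.norm_of_nonneg (mul_nonneg (Real.exp_pos _).le (zwt_nonneg _ _))]
    have h2 := zw_sq u (δ := 1) one_pos
    norm_num at h2
    have h3 : |u| ≤ u + 2 * |U| := by
      rcases le_or_gt 0 u with h | h
      · rw [abs_of_nonneg h]; linarith [abs_nonneg U]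
      · rw [abs_of_neg h]
        have := le_abs_self U
        linarith
    have h4 : Real.exp |u| ≤ Real.exp (u + 2 * |U|) := Real.exp_le_exp.2 h3
    unfold zwt
    calc Real.exp (-2 * (σ + 2) * u) * ((1 + u ^ 2) * Real.exp (2 * σ * u))
        = (1 + u ^ 2) * (Real.exp (-2 * (σ + 2) * u) * Real.exp (2 * σ * u)) := by ring
      _ = (1 + u ^ 2) * Real.exp (-4 * u) := by
          rw [← Real.exp_add]; congr 2; ring
      _ ≤ (3 * Real.exp (u + 2 * |U|)) * Real.exp (-4 * u) := by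
          gcongr
          exact h2.trans (by gcongr)
      _ = 3 * (Real.exp (u + 2 * |U|) * Real.exp (-4 * u)) := by ring
      _ = 3 * (Real.exp (2 * |U|) * Real.exp (-3 * u)) := by
          rw [← Real.exp_add, ← Real.exp_add]; congr 2; ring
      _ = _ := by ring

theorem zw_part1 {S : Sys m} (hm : m ≤ 4) (k : Kers S) {σ : ℝ} (hσ : 0 < σ) : ∃ C : ℝ, 0 ≤ C ∧
    ∀ (U : ℝ) (P Q : ℕ), 1 ≤ P →
      ∑ x ∈ pairs S.N Q, ∫ u in Set.Ici (-U), zwG k (Nat.primesBelow (P + 1)) σ x u ≤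
        Q ^ 2 * ((C / P) ^ 2 *
          ∫ u in Set.Ici (-U), Real.exp (-2 * (σ + 2) * u) * zwt σ u) := by
  obtain ⟨C, hC, h⟩ := zw_point k (A := σ + 2) (by linarith)
  refine ⟨C, hC, fun U P Q hP => ?_⟩
  have hBp : ∀ p ∈ Nat.primesBelow (P + 1), p.Prime := fun p hp => Nat.prime_of_mem_primesBelow hp
  have hx : ∀ x ∈ pairs S.N Q, ∫ u in Set.Ici (-U), zwG k (Nat.primesBelow (P + 1)) σ x u ≤
      (C / P) ^ 2 * ∫ u in Set.Ici (-U), Real.exp (-2 * (σ + 2) * u) * zwt σ u := by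
    intro x hx
    obtain ⟨h1, h2⟩ := appr_mem hx
    rw [← integral_const_mul]
    refine setIntegral_mono_on (zwG_int hm k hBp hσ h1 h2).integrableOn
      ((zw_r1 σ U).const_mul _) measurableSet_Ici fun u _ => ?_
    unfold zwG
    rw [zw_EZ k hBp x u, ← mul_assoc]
    refine mul_le_mul_of_nonneg_right ?_ (zwt_nonneg _ _)
    refine (pow_le_pow_left₀ (norm_nonneg _) (h P hP x u) 2).trans (le_of_eq ?_)
    rw [mul_pow, ← Real.exp_nat_mul]
    congr 2
    push_cast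
    ring
  refine (Finset.sum_le_sum hx).trans ?_
  rw [Finset.sum_const, nsmul_eq_mul]
  refine mul_le_mul_of_nonneg_right (appr_card S.N Q) (mul_nonneg (by positivity) ?_)
  exact integral_nonneg fun u => mul_nonneg (Real.exp_pos _).le (zwt_nonneg _ _)

/-- region `-L ≤ u < -U` -/
theorem zw_part2 {S : Sys m} (hm : m ≤ 4) (k : Kers S) {σ : ℝ} (hσ : 0 < σ) : ∃ C : ℝ, 0 ≤ C ∧
    ∀ (U : ℝ) (P Q : ℕ), 0 ≤ U →
      ∑ x ∈ pairs S.N Q, ∫ u in Set.Iio (-U) ∩ Set.Ici (-ellQ S Q),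
        zwG k (Nat.primesBelow (P + 1)) σ x u ≤ Q ^ 2 * (C * Real.exp (-σ * U)) := by
  obtain ⟨Cb, hCb⟩ := S.rs
  have hCb0 : 0 ≤ Cb := by
    have h1 := hCb 1
    have h2 : 0 ≤ ∑ k ∈ Finset.Icc 1 1, ‖S.a k‖ ^ 2 := Finset.sum_nonneg fun k _ => by positivity
    rw [Nat.cast_one, mul_one] at h1
    exact h2.trans h1
  obtain ⟨C, hC, h⟩ := ms_uni_pr hm k 0
  obtain ⟨c, hc, hw⟩ := zw_left hσ
  refine ⟨C * Cb * c / σ, by positivity, fun U P Q hU => ?_⟩
  have hBp : ∀ p ∈ Nat.primesBelow (P + 1), p.Prime := fun p hp => Nat.prime_of_mem_primesBelow hp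
  set A : Set ℝ := Set.Iio (-U) ∩ Set.Ici (-ellQ S Q) with hA
  have hAm : MeasurableSet A := measurableSet_Iio.inter measurableSet_Ici
  have hint : ∀ x ∈ pairs S.N Q, IntegrableOn (zwG k (Nat.primesBelow (P + 1)) σ x) A := by
    intro x hx
    obtain ⟨h1, h2⟩ := appr_mem hx
    exact (zwG_int hm k hBp hσ h1 h2).integrableOn
  rw [← integral_finsetSum _ hint]
  have hci : IntegrableOn (fun u : ℝ => (C * Cb * Q ^ 2 * c) * Real.exp (σ * u)) (Set.Iio (-U)) :=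
    (zw_iio hσ (-U)).1.const_mul _
  calc ∫ u in A, ∑ x ∈ pairs S.N Q, zwG k (Nat.primesBelow (P + 1)) σ x u
      ≤ ∫ u in A, (C * Cb * Q ^ 2 * c) * Real.exp (σ * u) := by
        refine setIntegral_mono_on (integrable_finsetSum _ hint)
          (hci.mono_set Set.inter_subset_left) hAm ?_
        intro u hu
        have hu1 : u < -U := hu.1
        have hu2 : -ellQ S Q ≤ u := hu.2
        unfold zwG
        rw [← Finset.sum_mul]
        have h1 := h (zwb S (Nat.primesBelow (P + 1))) Cb hCb0 (zw_rsb hCb (zwb_norm S _)) Q u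
          (by linarith)
        have h2 : ∑ x ∈ pairs S.N Q, ‖EZ k (Nat.primesBelow (P + 1)) x u‖ ^ 2 ≤
            C * Cb * Q ^ 2 := by
          refine (le_of_eq (Finset.sum_congr rfl fun x _ => ?_)).trans h1
          rw [zw_EZ k hBp x u]
        have h3 := (hw u (by linarith)).1
        calc _ ≤ (C * Cb * Q ^ 2) * (c * Real.exp (σ * u)) :=
              mul_le_mul h2 h3 (zwt_nonneg _ _) (by positivity)
          _ = _ := by ring
    _ ≤ ∫ u in Set.Iio (-U), (C * Cb * Q ^ 2 * c) * Real.exp (σ * u) := by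
        refine setIntegral_mono_set hci (ae_of_all _ fun u => ?_)
          (Set.inter_subset_left.eventuallyLE)
        simp only [Pi.zero_apply]
        positivity
    _ = (C * Cb * Q ^ 2 * c) * (Real.exp (σ * -U) / σ) := by
        rw [integral_const_mul, (zw_iio hσ (-U)).2]
    _ = _ := by
        rw [show σ * -U = -σ * U by ring]
        ring

/-- region `u < -L` -/
theorem zw_part3 {S : Sys m} (hm : m ≤ 4) (k : Kers S) {σ : ℝ} (hσ : 0 < σ) {B : Finset ℕ}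
    (hB : ∀ p ∈ B, p.Prime) : ∃ C : ℝ, 0 ≤ C ∧ ∀ (L : ℝ) (Q : ℕ), 0 ≤ L →
      ∑ x ∈ pairs S.N Q, ∫ u in Set.Iio (-L), zwG k B σ x u ≤ Q ^ 2 * (C * Real.exp (-σ * L)) := by
  have hF := zw_fam hm k hB
  obtain ⟨C1, hC1, h1⟩ := hF.ms
  obtain ⟨c, hc, hw⟩ := zw_left hσ
  obtain ⟨c0, h0⟩ := (k.isKer 0).le 0 (by linarith [k.κ_pos])
  obtain ⟨c1, h1'⟩ := (k.isKer 1).le 0 (by linarith [k.κ_pos])
  have hc0 := zw_c0 h0
  have hc1 := zw_c0 h1'
  have hK : ∀ (δ : Fin 2) (u : ℝ), ‖k.K δ u‖ ≤ c0 + c1 := by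
    intro δ u
    have e0 := h0 u
    have e1 := h1' u
    simp only [neg_zero, zero_mul, Real.exp_zero, mul_one] at e0 e1
    fin_cases δ
    · refine e0.trans (by linarith)
    · refine e1.trans (by linarith)
  refine ⟨2 * c * C1 + 2 * (c0 + c1) ^ 2 * c / σ, by positivity, fun L Q hL => ?_⟩
  set T : Ix → ℝ → ℂ := opTs (facs S B) (Dx k) with hT
  have hiw : Integrable fun u : ℝ => (1 + u ^ 2)⁻¹ := integrable_inv_one_add_sq
  have hcw : Continuous fun u : ℝ => (1 + u ^ 2)⁻¹ :=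
    Continuous.inv₀ (by fun_prop) (fun u => by positivity)
  have hint : ∀ x ∈ pairs S.N Q, Integrable fun u : ℝ => ‖T x u‖ ^ 2 / (1 + u ^ 2) := by
    intro x hx
    obtain ⟨hx1, hx2⟩ := appr_mem hx
    obtain ⟨C, hC⟩ := hF.dec x hx1 hx2 0
    have hC' : ∀ u : ℝ, ‖T x u‖ ≤ C := by
      intro u
      have := hC u
      simpa using this
    have hCc : Continuous (T x) := hF.cont x
    refine Integrable.mono' (hiw.const_mul (C ^ 2)) ?_ (Eventually.of_forall fun u => ?_)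
    · exact ((hCc.norm.pow 2).mul hcw).aestronglyMeasurable
    · rw [Real.norm_of_nonneg (by positivity), div_eq_mul_inv]
      have := hC' u
      gcongr
  have hx : ∀ x ∈ pairs S.N Q, ∫ u in Set.Iio (-L), zwG k B σ x u ≤
      2 * c * Real.exp (-σ * L) * (∫ u : ℝ, ‖T x u‖ ^ 2 / (1 + u ^ 2)) +
        2 * (c0 + c1) ^ 2 * c * (Real.exp (-σ * L) / σ) := by
    intro x hx
    obtain ⟨hx1, hx2⟩ := appr_mem hx
    have hI1 := hint x hx
    have hI2 := (zw_iio hσ (-L)).1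
    have hI3 : IntegrableOn (fun u : ℝ => 2 * c * Real.exp (-σ * L) *
        (‖T x u‖ ^ 2 / (1 + u ^ 2))) (Set.Iio (-L)) := (hI1.const_mul _).integrableOn
    have hI4 : IntegrableOn (fun u : ℝ => 2 * (c0 + c1) ^ 2 * c * Real.exp (σ * u))
        (Set.Iio (-L)) := hI2.const_mul _
    calc ∫ u in Set.Iio (-L), zwG k B σ x u
        ≤ ∫ u in Set.Iio (-L), (2 * c * Real.exp (-σ * L) * (‖T x u‖ ^ 2 / (1 + u ^ 2)) +
            2 * (c0 + c1) ^ 2 * c * Real.exp (σ * u)) := by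
          refine setIntegral_mono_on (zwG_int hm k hB hσ hx1 hx2).integrableOn (hI3.add hI4)
            measurableSet_Iio ?_
          intro u hu
          have hu1 : u < -L := hu
          obtain ⟨hw1, hw2⟩ := hw u (by linarith)
          have e1 : ‖EZ k B x u‖ ^ 2 ≤ 2 * ‖T x u‖ ^ 2 + 2 * (c0 + c1) ^ 2 := by
            have e2 : ‖EZ k B x u‖ ≤ ‖T x u‖ + (c0 + c1) := by
              unfold EZ
              exact (norm_sub_le _ _).trans (add_le_add le_rfl (hK _ _))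
            have := pow_le_pow_left₀ (norm_nonneg _) e2 2
            nlinarith [sq_nonneg (‖T x u‖ - (c0 + c1))]
          have e3 : Real.exp (σ * u) ≤ Real.exp (-σ * L) := Real.exp_le_exp.2 (by nlinarith)
          have e4 : ‖T x u‖ ^ 2 * zwt σ u ≤ c * Real.exp (-σ * L) * (‖T x u‖ ^ 2 / (1 + u ^ 2)) := by
            have h5 : (0 : ℝ) < 1 + u ^ 2 := by positivity
            have h6 : ‖T x u‖ ^ 2 * zwt σ u =
                (‖T x u‖ ^ 2 / (1 + u ^ 2)) * ((1 + u ^ 2) * zwt σ u) := by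
              field_simp
            rw [h6, mul_comm (c * Real.exp (-σ * L))]
            refine mul_le_mul_of_nonneg_left (hw2.trans ?_) (by positivity)
            gcongr
          unfold zwG
          have e5 := zwt_nonneg σ u
          calc ‖EZ k B x u‖ ^ 2 * zwt σ u ≤ (2 * ‖T x u‖ ^ 2 + 2 * (c0 + c1) ^ 2) * zwt σ u :=
                mul_le_mul_of_nonneg_right e1 e5
            _ = 2 * (‖T x u‖ ^ 2 * zwt σ u) + 2 * (c0 + c1) ^ 2 * zwt σ u := by ring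
            _ ≤ 2 * (c * Real.exp (-σ * L) * (‖T x u‖ ^ 2 / (1 + u ^ 2))) +
                2 * (c0 + c1) ^ 2 * (c * Real.exp (σ * u)) := by gcongr
            _ = _ := by ring
      _ = 2 * c * Real.exp (-σ * L) * (∫ u in Set.Iio (-L), ‖T x u‖ ^ 2 / (1 + u ^ 2)) +
            2 * (c0 + c1) ^ 2 * c * (Real.exp (-σ * L) / σ) := by
          rw [integral_add hI3 hI4, integral_const_mul, integral_const_mul, (zw_iio hσ (-L)).2,
            show σ * -L = -σ * L by ring]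
      _ ≤ _ := by
          have e6 : ∫ u in Set.Iio (-L), ‖T x u‖ ^ 2 / (1 + u ^ 2) ≤
              ∫ u : ℝ, ‖T x u‖ ^ 2 / (1 + u ^ 2) :=
            setIntegral_le_integral hI1 (Eventually.of_forall fun u => by
              simp only [Pi.zero_apply]
              positivity)
          have e7 : (0 : ℝ) ≤ 2 * c * Real.exp (-σ * L) := by positivity
          have := mul_le_mul_of_nonneg_left e6 e7
          linarith
  refine (Finset.sum_le_sum hx).trans ?_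
  rw [Finset.sum_add_distrib, ← Finset.mul_sum, Finset.sum_const, nsmul_eq_mul]
  have h2 := h1 Q
  have h3 := appr_card S.N Q
  have e7 : (0 : ℝ) ≤ 2 * c * Real.exp (-σ * L) := by positivity
  have e8 : (0 : ℝ) ≤ 2 * (c0 + c1) ^ 2 * c * (Real.exp (-σ * L) / σ) := by positivity
  calc _ ≤ 2 * c * Real.exp (-σ * L) * (C1 * Q ^ 2) +
        Q ^ 2 * (2 * (c0 + c1) ^ 2 * c * (Real.exp (-σ * L) / σ)) :=
        add_le_add (mul_le_mul_of_nonneg_left h2 e7) (mul_le_mul_of_nonneg_right h3 e8)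
    _ = _ := by field_simp

theorem zw_ellQ (S : Sys m) (hm1 : 1 ≤ m) : Tendsto (fun Q : ℕ => ellQ S Q) atTop atTop := by
  unfold ellQ
  have h1 : Tendsto (fun Q : ℕ => Real.log (Q : ℝ)) atTop atTop :=
    Real.tendsto_log_atTop.comp tendsto_natCast_atTop_atTop
  have hm0 : (0 : ℝ) < m := by exact_mod_cast hm1
  have h2 := h1.const_mul_atTop hm0
  exact (tendsto_atTop_add_const_left _ _ h2).atTop_div_const (by norm_num)

/-- ZW: small mean square -/
theorem ez_small_pr {S : Sys m} (hm1 : 1 ≤ m) (hm : m ≤ 4) (k : Kers S) {σ : ℝ} (hσ : 0 < σ)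
    {ε : ℝ} (hε : 0 < ε) : ∃ P₀ : ℕ, ∀ P : ℕ, P₀ ≤ P → ∃ Q₀ : ℕ, ∀ Q : ℕ, Q₀ ≤ Q →
      ∑ x ∈ pairs S.N Q, nzw σ (EZ k (Nat.primesBelow (P + 1)) x) ≤ ε * Q ^ 2 := by
  obtain ⟨C1, hC1, h1⟩ := zw_part1 hm k hσ
  obtain ⟨C2, hC2, h2⟩ := zw_part2 hm k hσ
  have hexp : Tendsto (fun U : ℝ => Real.exp (-σ * U)) atTop (𝓝 0) := by
    refine Real.tendsto_exp_atBot.comp ?_
    exact tendsto_id.const_mul_atTop_of_neg (by linarith)
  -- choice of U
  obtain ⟨U, hU0, hU⟩ : ∃ U : ℝ, 0 ≤ U ∧ C2 * Real.exp (-σ * U) ≤ ε / 3 := by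
    have h3 : Tendsto (fun U : ℝ => C2 * Real.exp (-σ * U)) atTop (𝓝 0) := by
      simpa using hexp.const_mul C2
    obtain ⟨U, hU⟩ := ((h3.eventually (ge_mem_nhds (by positivity : (0 : ℝ) < ε / 3))).and
      (eventually_ge_atTop 0)).exists
    exact ⟨U, hU.2, hU.1⟩
  set I : ℝ := ∫ u in Set.Ici (-U), Real.exp (-2 * (σ + 2) * u) * zwt σ u with hI
  -- choice of P
  obtain ⟨P₁, hP₁⟩ : ∃ P₁ : ℕ, ∀ P : ℕ, P₁ ≤ P → (C1 / P) ^ 2 * I ≤ ε / 3 := by
    have h3 : Tendsto (fun P : ℕ => (C1 / P) ^ 2 * I) atTop (𝓝 0) := by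
      have h4 : Tendsto (fun P : ℕ => C1 / (P : ℝ)) atTop (𝓝 0) :=
        tendsto_const_div_atTop_nhds_zero_nat C1
      have h5 := (h4.pow 2).mul_const I
      simpa using h5
    exact eventually_atTop.1 (h3.eventually (ge_mem_nhds (by positivity : (0 : ℝ) < ε / 3)))
  refine ⟨max P₁ 1, fun P hP => ?_⟩
  have hBp : ∀ p ∈ Nat.primesBelow (P + 1), p.Prime := fun p hp => Nat.prime_of_mem_primesBelow hp
  obtain ⟨C3, hC3, h3⟩ := zw_part3 hm k hσ hBp
  -- choice of Q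
  obtain ⟨Q₀, hQ₀⟩ : ∃ Q₀ : ℕ, ∀ Q : ℕ, Q₀ ≤ Q → C3 * Real.exp (-σ * ellQ S Q) ≤ ε / 3 ∧
      U ≤ ellQ S Q := by
    have h4 : Tendsto (fun Q : ℕ => C3 * Real.exp (-σ * ellQ S Q)) atTop (𝓝 0) := by
      have := (hexp.comp (zw_ellQ S hm1)).const_mul C3
      simpa using this
    exact eventually_atTop.1 ((h4.eventually (ge_mem_nhds (by positivity : (0 : ℝ) < ε / 3))).and
      ((zw_ellQ S hm1).eventually (eventually_ge_atTop U)))
  refine ⟨Q₀, fun Q hQ => ?_⟩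
  obtain ⟨h5, h6⟩ := hQ₀ Q hQ
  set B := Nat.primesBelow (P + 1) with hB
  set L := ellQ S Q with hL
  have hsplit : ∀ x ∈ pairs S.N Q, nzw σ (EZ k B x) =
      (∫ u in Set.Ici (-U), zwG k B σ x u) +
      ((∫ u in Set.Iio (-U) ∩ Set.Ici (-L), zwG k B σ x u) +
        ∫ u in Set.Iio (-L), zwG k B σ x u) := by
    intro x hx
    obtain ⟨hx1, hx2⟩ := appr_mem hx
    have hG := zwG_int hm k hBp hσ hx1 hx2
    have e1 : nzw σ (EZ k B x) = ∫ u, zwG k B σ x u := rfl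
    have e2 : (Set.Ici (-U))ᶜ = Set.Iio (-U) := Set.compl_Ici
    rw [e1, ← integral_add_compl measurableSet_Ici hG, e2]
    congr 1
    have e3 : Set.Iio (-U) \ Set.Ici (-L) = Set.Iio (-L) := by
      ext u
      simp only [Set.mem_sdiff, Set.mem_Iio, Set.mem_Ici, not_le]
      constructor
      · exact fun h => h.2
      · exact fun h => ⟨by linarith, h⟩
    rw [← integral_inter_add_sdiff measurableSet_Ici hG.integrableOn, e3]
  rw [Finset.sum_congr rfl hsplit, Finset.sum_add_distrib, Finset.sum_add_distrib]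
  have g1 := h1 U P Q ((le_max_right _ _).trans hP)
  have g2 := h2 U P Q hU0
  have g3 := h3 L Q (hU0.trans h6)
  have hQ2 : (0 : ℝ) ≤ (Q : ℝ) ^ 2 := by positivity
  have k1 := mul_le_mul_of_nonneg_left (hP₁ P ((le_max_left _ _).trans hP)) hQ2
  have k2 := mul_le_mul_of_nonneg_left hU hQ2
  have k3 := mul_le_mul_of_nonneg_left h5 hQ2
  linarith

end Pool.Agent.G5
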