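import Pool.Agent.Lib_helper18.G5.ZR
import Pool.Agent.Lib_helper24.G5.ZP
import Pool.Agent.Lib_helper31.G5.ZA
import Pool.Agent.Lib_helper44.G5.Defs
import Pool.Agent.Lib_helper44.G5.FIN
import Pool.Agent.Lib_helper44.G5.ZL
import Pool.Agent.Lib_helper44.G5.ZW
import Pool.Agent.Lib_helper44.G5Z.Defs
import Pool.Agent.Lib_helper5.G5.ZG
import Pool.Agent.Lib_helper50.G5.WTOS
import Pool.Agent.Lib_helper50.G5.ZU

/-!
# Block ZF: almost all twists have no zeros off the line by more than `η`, at bounded height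
-/

namespace Pool.Agent.G5

open Pool.Agent.G4

open Complex MeasureTheory Filter Topology

variable {m : ℕ}

/-- all zeros with `|Im s| ≤ T` are at distance less than `η` from the critical line -/
def NearW (W : WSys m) (T η : ℝ) {q : ℕ} (χ : DirichletCharacter ℂ q) : Prop :=
  ∀ Λ : ℂ → ℂ, IsLamW W χ Λ → ∀ s : ℂ, Λ s = 0 → |s.im| ≤ T → |s.re - 1 / 2| < η

theorem zf_const1 {S : Sys m} (k : Kers S) (T b : ℝ) {η : ℝ} (hη : 0 < η) (δ : Fin 2) :
    ∃ c : ℝ, 0 < c ∧ ∀ f : ℂ → ℂ, Differentiable ℂ f →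
      (∀ s : ℂ, 1 / 2 + η / 2 ≤ s.re → s.re ≤ b + 1 → ‖S.gam δ s * f s‖ ≤ c) →
      ∀ s : ℂ, 1 / 2 + η ≤ s.re → s.re ≤ b → |s.im| ≤ T → ‖f s‖ < 1 := by
  obtain ⟨h1, h2⟩ := gam_analytic_pr k δ
  have hK : IsCompact (Set.Icc (1 / 2 + η) b ×ℂ Set.Icc (-T) T) := isCompact_Icc.reProdIm isCompact_Icc
  have hU : IsOpen {s : ℂ | 1 / 2 + η / 2 < s.re ∧ s.re < b + 1} :=
    (isOpen_lt continuous_const Complex.continuous_re).inter
      (isOpen_lt Complex.continuous_re continuous_const)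
  obtain ⟨c, hc, hc2⟩ := za_max_pr h1 h2 hK hU (by
    intro s hs
    rw [Complex.mem_reProdIm] at hs
    obtain ⟨⟨h3, h4⟩, _⟩ := hs
    exact ⟨by linarith, by linarith⟩) (by
    intro s hs
    have := hs.1
    linarith)
  refine ⟨c, hc, fun f hf hs s h3 h4 h5 => ?_⟩
  refine hc2 f hf.differentiableOn (fun s hs' => hs s hs'.1.le hs'.2.le) s ?_
  rw [Complex.mem_reProdIm]
  exact ⟨⟨h3, h4⟩, abs_le.1 h5⟩

theorem zf_const {S : Sys m} (k : Kers S) (T b : ℝ) {η : ℝ} (hη : 0 < η) :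
    ∃ c : ℝ, 0 < c ∧ ∀ δ : Fin 2, ∀ f : ℂ → ℂ, Differentiable ℂ f →
      (∀ s : ℂ, 1 / 2 + η / 2 ≤ s.re → s.re ≤ b + 1 → ‖S.gam δ s * f s‖ ≤ c) →
      ∀ s : ℂ, 1 / 2 + η ≤ s.re → s.re ≤ b → |s.im| ≤ T → ‖f s‖ < 1 := by
  obtain ⟨c0, h0, h0'⟩ := zf_const1 k T b hη 0
  obtain ⟨c1, h1, h1'⟩ := zf_const1 k T b hη 1
  refine ⟨min c0 c1, lt_min h0 h1, fun δ => ?_⟩
  fin_cases δ
  · exact fun f hf hs => h0' f hf fun s h2 h3 => (hs s h2 h3).trans (min_le_left _ _)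
  · exact fun f hf hs => h1' f hf fun s h2 h3 => (hs s h2 h3).trans (min_le_right _ _)

theorem zf_PB_diff (S : Sys m) {B : Finset ℕ} (hB : ∀ p ∈ B, p.Prime) (x : Ix) :
    Differentiable ℂ (PB S B x) := by
  unfold PB
  refine Differentiable.fun_finsetProd fun p hp => Differentiable.fun_finsetProd fun j _ => ?_
  have hp0 : (p : ℂ) ≠ 0 := by exact_mod_cast (hB p hp).ne_zero
  refine (differentiable_const _).sub ((differentiable_const _).mul ((differentiable_const _).mul ?_))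
  exact Differentiable.const_cpow differentiable_id.neg (Or.inl hp0)

/-- one character -/
theorem zf_char {W : WSys m} {S : Sys m} (hm : m ≤ 4) (k : Kers S) {R : Fin 2 → ℂ → ℂ}
    (ha : S.a = W.a) (hN : S.N = W.N) (hR : ∀ δ, Differentiable ℂ (R δ))
    (hRL : ∀ (q : ℕ) (χ : DirichletCharacter ℂ q) (Λ : ℂ → ℂ), IsLamW W χ Λ →
      IsLam S χ (fun s => R (par χ) s * Λ s)) {T b η : ℝ} (hη : 0 < η) (hb : 1 < b)
    (hfar : ∀ (q : ℕ) (χ : DirichletCharacter ℂ q) (s : ℂ), b ≤ s.re →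
      LSeries (fun n => W.a n * χ n) s ≠ 0) {c : ℝ} (hc0 : 0 < c)
    (hc : ∀ δ : Fin 2, ∀ f : ℂ → ℂ, Differentiable ℂ f →
      (∀ s : ℂ, 1 / 2 + η / 2 ≤ s.re → s.re ≤ b + 1 → ‖S.gam δ s * f s‖ ≤ c) →
      ∀ s : ℂ, 1 / 2 + η ≤ s.re → s.re ≤ b → |s.im| ≤ T → ‖f s‖ < 1)
    {B : Finset ℕ} (hB : ∀ p ∈ B, p.Prime) {x : Ix} (hx : x.q.Coprime S.N) (hp : x.2.IsPrimitive)
    (hs : Real.pi * (nzw (η / 2) (EZ k B x) + nzw (b + 1 / 2) (EZ k B x)) ≤ c ^ 2) :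
    NearW W T η x.2 := by
  have hxW : x.q.Coprime W.N := by rw [← hN]; exact hx
  have hq : 1 < x.1 + 2 := by omega
  -- the right half
  have hright : ∀ Λ : ℂ → ℂ, IsLamW W x.2 Λ → ∀ s : ℂ, 1 / 2 + η ≤ s.re → |s.im| ≤ T → Λ s ≠ 0 := by
    intro Λ hΛ s h1 h2 h0
    obtain ⟨L, hL, hL0, hL1, hL2⟩ := lw_rel_pr k ha hN hR hRL hx hp hΛ
    have hLs := hL0 s h0
    rcases le_or_gt s.re b with h3 | h3
    · have h4 := hc (par x.2) (fun s => L s * PB S B x s - 1)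
        ((hL.mul (zf_PB_diff S hB x)).sub (differentiable_const _)) (by
          intro w hw1 hw2
          have hz : 0 < (w - 1 / 2).re := by
            have : (w - 1 / 2).re = w.re - 1 / 2 := by simp
            rw [this]; linarith
          have h5 := ez_point_pr hm k hB hx hp (σ₁ := η / 2) (σ₂ := b + 1 / 2) (by linarith)
            (z := w - 1 / 2) (by
              have : (w - 1 / 2).re = w.re - 1 / 2 := by simp
              rw [this]; linarith) (by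
              have : (w - 1 / 2).re = w.re - 1 / 2 := by simp
              rw [this]; linarith)
          rw [hL2 _ hz] at h5
          have e : (1 : ℂ) / 2 + (w - 1 / 2) = w := by ring
          rw [e] at h5
          have h6 := h5.trans hs
          have h7 : S.gam (par x.2) w * (L w * PB S B x w - 1) =
              S.gam (par x.2) w * L w * PB S B x w - S.gam (par x.2) w := by ring
          rw [h7]
          exact le_of_sq_le_sq h6 hc0.le) s h1 h3 h2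
      rw [hLs] at h4
      simp at h4
    · have h5 := hL1 s (by linarith)
      rw [hLs] at h5
      exact hfar _ x.2 s h3.le h5.symm
  intro Λ hΛ s h0 hT
  rw [abs_lt]
  constructor
  · by_contra hcon
    push Not at hcon
    obtain ⟨Λ', w, hd, hw, _, hfe, hser⟩ := W.fe (x.1 + 2) hq hxW x.2 hp
    have heq : Λ = Λ' := lamw_unique_pr W hΛ ⟨hd, hser⟩
    have h1 : Λ (1 - starRingEnd ℂ s) = 0 := by
      have h2 := hfe s
      rw [← heq, h0] at h2
      have hw0 : w ≠ 0 := by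
        intro h
        rw [h, norm_zero] at hw
        norm_num at hw
      have h3 := (mul_eq_zero.1 h2.symm).resolve_left hw0
      simpa using h3
    refine hright Λ hΛ _ ?_ ?_ h1
    · simp
      linarith
    · simpa using hT
  · by_contra hcon
    push Not at hcon
    exact hright Λ hΛ s (by linarith) hT h0

theorem near_w (W : WSys m) (hm1 : 1 ≤ m) (hm : m ≤ 4) (T : ℝ) {η : ℝ} (hη : 0 < η) {ε : ℝ}
    (hε : 0 < ε) : ∃ Q₀ : ℕ, ∀ Q : ℕ, Q₀ ≤ Q →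
      ∑ q ∈ Finset.Icc 2 Q, (Nat.card {χ : DirichletCharacter ℂ q //
        q.Coprime W.N ∧ χ.IsPrimitive ∧ ¬ NearW W T η χ} : ℝ) ≤
      ε * ∑ q ∈ Finset.Icc 2 Q, (Nat.card {χ : DirichletCharacter ℂ q //
        q.Coprime W.N ∧ χ.IsPrimitive} : ℝ) := by
  classical
  obtain ⟨S, R, ⟨k⟩, hSa, hSN, hR, hRe, hRL⟩ := wsys_sys_pr W hm1
  obtain ⟨b, hb, hfar⟩ := far_right_pr W
  obtain ⟨c, hc, hcc⟩ := zf_const k T b hη
  obtain ⟨c', hc', Q₁, hmany⟩ := many_pairs_pr W.N_pos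
  set ε' : ℝ := ε * c' * c ^ 2 / (4 * Real.pi) with hε'
  have hε'0 : 0 < ε' := by have := Real.pi_pos; positivity
  obtain ⟨P₁, hP₁⟩ := ez_small_pr hm1 hm k (σ := η / 2) (by linarith) hε'0
  obtain ⟨P₂, hP₂⟩ := ez_small_pr hm1 hm k (σ := b + 1 / 2) (by linarith) hε'0
  set P : ℕ := max P₁ P₂ with hP
  obtain ⟨Q₂, hQ₂⟩ := hP₁ P (le_max_left _ _)
  obtain ⟨Q₃, hQ₃⟩ := hP₂ P (le_max_right _ _)
  set B : Finset ℕ := Nat.primesBelow (P + 1) with hB
  have hBp : ∀ p ∈ B, p.Prime := fun p hp => Nat.prime_of_mem_primesBelow hp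
  refine ⟨max Q₁ (max Q₂ Q₃), fun Q hQ => ?_⟩
  have h1 := hQ₂ Q ((le_max_left _ _).trans ((le_max_right _ _).trans hQ))
  have h2 := hQ₃ Q ((le_max_right _ _).trans ((le_max_right _ _).trans hQ))
  have h3 := hmany Q ((le_max_left _ _).trans hQ)
  have htot : ∑ q ∈ Finset.Icc 2 Q, (Nat.card {χ : DirichletCharacter ℂ q //
        q.Coprime W.N ∧ χ.IsPrimitive} : ℝ) = (pairs W.N Q).card := by
    have h1 := fin_sum W.N Q (fun _ => True)
    simp only [and_true, Finset.filter_true] at h1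
    exact_mod_cast h1
  have hbad : ∑ q ∈ Finset.Icc 2 Q, (Nat.card {χ : DirichletCharacter ℂ q //
        q.Coprime W.N ∧ χ.IsPrimitive ∧ ¬ NearW W T η χ} : ℝ) =
      ((pairs W.N Q).filter (fun x => ¬ NearW W T η x.2)).card := by
    have h1 := fin_sum W.N Q (fun χ => ¬ NearW W T η χ)
    rw [← Nat.cast_sum, h1]
    congr!
  rw [htot, hbad]
  have hnn : ∀ (σ : ℝ) (E : ℝ → ℂ), 0 ≤ nzw σ E := fun σ E => integral_nonneg fun u => by
    simp only [Pi.zero_apply]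
    positivity
  have hpi := Real.pi_pos
  have hbadle : ∀ x ∈ (pairs W.N Q).filter (fun x => ¬ NearW W T η x.2), c ^ 2 / Real.pi ≤
      nzw (η / 2) (EZ k B x) + nzw (b + 1 / 2) (EZ k B x) := by
    intro x hx
    obtain ⟨hx1, hx2⟩ := Finset.mem_filter.1 hx
    obtain ⟨_, hx3, hx4⟩ := bas_mem_pairs.1 hx1
    by_contra hcon
    push Not at hcon
    rw [lt_div_iff₀ hpi] at hcon
    refine hx2 (zf_char hm k hSa hSN hR hRL hη hb hfar hc hcc hBp (by rw [hSN]; exact hx3) hx4 ?_)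
    linarith
  have h4 : (((pairs W.N Q).filter (fun x => ¬ NearW W T η x.2)).card : ℝ) * (c ^ 2 / Real.pi) ≤
      ∑ x ∈ pairs W.N Q, (nzw (η / 2) (EZ k B x) + nzw (b + 1 / 2) (EZ k B x)) := by
    calc _ = ∑ x ∈ (pairs W.N Q).filter (fun x => ¬ NearW W T η x.2), c ^ 2 / Real.pi := by
          rw [Finset.sum_const, nsmul_eq_mul]
      _ ≤ ∑ x ∈ (pairs W.N Q).filter (fun x => ¬ NearW W T η x.2),
          (nzw (η / 2) (EZ k B x) + nzw (b + 1 / 2) (EZ k B x)) := Finset.sum_le_sum hbadle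
      _ ≤ _ := Finset.sum_le_sum_of_subset_of_nonneg (Finset.filter_subset _ _)
          fun x _ _ => add_nonneg (hnn _ _) (hnn _ _)
  rw [Finset.sum_add_distrib, ← hSN] at h4
  rw [← hSN] at h3 ⊢
  have h5 : (((pairs S.N Q).filter (fun x => ¬ NearW W T η x.2)).card : ℝ) * (c ^ 2 / Real.pi) ≤
      ε * (c' * Q ^ 2) * (c ^ 2 / Real.pi) / 2 := by
    refine (h4.trans (add_le_add h1 h2)).trans (le_of_eq ?_)
    rw [hε']
    field_simp
    ring
  have h6 : 0 < c ^ 2 / Real.pi := by positivity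
  have h7 : (((pairs S.N Q).filter (fun x => ¬ NearW W T η x.2)).card : ℝ) ≤
      ε * (c' * Q ^ 2) / 2 := by
    rw [← mul_le_mul_iff_left₀ h6]
    linarith
  have h8 : ε * (c' * Q ^ 2) ≤ ε * ((pairs S.N Q).card : ℝ) := mul_le_mul_of_nonneg_left h3 hε.le
  have h9 : 0 ≤ ε * (c' * (Q : ℝ) ^ 2) := by positivity
  linarith

/-- critical zeros in all windows, and all zeros near the line -/
def Good2 (W : WSys m) (T h η : ℝ) (K : ℕ) {q : ℕ} (χ : DirichletCharacter ℂ q) : Prop :=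
  ∃ Λ : ℂ → ℂ, IsLamW W χ Λ ∧
    (∀ x : ℝ, -T ≤ x → x + h ≤ T → (K : ℕ∞) ≤ (oddZ Λ x (x + h)).encard) ∧
    ∀ s : ℂ, Λ s = 0 → |s.im| ≤ T → |s.re - 1 / 2| < η

theorem final2_w (W : WSys m) (hm1 : 1 ≤ m) (hm : m ≤ 4) (T h : ℝ) (hh : 0 < h) (K : ℕ) {η : ℝ}
    (hη : 0 < η) {ε : ℝ} (hε : 0 < ε) : ∃ Q₀ : ℕ, ∀ Q : ℕ, Q₀ ≤ Q →
      ∑ q ∈ Finset.Icc 2 Q, (Nat.card {χ : DirichletCharacter ℂ q //
        q.Coprime W.N ∧ χ.IsPrimitive ∧ ¬ Good2 W T h η K χ} : ℝ) ≤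
      ε * ∑ q ∈ Finset.Icc 2 Q, (Nat.card {χ : DirichletCharacter ℂ q //
        q.Coprime W.N ∧ χ.IsPrimitive} : ℝ) := by
  classical
  obtain ⟨Q₁, hQ₁⟩ := final_w W hm1 hm T h hh K (half_pos hε)
  obtain ⟨Q₂, hQ₂⟩ := near_w W hm1 hm T hη (half_pos hε)
  refine ⟨max Q₁ Q₂, fun Q hQ => ?_⟩
  have h1 := hQ₁ Q ((le_max_left _ _).trans hQ)
  have h2 := hQ₂ Q ((le_max_right _ _).trans hQ)
  have h3 : ∑ q ∈ Finset.Icc 2 Q, (Nat.card {χ : DirichletCharacter ℂ q //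
        q.Coprime W.N ∧ χ.IsPrimitive ∧ ¬ Good2 W T h η K χ} : ℝ) ≤
      ∑ q ∈ Finset.Icc 2 Q, (Nat.card {χ : DirichletCharacter ℂ q //
        q.Coprime W.N ∧ χ.IsPrimitive ∧ ¬ GoodW W T h K χ} : ℝ) +
      ∑ q ∈ Finset.Icc 2 Q, (Nat.card {χ : DirichletCharacter ℂ q //
        q.Coprime W.N ∧ χ.IsPrimitive ∧ ¬ NearW W T η χ} : ℝ) := by
    have key : ∀ A : ∀ {q : ℕ}, DirichletCharacter ℂ q → Prop,
        ∑ q ∈ Finset.Icc 2 Q, (Nat.card {χ : DirichletCharacter ℂ q //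
          q.Coprime W.N ∧ χ.IsPrimitive ∧ ¬ A χ} : ℝ) =
        ((pairs W.N Q).filter (fun x => ¬ A x.2)).card := by
      intro A
      have e1 := fin_sum W.N Q (fun χ => ¬ A χ)
      rw [← Nat.cast_sum, e1]
      congr!
    rw [key (fun χ => Good2 W T h η K χ), key (fun χ => GoodW W T h K χ),
      key (fun χ => NearW W T η χ), ← Nat.cast_add]
    refine Nat.cast_le.2 ((Finset.card_le_card ?_).trans (Finset.card_union_le _ _))
    intro x hx
    rw [Finset.mem_filter] at hx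
    rw [Finset.mem_union, Finset.mem_filter, Finset.mem_filter]
    by_contra hcon
    push Not at hcon
    obtain ⟨h4, h5⟩ := hcon
    have h6 := h4 hx.1
    have h7 := h5 hx.1
    obtain ⟨Λ, hΛ, hz⟩ := h6
    exact hx.2 ⟨Λ, hΛ, hz, fun s hs hT => h7 Λ hΛ s hs hT⟩
  linarith

end Pool.Agent.G5
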